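import Pool.Agent.Lib.MP_d63cb0_gt.H63.BlueF

/-! Blocks FIN, SAT, MP, FAM, TUK: general facts on generic extensions of hulls. -/

namespace Pool.Agent.Lib.MP_d63cb0_gt.H63

open Pool.Agent.Lib.MP_fecf72_lc Pool.Agent.Lib.MP_d63cb0_gt.H15 Set Filter

theorem st_FIN : St_FIN := by
  classical
  intro C
  filter_upwards [clo0 (∅ : Finset C), clo2 fun (c : C) (F : Finset C) => insert c F,
    clo_sub (fun F : Finset C => (F : Set C)) fun F => F.countable_toSet] with N h1 h2 h3 F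
  refine ⟨fun h c hc => h3 F h c hc, fun h => ?_⟩
  induction F using Finset.induction_on with
  | empty => exact h1
  | insert c F _ ih =>
    exact h2 c F (h c (Finset.mem_insert_self _ _)) (ih fun d hd => h d (Finset.mem_insert_of_mem hd))

theorem st_SAT : St_SAT := by
  intro U R hR
  refine ⟨fun z => {p | FF R z.1 z.2 p}, ?_⟩
  filter_upwards [club_sat hR, clo_sub (fun z : Fm × List (Nm U) => {τ | τ ∈ z.2})
    fun z => z.2.finite_toSet.countable] with N h1 h2 G hG z hz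
  exact (and_iff_right (h2 z hz)).trans (h1 G hG z.1 z.2 (h2 z hz))

theorem st_MP : St_MP := by
  rintro U R hR ι Θ ⟨b, hb⟩
  choose A hA hA1 hA2 using fun a : ι =>
    exists_antichain (R := R) {s | ∃ π, ∃ t ∈ b (a, π), R s t}
  choose! π hπ using fun (a : ι) (s : U) (h : s ∈ A a) => hA a h
  refine ⟨fun a => .mk {w : Σ s : U, (π a s).idx × U //
      w.1 ∈ A a ∧ R w.2.2 w.1 ∧ R w.2.2 ((π a w.1).cnd w.2.1)}
    (fun w => (π a w.1.1).sub w.1.2.1) fun w => w.1.2.2, ?_⟩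
  filter_upwards [hb, club_countable, clo_pair ι (Nm U), clo2 π,
    club_wit hR fun (a : ι) s (x : U) => x = s ∧ s ∈ A a] with N h1 hc cp c1 w G hG a ha
  rintro ⟨_, ⟨σ, hσ, rfl⟩, h⟩
  obtain ⟨t, ht, h2⟩ := (h1 G hG (a, σ) ((cp _ _).2 ⟨ha, hσ⟩)).1 h
  obtain ⟨s, hs, _, h3, rfl, h4⟩ := w G hG a ha ⟨t, ht, fun r hr =>
    let ⟨s, k1, r', k2, k3⟩ := hA2 a r ⟨σ, t, h2, hr⟩ (hR.l hr)
    ⟨s, s, r', ⟨rfl, k1⟩, k2, k3⟩⟩
  obtain ⟨t', h5, h6⟩ := hπ a _ h4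
  have h7 := (h1 G hG (a, _) ((cp _ _).2 ⟨ha, c1 a _ ha h3⟩)).2 ⟨t', hG.f.1 _ hs t' h6, h5⟩
  refine (congrArg (fun y => Θ a y N G) ?_).mpr h7
  ext x
  rw [mem_val hc, mem_val hc]
  constructor
  · rintro ⟨_, _, ⟨⟨⟨s', i, r⟩, a1, a2, a3⟩, rfl, rfl⟩, a4, a5, rfl⟩
    obtain ⟨u, -, b1, b2⟩ := hG.f.2 _ hs s' (hG.f.1 r a4 s' a2)
    obtain rfl := hA1 a _ h4 s' a1 u b1 b2
    exact ⟨_, _, ⟨i, rfl, rfl⟩, hG.f.1 r a4 _ a3, a5, rfl⟩
  · rintro ⟨_, _, ⟨i, rfl, rfl⟩, a4, a5, rfl⟩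
    obtain ⟨u, b0, b1, b2⟩ := hG.f.2 _ hs _ a4
    exact ⟨_, _, ⟨⟨⟨_, i, u⟩, h4, b1, b2⟩, rfl, rfl⟩, b0, a5, rfl⟩

theorem st_FAM : St_FAM := by
  rintro U R hR ι τ Θ s ⟨b, hb⟩ hs
  obtain ⟨m, hs⟩ := hs.nm
  refine ⟨fun a => .mk {w : (τ a).idx × U // ∃ t ∈ b (a, (τ a).sub w.1), R w.2 t}
    (fun w => m (a, (τ a).sub w.1.1)) fun w => w.1.2, ?_⟩
  filter_upwards [hb, hs, club_countable, clo_pair ι (Nm U),
    club_wit1 hR fun (z : ι × Nm U) q (σ : Nm U) =>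
      (∃ c, Ch (τ z.1) σ c) ∧ (∃ t ∈ b (z.1, σ), R q t) ∧ m (z.1, σ) = z.2]
    with N h1 h2 hc cp w G hG a ha y
  rw [mem_val hc]
  constructor
  · rintro ⟨_, _, ⟨⟨⟨i, q⟩, a1⟩, rfl, rfl⟩, a3, a4, rfl⟩
    obtain ⟨q', b1, σ, b2, b3, ⟨t, b4, b5⟩, b6⟩ := w G hG (a, _) ((cp _ _).2 ⟨ha, a4⟩)
      ⟨q, a3, _, ⟨_, i, rfl, rfl⟩, a1, rfl⟩
    have b7 := (cp _ _).2 ⟨ha, b2⟩
    exact ⟨σ, b2, b3, (h1 G hG _ b7).2 ⟨t, hG.f.1 q' b1 t b5, b4⟩,
      (congrArg _ b6.symm).trans (h2 G hG _ b7).2⟩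
  · rintro ⟨_, a1, ⟨_, i, rfl, rfl⟩, a2, rfl⟩
    have b7 := (cp _ _).2 ⟨ha, a1⟩
    obtain ⟨t, b3, b4⟩ := (h1 G hG _ b7).1 a2
    exact ⟨_, _, ⟨⟨(i, t), t, b4, hG.f.self hR b3⟩, rfl, rfl⟩, b3, (h2 G hG _ b7).1,
      (h2 G hG _ b7).2.symm⟩

namespace T87

variable {U : Type 1} {R : U → U → Prop}

open Classical in
/-- Name for a maximal consistent family. -/
noncomputable def mx (R : U → U → Prop) {C : Type 2} (b : Finset C → Set U) : C → Set U :=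
  (WellOrderingRel.isWellOrder (α := C)).wf.fix fun c m =>
    {p | ∀ q, R q p → ∀ F : Finset C, (∀ j ∈ F, ∃ h : WellOrderingRel j c, ∃ s ∈ m j h, R q s) →
      ∃ r, R r q ∧ ∃ s ∈ b (insert c F), R r s}

open Classical in
theorem mx_eq {C : Type 2} (b : Finset C → Set U) (c : C) : mx R b c =
    {p | ∀ q, R q p → ∀ F : Finset C, (∀ j ∈ F, WellOrderingRel j c ∧ ∃ s ∈ mx R b j, R q s) →
      ∃ r, R r q ∧ ∃ s ∈ b (insert c F), R r s} := by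
  rw [mx, WellFounded.fix_eq]
  simp only [exists_prop]

theorem fin (hR : Fo R) {G : Set U} (hG : IsF R G) {C : Type 2} (F : Finset C) {m : C → Set U}
    (h : ∀ j ∈ F, Hd G (m j)) {p : U} (hp : p ∈ G) :
    ∃ q ∈ G, R q p ∧ ∀ j ∈ F, ∃ s ∈ m j, R q s := by
  classical
  induction F using Finset.induction_on with
  | empty => exact ⟨p, hp, hG.self hR hp, by simp⟩
  | insert c F _ ih =>
    obtain ⟨q, h1, h2, h3⟩ := ih fun j hj => h j (Finset.mem_insert_of_mem hj)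
    obtain ⟨s, h4, h5⟩ := h c (Finset.mem_insert_self _ _)
    obtain ⟨r, h6, h7, h8⟩ := hG.2 q h1 s h4
    refine ⟨r, h6, hR.tr h7 h2, fun j hj => ?_⟩
    rcases Finset.mem_insert.1 hj with rfl | hj
    · exact ⟨s, h5, h8⟩
    · obtain ⟨s', k1, k2⟩ := h3 j hj
      exact ⟨s', k1, hR.tr h7 k2⟩

open Classical in
/-- Maximal consistent families exist in the generic extension. -/
theorem imax (hR : Fo R) (C : Type 2) : ∀ᶠ N in Club, ∀ G, GG N R G → ∀ P : Finset C → Prop,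
    Int N G P → P ∅ → ∃ q : C → Prop, Int N G q ∧
      (∀ F : Finset C, (∀ c ∈ F, In N c ∧ q c) → P F) ∧
      ∀ c, In N c → (∀ F : Finset C, (∀ c ∈ F, In N c ∧ q c) → P (insert c F)) → q c := by
  filter_upwards [club_ne, st_FIN C, clo1 (mx R (C := C)),
    clo_pair (Finset C → Set U) C, clo_pair (Finset C → Set U) (Finset C),
    club_wit2 hR fun (z : (Finset C → Set U) × Finset C) q (_ : ℕ) => ∃ s ∈ z.1 z.2, R q s,
    club_wit2 hR fun (z : (Finset C → Set U) × C) q (F : Finset C) => q ∈ mx R z.1 z.2 ∨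
      ((∀ j ∈ F, WellOrderingRel j z.2 ∧ ∃ s ∈ mx R z.1 j, R q s) ∧
        ∀ r, R r q → ∀ s ∈ z.1 (insert z.2 F), ¬ R r s)]
    with N ne cf cm cp cp' w1 w2 G hG P ⟨b, hb, hP⟩ h0
  have ins : ∀ (c : C) (F : Finset C), In N c → (∀ c ∈ F, In N c) → In N (insert c F) :=
    fun c F h1 h2 => (cf _).2 fun j hj =>
      (Finset.mem_insert.1 hj).elim (fun e => by rw [e]; exact h1) (h2 j)
  have k1 : ∀ (c : C) (F : Finset C), In N c → Hd G (mx R b c) →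
      (∀ j ∈ F, In N j ∧ WellOrderingRel j c ∧ Hd G (mx R b j)) → P (insert c F) := by
    rintro c F hc ⟨p, hp, h1⟩ h2
    have h3 := ins c F hc fun j hj => (h2 j hj).1
    obtain ⟨q, h4, h5, h6⟩ := fin hR hG.f F (fun j hj => (h2 j hj).2.2) hp
    rw [mx_eq] at h1
    obtain ⟨r, h7, -, -, s, h8, h9⟩ := w1 G hG (b, insert c F) ((cp' _ _).2 ⟨hb, h3⟩)
      ⟨q, h4, fun r hr => by
        obtain ⟨r', a1, a2⟩ := h1 r (hR.tr hr h5) F fun j hj => ⟨(h2 j hj).2.1,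
          let ⟨s, a1, a2⟩ := h6 j hj; ⟨s, a1, hR.tr hr a2⟩⟩
        exact ⟨r', 0, a1, a2⟩⟩
    exact (hP _ h3).2 ⟨s, hG.f.1 r h7 s h9, h8⟩
  refine ⟨fun c => Hd G (mx R b c), ⟨_, cm b hb, fun _ _ => Iff.rfl⟩, fun F hF => ?_,
    fun c hc h => ?_⟩
  · rcases F.eq_empty_or_nonempty with rfl | hne
    · exact h0
    obtain ⟨m, hm, hm'⟩ : ∃ m ∈ F, ∀ j ∈ F, j ≠ m → WellOrderingRel j m := by
      let _ : LinearOrder C := linearOrderOfSTO WellOrderingRel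
      exact ⟨_, F.max'_mem hne, fun j h1 h2 =>
        (lt_of_le_of_ne (F.le_max' j h1) h2 : j < F.max' hne)⟩
    rw [← Finset.insert_erase hm]
    refine k1 _ _ (hF _ hm).1 (hF _ hm).2 fun j hj => ?_
    have hj' := Finset.mem_erase.1 hj
    exact ⟨(hF j hj'.2).1, hm' j hj'.2 hj'.1, (hF j hj'.2).2⟩
  · obtain ⟨q0, hq0⟩ := ne G hG
    obtain ⟨q, hq, F, hF, h1 | ⟨h1, h2⟩⟩ := w2 G hG (b, c) ((cp _ _).2 ⟨hb, hc⟩)
      ⟨q0, hq0, fun r hr => by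
        by_cases k : r ∈ mx R b c
        · exact ⟨r, ∅, hR.l hr, Or.inl k⟩
        · rw [mx_eq] at k
          simp only [mem_ofPred_eq, not_forall, not_exists, not_and] at k
          obtain ⟨q, a1, F, a2, a3⟩ := k
          exact ⟨q, F, a1, Or.inr ⟨a2, a3⟩⟩⟩
    · exact ⟨q, hq, h1⟩
    · have hF' := (cf F).1 hF
      obtain ⟨s, h3, h4⟩ := (hP _ (ins c F hc hF')).1 (h F fun j hj => ⟨hF' j hj,
        let ⟨s, a1, a2⟩ := (h1 j hj).2; ⟨s, hG.f.1 q hq s a2, a1⟩⟩)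
      obtain ⟨r, -, h5, h6⟩ := hG.f.2 q hq s h3
      exact (h2 r h5 s h4 h6).elim

/-- Name for a finite set of names. -/
noncomputable def finN (tp : U) (F : Finset (Nm U)) : Nm U :=
  famN tp fun i : ULift.{1} (Fin F.card) => (F.equivFin.symm i.down : Nm U)

theorem mem_finN {N : Set Wd} (hc : N.Countable) {G : Set U} {tp : U} (ht : tp ∈ G)
    {F : Finset (Nm U)} {y : V} :
    y ∈ val N G (finN tp F) ↔ ∃ σ ∈ F, In N σ ∧ y = val N G σ := by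
  simp only [mem_val hc, finN, ch_famN]
  constructor
  · rintro ⟨_, _, ⟨⟨i, rfl⟩, -⟩, -, h⟩
    exact ⟨_, (F.equivFin.symm i.down).2, h⟩
  · rintro ⟨σ, h1, h⟩
    exact ⟨σ, tp, ⟨⟨⟨F.equivFin ⟨σ, h1⟩⟩, by simp⟩, rfl⟩, ht, h⟩

end T87

open T87 in
theorem st_TUK : St_TUK := by
  classical
  intro U R tp ht hR
  have hP : Fc R fun (z : (Nm U × Nm U) × Finset (Nm U)) N G =>
      ((∀ σ ∈ z.2, ∃ c, Ch z.1.1 σ c) ∧ ∀ σ, In N σ → σ ∈ z.2 → val N G σ ∈ val N G z.1.1) ∧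
        val N G (finN tp z.2) ∈ val N G z.1.2 :=
    ((Fc.ground _).and (Fc.all hR ((Fc.ground _).imp (Tm.mem hR (Tm.val _) (Tm.val _))))).and
      (Tm.mem hR (Tm.val _) (Tm.val _))
  filter_upwards [club_countable, club_names ht hR, clo_pair (Nm U) (Nm U), T87.imax hR (Nm U),
    Fc.int (Θ := fun (z : Nm U × Nm U) (F : Finset (Nm U)) N G =>
      ((∀ σ ∈ F, ∃ c, Ch z.1 σ c) ∧ ∀ σ, In N σ → σ ∈ F → val N G σ ∈ val N G z.1) ∧
        val N G (finN tp F) ∈ val N G z.2) hP,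
    clo2 fun (α : Nm U) (b : Nm U → Set U) => sepN α fun π r => r ∈ b π]
    with N hc nm cp im hi cs G hG
  rintro _ ⟨α, hα, rfl⟩ _ ⟨γ, hγ, rfl⟩ h0
  have htp := (nm G hG).1
  obtain ⟨q, ⟨b, hb, hq⟩, h1, h2⟩ := im G hG _ (hi G hG (α, γ) ((cp _ _).2 ⟨hα, hγ⟩))
    ⟨⟨by simp, by simp⟩, by
      rwa [(ZFSet.eq_empty (val N G (finN tp ∅))).2 fun y hy => by
        simpa using (mem_finN hc htp).1 hy]⟩
  have hB : ∀ y, y ∈ val N G (sepN α fun π r => r ∈ b π) ↔ ∃ σ, In N σ ∧ q σ ∧ y = val N G σ := by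
    intro y
    simp only [mem_val hc, ch_sepN]
    constructor
    · rintro ⟨σ, r, ⟨-, a1⟩, a2, a3, a4⟩
      exact ⟨σ, a3, (hq σ a3).2 ⟨r, a2, a1⟩, a4⟩
    · rintro ⟨σ, a1, a2, a3⟩
      obtain ⟨r, a4, a5⟩ := (hq σ a1).1 a2
      exact ⟨σ, r, ⟨(h1 {σ} (by simpa using ⟨a1, a2⟩)).1.1 σ (by simp), a5⟩, a4, a1, a3⟩
  refine ⟨_, ⟨_, cs α b hα hb, rfl⟩, fun y hy => ?_, fun c hc' hs => ?_, fun z hz h => ?_⟩
  · obtain ⟨σ, a1, a2, rfl⟩ := (hB y).1 hy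
    exact (h1 {σ} (by simpa using ⟨a1, a2⟩)).1.2 σ a1 (by simp)
  · choose! f f1 f2 f3 using fun y (hy : y ∈ c) => (hB y).1 (hs hy)
    have a1 : ∀ σ ∈ hc'.toFinset.image f, In N σ ∧ q σ := fun σ hσ => by
      obtain ⟨y, hy, rfl⟩ := Finset.mem_image.1 hσ
      exact ⟨f1 y (hc'.mem_toFinset.1 hy), f2 y (hc'.mem_toFinset.1 hy)⟩
    have a2 : val N G (finN tp (hc'.toFinset.image f)) = c := by
      ext y
      rw [mem_finN hc htp]
      constructor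
      · rintro ⟨σ, hσ, -, rfl⟩
        obtain ⟨y, hy, rfl⟩ := Finset.mem_image.1 hσ
        rw [← f3 y (hc'.mem_toFinset.1 hy)]
        exact hc'.mem_toFinset.1 hy
      · exact fun hy => ⟨f y, Finset.mem_image_of_mem f (hc'.mem_toFinset.2 hy), f1 y hy, f3 y hy⟩
    exact a2 ▸ (h1 _ a1).2
  · obtain ⟨σ, c, a1, -, a2, rfl⟩ := (mem_val hc).1 hz
    refine (hB _).2 ⟨σ, a2, h2 σ a2 fun F hF => ⟨⟨fun π hπ => ?_, fun π k hπ => ?_⟩, ?_⟩, rfl⟩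
    · rcases Finset.mem_insert.1 hπ with rfl | hπ
      exacts [⟨c, a1⟩, (h1 F hF).1.1 π hπ]
    · rcases Finset.mem_insert.1 hπ with rfl | hπ
      exacts [hz, (h1 F hF).1.2 π k hπ]
    · have a3 : val N G (finN tp (insert σ F)) = insert (val N G σ) (val N G (finN tp F)) := by
        ext y
        simp only [ZFSet.mem_insert_iff, mem_finN hc htp, Finset.mem_insert]
        constructor
        · rintro ⟨π, rfl | k, k'⟩
          exacts [Or.inl k'.2, Or.inr ⟨π, k, k'⟩]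
        · rintro (rfl | ⟨π, k, k'⟩)
          exacts [⟨σ, Or.inl rfl, a2, rfl⟩, ⟨π, Or.inr k, k'⟩]
      rw [a3]
      refine h _ ((F.finite_toSet.image (val N G)).subset fun y hy => ?_) fun y hy => ?_
      · obtain ⟨π, k, -, rfl⟩ := (mem_finN hc htp).1 hy
        exact ⟨π, k, rfl⟩
      · obtain ⟨π, k, k1, rfl⟩ := (mem_finN hc htp).1 hy
        exact (hB _).2 ⟨π, k1, (hF π k).2, rfl⟩

end Pool.Agent.Lib.MP_d63cb0_gt.H63
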