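import Pool.Agent.Lib.MP_d63cb0_gt.H63.B_FB

/-! Blocks CC, ADD, S: consequences of the countable chain condition. -/

namespace Pool.Agent.Lib.MP_d63cb0_gt.H63

open Pool.Agent.Lib.MP_fecf72_lc Pool.Agent.Lib.MP_d63cb0_gt.H15 Set Filter Cardinal

namespace T87

/-- pairwise contradictory consistent finite sets of bits are countably many -/
theorem ccc {K : Type*} (B : Set (Finset (K × Bool)))
    (h1 : ∀ p ∈ B, ∀ z ∈ p, (z.1, !z.2) ∉ p)
    (h2 : ∀ p ∈ B, ∀ q ∈ B, p ≠ q → ∃ z ∈ p, (z.1, !z.2) ∈ q) : B.Countable := by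
  classical
  have key : ∀ (n : ℕ) (B : Set (Finset (K × Bool))), (∀ p ∈ B, p.card = n) →
      (∀ p ∈ B, ∀ z ∈ p, (z.1, !z.2) ∉ p) →
      (∀ p ∈ B, ∀ q ∈ B, p ≠ q → ∃ z ∈ p, (z.1, !z.2) ∈ q) → B.Countable := by
    intro n
    induction n with
    | zero => exact fun B h _ _ => (countable_singleton ∅).mono fun p hp =>
        Finset.card_eq_zero.1 (h p hp)
    | succ n ih =>
      intro B h0 h1 h2
      rcases B.eq_empty_or_nonempty with rfl | ⟨s, hs⟩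
      · exact countable_empty
      have k : ∀ w : K × Bool, {p ∈ B | w ∈ p}.Countable := fun w => by
        refine countable_of_injective_of_countable_image (f := fun p => p.erase w)
          (fun p hp q hq e => ?_) (ih _ ?_ ?_ ?_)
        · rw [← Finset.insert_erase hp.2, ← Finset.insert_erase hq.2]
          exact congrArg _ e
        · rintro _ ⟨p, hp, rfl⟩
          rw [Finset.card_erase_of_mem hp.2, h0 p hp.1]
          rfl
        · rintro _ ⟨p, hp, rfl⟩ z hz k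
          exact h1 p hp.1 z (Finset.mem_of_mem_erase hz) (Finset.mem_of_mem_erase k)
        · rintro _ ⟨p, hp, rfl⟩ _ ⟨q, hq, rfl⟩ e
          obtain ⟨z, a1, a2⟩ := h2 p hp.1 q hq.1 fun k => e (k ▸ rfl)
          refine ⟨z, Finset.mem_erase.2 ⟨?_, a1⟩, Finset.mem_erase.2 ⟨?_, a2⟩⟩
          · rintro rfl
            exact h1 q hq.1 z hq.2 a2
          · rintro rfl
            exact h1 p hp.1 z a1 hp.2
      refine ((countable_singleton s).union (s.countable_toSet.biUnion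
        fun z _ => k (z.1, !z.2))).mono fun p hp => ?_
      by_cases e : s = p
      · exact Or.inl e.symm
      · obtain ⟨z, a1, a2⟩ := h2 s hs p hp e
        exact Or.inr (mem_biUnion a1 ⟨hp, a2⟩)
  exact (countable_iUnion fun n : ℕ => key n {p ∈ B | p.card = n} (fun _ h => h.2)
    (fun p h => h1 p h.1) fun p hp q hq => h2 p hp.1 q hq.1).mono fun p hp =>
      mem_iUnion.2 ⟨p.card, And.intro hp rfl⟩

variable {K : Type 1}

/-- countable maximal antichains -/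
theorem exists_ctbl (D : Set (Cn K)) :
    ∃ A ⊆ D, A.Countable ∧ ∀ p ∈ D, Cons p → ∃ s ∈ A, ∃ r, Le r p ∧ Le r s := by
  classical
  obtain ⟨A, h1, h2, h3⟩ := exists_antichain (R := Le) {p | p ∈ D ∧ Cons p}
  refine ⟨A, fun p hp => (h1 hp).1, ccc A (fun p hp => cons_iff.1 (h1 hp).2)
    fun p hp q hq e => ?_, fun p hp k => h3 p ⟨hp, k⟩ ⟨subset_rfl, k⟩⟩
  by_contra k
  have k1 := cons_union (h1 hp).2 (h1 hq).2 fun z a b => k ⟨z, a, b⟩
  exact e (h2 p hp q hq _ ⟨Finset.subset_union_right, k1⟩ ⟨Finset.subset_union_left, k1⟩)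

end T87

open T87

theorem st_CC : St_CC := by
  rintro K ι T _ Θ ⟨b, hb⟩
  choose A hA hA1 hA2 using fun a : ι => exists_ctbl {s : Cn K | ∃ t, ∃ u ∈ b (a, t), Le s u}
  choose! τ hτ using fun (a : ι) (s : Cn K) (h : s ∈ A a) => hA a h
  choose Z hZ using fun a : ι => (⟨_, subset_range_enumerate ((hA1 a).image (τ a))
    (Classical.arbitrary T)⟩ : ∃ g : ℕ → T, τ a '' A a ⊆ range g)
  refine ⟨Z, ?_⟩
  filter_upwards [hb, clo_pair ι T, clo1n Z,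
    club_wit (fo (K := K)) fun (a : ι) s (_ : ℕ) => s ∈ A a] with N h1 cp c1 w G hG a ha
  rintro ⟨t, ht, h⟩
  obtain ⟨u, hu, h2⟩ := (h1 G hG (a, t) ((cp _ _).2 ⟨ha, ht⟩)).1 h
  obtain ⟨s, hs, -, -, h3⟩ := w G hG a ha ⟨u, hu, fun r hr =>
    let ⟨s, k1, r', k2⟩ := hA2 a r ⟨t, u, h2, hr⟩ hr.2
    ⟨s, 0, r', k1, k2⟩⟩
  obtain ⟨m, hm⟩ := hZ a ⟨s, h3, rfl⟩
  obtain ⟨u', h4, h5⟩ := hτ a s h3
  exact ⟨m, (h1 G hG (a, _) ((cp _ _).2 ⟨ha, c1 a ha m⟩)).2 ⟨u', hG.f.1 s hs u' h5, hm ▸ h4⟩⟩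

theorem st_ADD : St_ADD := by
  intro K P
  choose A hA hA1 hA2 using fun (W : Ultrafilter P) (c : P → Set (Cn K)) =>
    exists_ctbl {p : Cn K | ∀ᶠ a in W, ∀ t ∈ c a, ∀ r, Le r p → ¬ Le r t}
  filter_upwards [club_ne, clo_pair (Ultrafilter P) (P → Set (Cn K)),
    clo_pair (Ultrafilter P × (P → Set (Cn K))) (Set P),
    clo1n fun (b : ℕ → P → Set (Cn K)) i => b i,
    clo2 fun (W : Ultrafilter P) (b : ℕ → P → Set (Cn K)) =>
      {a | ∀ i, ∀ p ∈ A W (b i), ∀ t ∈ b i a, ∀ r, Le r p → ¬ Le r t},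
    club_wit2 (fo (K := K)) fun (z : (Ultrafilter P × (P → Set (Cn K))) × Set P) s (a : P) =>
      (∃ p ∈ A z.1.1 z.1.2, Le s p) ∨ (a ∈ z.2 ∧ ∃ t ∈ z.1.2 a, Le s t)]
    with N ne cp cp' c1 c2 w G hG W b hW hb hc h
  refine ⟨_, eventually_countable_forall.2 fun i =>
    (eventually_countable_ball (hA1 W (b i))).2 fun p hp => hA W (b i) hp, c2 W b hW hb, ?_⟩
  rintro i a ha - ⟨t, ht, h1⟩
  obtain ⟨B, h2, h3, h4⟩ := h i
  obtain ⟨q, hq⟩ := ne G hG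
  obtain ⟨s, hs, a', h5, ⟨p, h6, h7⟩ | ⟨h6, t', h7, h8⟩⟩ := w G hG ((W, b i), B)
    ((cp' _ _).2 ⟨(cp _ _).2 ⟨hW, c1 b hb i⟩, h3⟩) ⟨q, hq, fun r hr => by
      by_cases k : ∀ᶠ a in W, ∀ t ∈ b i a, ∀ r', Le r' r → ¬ Le r' t
      · obtain ⟨p, a1, r', a2, a3⟩ := hA2 W (b i) r k hr.2
        exact ⟨r', a, a2, Or.inl ⟨p, a1, a3⟩⟩
      · obtain ⟨a, a1, a2⟩ := (Eventually.and h2 (Ultrafilter.eventually_not.2 k)).exists
        simp only [not_forall, not_not, exists_prop] at a2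
        obtain ⟨t, a3, r', a4, a5⟩ := a2
        exact ⟨r', a, a4, Or.inr ⟨a1, t, a3, a5⟩⟩⟩
  · obtain ⟨r, -, a1, a2⟩ := hG.f.2 p (hG.f.1 s hs p h7) t ht
    exact ha i p h6 t h1 r a1 a2
  · exact h4 a' h6 h5 ⟨t', hG.f.1 s hs t' h8, h7⟩

theorem st_S : St_S := by
  classical
  intro K J pat hK
  choose A hA hA1 hA2 using fun (β : Nm (Cn K)) (n : ℕ) =>
    exists_ctbl {p : Cn K | FMem Le (nN ∅ n) β p}
  have hT : ∀ β, ∃ g : K × ℕ × ℕ ↪ K, ∀ x n, ∀ p ∈ A β n, ∀ c, (g x, c) ∉ p := fun β => by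
    let T : Set K := ⋃ n, ⋃ p ∈ A β n, Prod.fst '' (p : Set (K × Bool))
    have h1 : #T ≤ ℵ₀ := le_aleph0_iff_set_countable.2
      (countable_iUnion fun n => (hA1 β n).biUnion fun p _ => p.countable_toSet.image _)
    have h2 : #(K × ℕ × ℕ) ≤ #(Tᶜ : Set K) := by
      rw [mk_compl_of_infinite T (h1.trans_lt (aleph0_lt_mk_iff.2 hK))]
      simp [mul_eq_left (aleph0_le_mk K) (aleph0_le_mk K) aleph0_ne_zero]
    obtain ⟨g⟩ := (Cardinal.le_def _ _).1 h2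
    exact ⟨g.trans (Function.Embedding.subtype _), fun x n p hp c k =>
      (g x).2 (mem_iUnion.2 ⟨n, mem_biUnion hp ⟨_, k, rfl⟩⟩)⟩
  filter_upwards [club_ne, club_names (R := Le) (le_tp (K := K)) fo, club_mem (fo (K := K)),
    st_FIN (J × ℚ), clo_pair J ℚ, clo_ctbl ℚ, clo_pair (Nm (Cn K)) (J → ℕ → ℕ → K),
    clo_pair (Nm (Cn K) × (J → ℕ → ℕ → K)) (Finset (J × ℚ)),
    sk2 fun (a : Set J) (β : Nm (Cn K)) (e : J → ℕ → ℕ → K) =>
      (∀ ξ ∈ a, ∀ n k m, ∀ p ∈ A β m, ∀ c, (e ξ n k, c) ∉ p) ∧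
        ∀ ξ ∈ a, ∀ ξ' ∈ a, ∀ n k n' k', e ξ n k = e ξ' n' k' → ξ = ξ' ∧ n = n' ∧ k = k',
    club_all fun n0 : ℕ => club_wit2 (fo (K := K))
      fun (z : (Nm (Cn K) × (J → ℕ → ℕ → K)) × Finset (J × ℚ)) s (n : ℕ) =>
        (n0 ≤ n ∧ (∃ t ∈ A z.1.1 n, Le s t) ∧
          ∀ y ∈ z.2, ∀ k ≤ n, (z.1.2 y.1 n k, decide (k = pat y.2 n)) ∈ s) ∨
        ∀ m ≥ n, ∀ t ∈ A z.1.1 m, ∀ r, Le r s → ¬ Le r t]
    with N ne nm cm cf cp cq cp1 cp2 sk w G hG a β ha hβ ⟨f⟩ hinf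
  obtain ⟨e, he, e1, e2⟩ := sk a β ha hβ (by
    obtain ⟨g, hg⟩ := hT β
    refine ⟨fun ξ n k => if h : ξ ∈ a then g (f ⟨ξ, h⟩, n, k) else Classical.arbitrary K,
      fun ξ h n k m p hp c => ?_, fun ξ h ξ' h' n k n' k' e => ?_⟩
    · simpa only [dif_pos h] using hg _ m p hp c
    · simp only [dif_pos h, dif_pos h'] at e
      simpa using g.injective e)
  refine ⟨e, he, fun s v hs n0 => ?_⟩
  have hn := (nm G hG).2.2.2.1
  obtain ⟨q, hq⟩ := ne G hG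
  obtain ⟨u, hu, n, -, ⟨h1, ⟨t, h2, h3⟩, h4⟩ | h1⟩ := w n0 G hG ((β, e), s.image fun ξ => (ξ, v ξ))
    ((cp2 _ _).2 ⟨(cp1 _ _).2 ⟨hβ, he⟩, (cf _).2 fun y hy => by
      obtain ⟨ξ, k, rfl⟩ := Finset.mem_image.1 hy
      exact (cp _ _).2 ⟨(hs ξ k).2, cq _⟩⟩) ⟨q, hq, fun r hr => by
      have a1 : {n | ∃ ξ ∈ a, ∃ k c, (e ξ n k, c) ∈ r}.Finite := by
        refine (r.finite_toSet.biUnion (t := fun z => {n | ∃ ξ ∈ a, ∃ k, e ξ n k = z.1})
          fun z _ => Set.Subsingleton.finite ?_).subset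
          fun n ⟨ξ, b1, k, c, b2⟩ => mem_biUnion b2 ⟨ξ, b1, k, rfl⟩
        rintro n ⟨ξ, b1, k, b2⟩ n' ⟨ξ', b3, k', b4⟩
        exact (e2 ξ b1 ξ' b3 n k n' k' (b2.trans b4.symm)).2.1
      obtain ⟨n1, a2⟩ := a1.bddAbove
      by_cases k : ∀ m ≥ max n0 (n1 + 1), ∀ t ∈ A β m, ∀ r', Le r' r → ¬ Le r' t
      · exact ⟨r, _, fo.l hr, Or.inr k⟩
      simp only [not_forall, not_not, exists_prop] at k
      obtain ⟨m, a3, t, a4, r', a5, a6⟩ := k
      let bits : Cn K := (s ×ˢ Finset.range (m + 1)).image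
        fun y => (e y.1 m y.2, decide (y.2 = pat (v y.1) m))
      have a7 : Cons bits := cons_iff.2 fun z hz hz' => by
        obtain ⟨y, b1, rfl⟩ := Finset.mem_image.1 hz
        obtain ⟨y', b2, b3⟩ := Finset.mem_image.1 hz'
        obtain ⟨b4, b5⟩ := Prod.mk.inj b3
        obtain ⟨b6, -, b7⟩ := e2 _ (hs _ (Finset.mem_product.1 b2).1).1 _
          (hs _ (Finset.mem_product.1 b1).1).1 _ _ _ _ b4
        rw [b6, b7] at b5
        exact (Bool.eq_not_self _).1 b5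
      have a8 : Cons (r ∪ t ∪ bits) := by
        refine cons_union a7 (a5.2.mono (Finset.union_subset a5.1 a6.1)) fun z hz hz' => ?_
        obtain ⟨y, b1, rfl⟩ := Finset.mem_image.1 hz
        have b2 := (hs _ (Finset.mem_product.1 b1).1).1
        rcases Finset.mem_union.1 hz' with b3 | b3
        · have := a2 ⟨_, b2, _, _, b3⟩
          have := (le_max_right _ _).trans a3
          omega
        · exact e1 _ b2 _ _ m t a4 _ b3
      refine ⟨r ∪ t ∪ bits, m, ⟨Finset.subset_union_left.trans Finset.subset_union_left, a8⟩,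
        Or.inl ⟨(le_max_left _ _).trans a3, ⟨t, a4,
          Finset.subset_union_right.trans Finset.subset_union_left, a8⟩, fun y hy k hk => ?_⟩⟩
      obtain ⟨ξ, b1, rfl⟩ := Finset.mem_image.1 hy
      exact Finset.mem_union_right _ (Finset.mem_image.2 ⟨(ξ, k),
        Finset.mem_product.2 ⟨b1, Finset.mem_range.2 (Nat.lt_succ_of_le hk)⟩, rfl⟩)⟩
  · refine ⟨n, h1, (hn n).2 ▸ (cm G hG _ _ (hn n).1 hβ).2 ⟨t, hG.f.1 u hu t h3, hA β n h2⟩,
      fun ξ hξ k hk => ?_⟩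
    have a1 := h4 _ (Finset.mem_image_of_mem _ hξ) k hk
    refine ⟨fun a2 => ?_, fun a2 => hG.f.1 u hu _ ⟨?_, h3.2⟩⟩
    · by_contra a3
      obtain ⟨r, -, a4, a5⟩ := hG.f.2 u hu _ a2
      rw [decide_eq_false a3] at a1
      exact a4.2 _ (a5.1 (Finset.mem_singleton_self _)) (a4.1 a1)
    · rw [decide_eq_true a2] at a1
      exact Finset.singleton_subset_iff.2 a1
  · obtain ⟨m, a1, a2⟩ := hinf n
    obtain ⟨p, a3, a4⟩ := (cm G hG _ _ (hn m).1 hβ).1 ((hn m).2.symm ▸ a2)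
    obtain ⟨r, -, a5, a6⟩ := hG.f.2 u hu p a3
    obtain ⟨t, a7, r', a8, a9⟩ := hA2 β m r (a4.le fo a6) a5.2
    exact (h1 m a1 t a7 r' (fo.tr a8 a5) a9).elim

end Pool.Agent.Lib.MP_d63cb0_gt.H63
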