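import Pool.Agent.Lib.MP_d63cb0_gt.H63.BlueM
import Pool.Agent.Lib.MP_d63cb0_gt.H63.B_FA
import Pool.Agent.Lib.MP_d63cb0_gt.H63.B_FC

/-! Blocks GOOD, A1, A2: types on small families in Cohen extensions. -/

namespace Pool.Agent.Lib.MP_d63cb0_gt.H63

open Pool.Agent.Lib.MP_fecf72_lc Pool.Agent.Lib.MP_d63cb0_gt.H15 Set Filter

namespace T87

section
variable {U : Type 1} {R : U → U → Prop} {tp : U} {α β : Type} [Cd α] [Cd β]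

/-- the codes are named -/
def Nd (R : U → U → Prop) (α : Type) [Cd α] : Prop := Tm R fun (a : α) _ _ => (cd a : V)

theorem Nd.prod (ht : ∀ p, R p p → R p tp) (hR : Fo R) (h : Nd R α) (k : Nd R β) : Nd R (α × β) :=
  Tm.pair ht hR (Tm.comap h Prod.fst) (Tm.comap k Prod.snd)

theorem Nd.mem [Countable α] (ht : ∀ p, R p p → R p tp) (hR : Fo R) (h : Nd R α) (s : Set α) :
    ∀ᶠ N in Club, ∀ G, GG N R G → cd s ∈ Mod N G := by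
  filter_upwards [(Tm.img ht hR (Θ := fun (s : Set α) (a : α) _ _ => a ∈ s)
    (s := fun _ a _ _ => (cd a : V)) (Fc.ground _) (Tm.comap h Prod.snd)).mod, clo0 s,
    clo_ctbl α] with N h1 h2 h3 G hG
  have := h1 G hG s h2
  simp only [h3, true_and] at this
  exact this

theorem fam_cd {N : Set Wd} {c : Nm U} {a : Set (Nm U)} {g : Nm U → α} {t : Nm U → V} {y : V}
    (h : ∀ w, w ∈ y ↔ ∃ σ, In N σ ∧ (∃ s, Ch c σ s) ∧ σ ∈ a ∧ w = t σ)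
    (k : ∀ σ, In N σ → cd (g σ) = t σ) : cd (g '' {σ | In N σ ∧ σ ∈ Lam c ∧ σ ∈ a}) = y :=
  ZFSet.ext fun w => mem_cd.trans (Iff.trans
    ⟨fun ⟨_, ⟨σ, ⟨a1, a2, a3⟩, e⟩, e'⟩ => ⟨σ, a1, a2, a3, by rw [← k σ a1, e, e']⟩,
      fun ⟨σ, a1, a2, a3, e⟩ => ⟨_, ⟨σ, ⟨a1, a2, a3⟩, rfl⟩, by rw [k σ a1, e]⟩⟩ (h w).symm)

theorem list_nm {N : Set Wd} {G : Set U} (v : List V) (h : ∀ p ∈ v, p ∈ Mod N G) :
    ∃ w : List (Nm U), (∀ τ ∈ w, In N τ) ∧ w.map (val N G) = v := by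
  induction v with
  | nil => exact ⟨[], by simp, rfl⟩
  | cons p v ih =>
    obtain ⟨w, h1, h2⟩ := ih fun q hq => h q (List.mem_cons_of_mem _ hq)
    obtain ⟨τ, h3, h4⟩ := h p List.mem_cons_self
    exact ⟨τ :: w, List.forall_mem_cons.2 ⟨h3, h1⟩, by rw [List.map_cons, h2, h4]⟩

end

theorem two_unb {B : Set ℕ} (h : ∀ m, ∃ n ≥ m, n ∈ B) :
    ∃ j, ∀ m, ∃ n ≥ m, n % 2 = j ∧ n ∈ B := by
  by_contra k
  push Not at k
  obtain ⟨a, ha⟩ := k 0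
  obtain ⟨b, hb⟩ := k 1
  obtain ⟨n, h1, h2⟩ := h (max a b)
  rcases Nat.mod_two_eq_zero_or_one n with e | e
  exacts [ha n (le_of_max_le_left h1) e h2, hb n (le_of_max_le_right h1) e h2]

end T87

open T87

theorem st_GOOD : St_GOOD := by
  intro K
  have n : Nd (Le (K := K)) ℕ := Tm.nat le_tp fo fun n => n
  have q : Nd (Le (K := K)) ℚ := Tm.nat le_tp fo Encodable.encode
  have q5 := q.prod le_tp fo (q.prod le_tp fo (q.prod le_tp fo (q.prod le_tp fo q)))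
  filter_upwards [club_zfc le_tp fo, st_TUK _ _ _ le_tp fo, n.mem le_tp fo univ,
    q.mem le_tp fo univ, (q.prod le_tp fo q).mem le_tp fo {z | z.1 < z.2},
    q5.mem le_tp fo (Box fun x y => x + y), q5.mem le_tp fo (Box fun x y => x * y),
    (n.prod le_tp fo q).mem le_tp fo {z | (z.1 : ℚ) = z.2},
    (n.prod le_tp fo (n.prod le_tp fo n)).mem le_tp fo {z | z.1.unpair = z.2},
    (n.prod le_tp fo n).mem le_tp fo {z | z.1 % 2 = z.2},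
    (n.prod le_tp fo q).mem le_tp fo {z | Denumerable.ofNat ℚ z.1 = z.2}]
    with N h0 h1 h2 h3 h4 h5 h6 h7 h8 h9 h10 G hG
  exact { h := h0 G hG, nat := h2 G hG, rat := h3 G hG, lt := h4 G hG, add := h5 G hG,
          mul := h6 G hG, cast := h7 G hG, unp := h8 G hG, par := h9 G hG, sur := h10 G hG,
          tuk := h1 G hG }

theorem st_A1 (hK : St_KEY) (hU : St_U0) : St_A1 := by
  intro K hu
  have n : Nd (Le (K := K)) ℕ := Tm.nat le_tp fo fun n => n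
  obtain ⟨d, hd⟩ := st_FAM _ _ (fo (K := K)) (Nm (Cn K) × (Nm (Cn K) → Nm (Cn K)) ×
      Set (Nm (Cn K)) × (Nm (Cn K) → ℕ → ℕ → K)) (fun p => p.1) (fun p σ _ _ => σ ∈ p.2.2.1)
    (fun p σ N G => ZFSet.pair (val N G (p.2.1 σ))
      (cd {w : ℕ × ℕ | ({(p.2.2.2 σ w.1 w.2, true)} : Cn K) ∈ G})) (Fc.ground _)
    (Tm.pair le_tp fo (Tm.val _) ((Tm.img le_tp fo
      (Θ := fun (z : (Nm (Cn K) × (Nm (Cn K) → Nm (Cn K)) × Set (Nm (Cn K)) ×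
        (Nm (Cn K) → ℕ → ℕ → K)) × Nm (Cn K)) (w : ℕ × ℕ) _ G =>
        Hd G {({(z.1.2.2.2 z.2 w.1 w.2, true)} : Cn K)})
      (s := fun _ w _ _ => (cd w : V)) (Fc.hd _) (Tm.comap (n.prod le_tp fo n) Prod.snd)).congr
      ((clo_ctbl (ℕ × ℕ)).mono fun _ h _ _ _ _ => by
        simp only [h, true_and, Hd, mem_singleton_iff, exists_eq_right]; rfl)))
  filter_upwards [hd, st_GOOD K, st_S K (Nm (Cn K)) pat hu, clo1 d,
    clo4 fun (c : Nm (Cn K)) (F : Nm (Cn K) → Nm (Cn K)) (a : Set (Nm (Cn K)))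
      (e : Nm (Cn K) → ℕ → ℕ → K) => (c, F, a, e)] with N h1 h2 h3 h4 h5 G hG S c F f hC hL I hI a
      ha hb
  have := h2 G hG
  by_cases hP : PC S I
  · obtain ⟨Γ, h⟩ := hU _ S I hI hP
    exact ⟨Γ, h.mono (by rintro _ ⟨σ, k, rfl⟩; exact (hL.val σ k.1).1)⟩
  simp only [PC, not_forall, not_exists, not_and, not_le] at hP
  obtain ⟨h, hh, hP⟩ := hP
  obtain ⟨j, hj⟩ := two_unb (B := {n | ∃ x, (n : ℝ) ≤ h x ∧ h x ≤ n + 1}) fun m => by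
    obtain ⟨x, -, k⟩ := hP m _ hI.zero
    exact ⟨⌊h x⌋₊, Nat.le_floor k.le, x, Nat.floor_le ((Nat.cast_nonneg m).trans k.le),
      (Nat.lt_floor_add_one _).le⟩
  let B : Set ℕ := {n | n % 2 = j ∧ ∃ x, (n : ℝ) ≤ h x ∧ h x ≤ n + 1}
  have hB : cd B ∈ Mod N G := Df.set ((Df.eq Dm.id.par (Dm.const (sm_mem j))).and (Df.ex
    ((Df.le Dm.id.fst.natCast (Dm.capp hh.1 Dm.id.snd)).and (Df.le (Dm.capp hh.1 Dm.id.snd)
      (Dm.id.fst.natCast.add (Dm.const one_mem)))))) fun n _ => sm_mem n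
  obtain ⟨β, b1, b2⟩ := id hB
  have b3 : ∀ n, natC n ∈ val N G β ↔ n ∈ B := fun n => by rw [b2]; exact cd_mem_cd
  obtain ⟨e, e1, e2⟩ := h3 G hG a β ha b1 hb fun m =>
    let ⟨n, k1, k2⟩ := hj m; ⟨n, k1, (b3 n).2 k2⟩
  have hp := h5 c F a e hL.hc hL.hF ha e1
  let W : Nm (Cn K) → Set (ℕ × ℕ) := fun σ => {w | ({(e σ w.1 w.2, true)} : Cn K) ∈ G}
  let T : Set (ℕ × ℕ) → Set (Tu S) := fun s =>
    (fun w => (w.1, w.2, (-1 : ℚ), (0 : ℚ), h)) '' {w ∈ s | w.1 ∈ B ∧ w.2 ≤ w.1}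
  have hT : Dm (Mod N G) T := Dm.image (Dm.sep Dm.id
    ((Df.mem Dm.id.snd.fst (Dm.const hB)).and (Df.leN Dm.id.snd.snd Dm.id.snd.fst)))
    (Dm.id.snd.fst.prod (Dm.id.snd.snd.prod (Dm.const
      (cd_prod.2 ⟨sm_mem _, cd_prod.2 ⟨sm_mem _, hh.1⟩⟩))))
  have hW : cd ((fun σ => (f σ, W σ)) '' {σ | In N σ ∧ σ ∈ Lam c ∧ σ ∈ a}) ∈ Mod N G :=
    ⟨_, h4 _ hp, (fam_cd (h1 G hG _ hp) fun σ k => by rw [← (hL.val σ k).2]; rfl).symm⟩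
  refine hK _ S I h j _ _ f (fun σ => T (W σ)) hC hI ⟨hh, ?_, fun σ k => (hL.val σ k.1).1, ?_,
    fun σ _ m => ?_, fun s v hs m => ?_⟩
  · have := image_mem (Dm.id.fst.prod (hT.comp Dm.id.snd)) hW
    rwa [image_image] at this
  · rintro σ - _ ⟨w, k, rfl⟩
    exact ⟨k.2.1.1, neg_one_lt_zero, hh⟩
  · refine ((finite_le_nat m).image fun k => (m, k, (-1 : ℚ), (0 : ℚ), h)).subset ?_
    rintro _ ⟨⟨w, k, rfl⟩, rfl⟩
    exact ⟨w.2, k.2.2, rfl⟩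
  · obtain ⟨n, k1, k2, k3⟩ := e2 s v (fun σ k => ⟨(hs k).2.2, (hs k).1⟩) m
    have k4 := (b3 n).1 k2
    obtain ⟨k5, x, k6, k7⟩ := id k4
    refine ⟨n, k1, k5, x, k6, k7, fun σ hσ k8 => ⟨⟨_, ⟨(n, pat (v σ) n),
      ⟨(k3 σ hσ _ k8).2 rfl, k4, k8⟩, rfl⟩, rfl, rfl, ?_⟩, ?_⟩⟩
    · simpa using (Nat.cast_nonneg n).trans k6
    · rintro _ ⟨w, k, rfl⟩ rfl k9
      exact (k9 ((k3 σ hσ _ k.2.2).1 k.1)).elim

theorem st_A2 (hK : St_KEY) (hU : St_U0) (hT : St_TY) : St_A2 := by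
  intro K hu
  obtain ⟨n, hn⟩ := st_MP _ _ (fo (K := K)) (Nm (Cn K) × Nm (Cn K))
    (fun p y N G => y ∈ val N G p.1 ∧ (val N G p.2 ∈ val N G p.1 → y = val N G p.2))
    ((Tm.mem fo (Tm.val _) (Tm.val _)).and ((Tm.mem fo (Tm.val _) (Tm.val _)).imp ⟨fun z =>
      {p | FEq Le z.2 z.1.2 p}, by
        filter_upwards [club_eq fo, clo1 fun z : (Nm (Cn K) × Nm (Cn K)) × Nm (Cn K) => z.2,
          clo1 fun z : (Nm (Cn K) × Nm (Cn K)) × Nm (Cn K) => z.1.2] with N h1 h2 h3 G hG z hz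
        exact h1 G hG _ _ (h2 z hz) (h3 z hz)⟩))
  obtain ⟨d, hd⟩ := st_FAM _ _ (fo (K := K)) (Nm (Cn K) × (Nm (Cn K) → Nm (Cn K)) ×
      Set (Nm (Cn K))) (fun p => p.1) (fun p σ _ _ => σ ∈ p.2.2)
    (fun p σ N G => val N G (p.2.1 σ)) (Fc.ground _) (Tm.val _)
  obtain ⟨m, hm⟩ := (Tm.pair le_tp fo (Tm.val fun z : Nm (Cn K) × Nm (Cn K) => z.1)
    (Tm.val fun z => z.2)).nm
  obtain ⟨y, hy⟩ := st_MP _ _ (fo (K := K)) (Nm (Cn K) × Fm × List (Nm (Cn K)))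
    (fun p y N G => Sat (Mod N G) p.2.1 (ZFSet.pair y (val N G p.1) :: p.2.2.map (val N G)))
    (((st_SAT _ _ fo).comap fun z : (Nm (Cn K) × Fm × List (Nm (Cn K))) × Nm (Cn K) =>
      (z.1.2.1, m (z.2, z.1.1) :: z.1.2.2)).congr (by
      filter_upwards [hm, clo1 fun z : (Nm (Cn K) × Fm × List (Nm (Cn K))) × Nm (Cn K) =>
        (z.2, z.1.1), clo_sub (fun z : (Nm (Cn K) × Fm × List (Nm (Cn K))) × Nm (Cn K) =>
          {τ | τ ∈ z.1.2.2}) fun z => z.1.2.2.finite_toSet.countable] with N h1 h2 h3 G hG z hz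
      obtain ⟨k1, k2⟩ := h1 G hG _ (h2 z hz)
      rw [List.map_cons, k2]
      exact (and_iff_right fun τ k => (List.mem_cons.1 k).elim (fun e => e ▸ k1)
        (h3 z hz τ)).symm))
  filter_upwards [hn, hd, hy, st_GOOD K, st_A1 hK hU K hu, club_countable, club_list,
    clo_pair (Nm (Cn K)) (Nm (Cn K)), clo1 fun c σ => n (c, σ), clo1 n, clo1 d, clo1 y,
    clo3' fun (c : Nm (Cn K)) (F : Nm (Cn K) → Nm (Cn K)) (a : Set (Nm (Cn K))) => (c, F, a),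
    club_all fun φ : Fm => clo2 fun (c : Nm (Cn K)) (v : List (Nm (Cn K))) => (c, φ, v),
    club_all fun φ : Fm => clo3' fun (c : Nm (Cn K)) (F : Nm (Cn K) → Nm (Cn K))
      (v : List (Nm (Cn K))) (a : Set (Nm (Cn K))) => y (d (c, F, a), φ, v)]
    with N h1 h2 h3 h4 h5 hc cl cp c1 c2 c3 c4 c5 c6 c7 G hG S hC I hI
  have := h4 G hG
  obtain ⟨c, a1, a2⟩ := TS.C_mem (S := S)
  have a3 : ∀ σ, In N σ → val N G (n (c, σ)) ∈ val N G c ∧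
      (val N G σ ∈ val N G c → val N G (n (c, σ)) = val N G σ) := fun σ k =>
    h1 G hG (c, σ) ((cp _ _).2 ⟨a1, k⟩) (by
      by_cases e : val N G σ ∈ val N G c
      · exact ⟨_, ⟨σ, k, rfl⟩, e, fun _ => rfl⟩
      · exact ⟨_, (hI.sub hI.zero).1, a2 ▸ cd_mem_cd.2 (hI.sub hI.zero), fun e' => (e e').elim⟩)
  choose! f f1 f2 using fun σ (k : In N σ) => mem_cd.1 (a2 ▸ (a3 σ k).1)
  have hL : Lst N G S c (fun σ => n (c, σ)) f := ⟨a1, c1 c a1, fun σ k => ⟨f1 σ k, f2 σ k⟩,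
    fun g k => by
      have e : cd g ∈ val N G c := a2 ▸ cd_mem_cd.2 k
      obtain ⟨π, s, b1, -, b2, b3⟩ := (mem_val hc).1 e
      exact ⟨π, ⟨s, b1⟩, b2, Cd.inj ((f2 π b2).trans (((a3 π b2).2 (b3 ▸ e)).trans b3.symm))⟩⟩
  obtain ⟨φ, v, t1, t2⟩ := hT _ S I hI
  obtain ⟨w, w1, rfl⟩ := list_nm v t1
  have key : ∀ a : Set (Nm (Cn K)), In N a ∧ Nonempty (a ↪ K) → ∃ Γ,
      cd Γ = val N G (y (d (c, fun σ => n (c, σ), a), φ, w)) ∧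
        Typ S I (f '' {σ | In N σ ∧ σ ∈ Lam c ∧ σ ∈ a}) Γ := fun a ⟨ha, hb⟩ => by
    have p1 := c5 c _ a a1 hL.hF ha
    have p2 := c3 _ p1
    have p3 := c6 φ _ w p2 (cl w w1)
    have p4 := fam_cd (h2 G hG _ p1) fun σ k => f2 σ k
    obtain ⟨Γ, p5⟩ := h5 G hG S c _ f hC hL I hI a ha hb
    obtain ⟨Γ', D, p6, p7, p8⟩ := (t2 _ ⟨_, c4 _ p3, rfl⟩ _ ⟨_, p2, rfl⟩).1 (h3 G hG _ p3
      ⟨_, p5.mem, (t2 _ p5.mem _ ⟨_, p2, rfl⟩).2 ⟨Γ, _, rfl, p4, p5⟩⟩)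
    exact ⟨Γ', p6, Cd.inj (p7.trans p4.symm) ▸ p8⟩
  choose! Γ g1 g2 using key
  exact ⟨c, _, f, hL, fun a => y (d (c, fun σ => n (c, σ), a), φ, w), Γ,
    c7 φ c _ w a1 hL.hF (cl w w1), fun a ha hb => ⟨g1 a ⟨ha, hb⟩, g2 a ⟨ha, hb⟩⟩⟩

end Pool.Agent.Lib.MP_d63cb0_gt.H63
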