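import Pool.Agent.Lib.MP_d63cb0_gt.H63.BlueF

/-! Antichains of finite consistent sets of bits are countable. -/

namespace Pool.Agent.Lib.MP_d63cb0_gt.H63

open Set
open scoped Classical

universe u

namespace T39

variable {α : Type u}

/-- consistent sets of bits, in any universe -/
def Con (p : Finset (α × Bool)) : Prop := ∀ ξ, (ξ, true) ∈ p → (ξ, false) ∉ p

theorem Con.mono {p q : Finset (α × Bool)} (h : Con p) (k : q ⊆ p) : Con q :=
  fun ξ a b => h ξ (k a) (k b)

theorem con_iff {p : Finset (α × Bool)} : Con p ↔ ∀ ξ b, (ξ, b) ∈ p → (ξ, !b) ∉ p :=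
  ⟨fun h ξ b h1 h2 => by
    cases b
    · exact h ξ h2 h1
    · exact h ξ h1 h2, fun h ξ => h ξ true⟩

theorem con_union {p q : Finset (α × Bool)} (hp : Con p) (hq : Con q)
    (h : ∀ ξ b, (ξ, b) ∈ p → (ξ, !b) ∉ q) : Con (p ∪ q) := by
  intro ξ h1 h2
  rcases Finset.mem_union.1 h1 with h1 | h1 <;> rcases Finset.mem_union.1 h2 with h2 | h2
  exacts [hp ξ h1 h2, h ξ true h1 h2, h ξ false h2 h1, hq ξ h1 h2]

theorem ccc_card (n : ℕ) : ∀ A : Set (Finset (α × Bool)), (∀ s ∈ A, Con s ∧ s.card ≤ n) →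
    (∀ s ∈ A, ∀ t ∈ A, Con (s ∪ t) → s = t) → A.Finite := by
  induction n with
  | zero =>
    intro A h _
    refine (finite_singleton ∅).subset fun s hs => ?_
    exact Finset.card_eq_zero.1 (Nat.le_zero.1 (h s hs).2)
  | succ n ih =>
    intro A h hA
    rcases A.eq_empty_or_nonempty with rfl | ⟨s0, h0⟩
    · exact finite_empty
    have k : ∀ z : α × Bool, {s ∈ A | z ∈ s}.Finite := by
      intro z
      refine Finite.of_finite_image (f := fun s => s.erase z) (ih _ ?_ ?_) ?_
      · rintro _ ⟨s, hs, rfl⟩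
        refine ⟨(h s hs.1).1.mono (Finset.erase_subset _ _), ?_⟩
        have := (h s hs.1).2
        rw [Finset.card_erase_of_mem hs.2]
        omega
      · rintro _ ⟨s, hs, rfl⟩ _ ⟨t, ht, rfl⟩ hc
        rw [hA s hs.1 t ht.1 (con_union (h s hs.1).1 (h t ht.1).1 fun ξ b h1 h2 => ?_)]
        refine con_iff.1 hc ξ b (Finset.mem_union_left _ (Finset.mem_erase.2 ⟨fun e => ?_, h1⟩))
          (Finset.mem_union_right _ (Finset.mem_erase.2 ⟨fun e => ?_, h2⟩))
        · exact con_iff.1 (h t ht.1).1 ξ b (e ▸ ht.2) h2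
        · exact con_iff.1 (h s hs.1).1 ξ b h1 (e ▸ hs.2)
      · intro s hs t ht e
        rw [← Finset.insert_erase hs.2, ← Finset.insert_erase ht.2]
        exact congrArg _ e
    refine ((finite_singleton s0).union
      (s0.finite_toSet.biUnion fun z _ => k (z.1, !z.2))).subset fun s hs => ?_
    by_contra hc
    simp only [mem_union, mem_singleton_iff, mem_iUnion, not_or, not_exists] at hc
    exact hc.1 (hA s0 h0 s hs (con_union (h s0 h0).1 (h s hs).1
      fun ξ b h1 h2 => hc.2 (ξ, b) h1 ⟨hs, h2⟩)).symm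

/-- pairwise incompatible consistent sets are countably many -/
theorem ccc {A : Set (Finset (α × Bool))} (h : ∀ s ∈ A, Con s)
    (hA : ∀ s ∈ A, ∀ t ∈ A, Con (s ∪ t) → s = t) : A.Countable := by
  refine (countable_iUnion fun n => (ccc_card n {s ∈ A | s.card ≤ n}
    (fun s hs => ⟨h s hs.1, hs.2⟩) fun s hs t ht => hA s hs.1 t ht.1).countable).mono ?_
  exact fun s hs => mem_iUnion.2 ⟨s.card, hs, le_rfl⟩

end T39

/-- antichains of Cohen forcing, in the form of `exists_antichain`, are countable -/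
theorem ccc_Le {K : Type 1} {B : Set (Cn K)} (h : ∀ s ∈ B, Cons s)
    (hB : ∀ a ∈ B, ∀ b ∈ B, ∀ r, Le r a → Le r b → a = b) : B.Countable :=
  T39.ccc h fun s hs t ht hc =>
    hB s hs t ht (s ∪ t) ⟨Finset.subset_union_left, hc⟩ ⟨Finset.subset_union_right, hc⟩

end Pool.Agent.Lib.MP_d63cb0_gt.H63
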