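import Pool.Agent.Lib.MP_d63cb0_gt.H63.B_FA

/-! Blocks CST, GL, TL, W: the ultrapower of Cohen forcing. -/

namespace Pool.Agent.Lib.MP_d63cb0_gt.H63

open Pool.Agent.Lib.MP_fecf72_lc Pool.Agent.Lib.MP_d63cb0_gt.H15 Set Filter Cardinal

namespace T87

variable {K : Type 1} {P : Type 2}

theorem cons_iff {p : Cn K} : Cons p ↔ ∀ z ∈ p, (z.1, !z.2) ∉ p := by
  refine ⟨?_, fun h ξ h1 => h _ h1⟩
  rintro h ⟨ξ, _ | _⟩ h1 h2
  exacts [h ξ h2 h1, h ξ h1 h2]

open Classical in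
theorem cons_union {p q : Cn K} (hp : Cons p) (hq : Cons q) (h : ∀ z ∈ p, (z.1, !z.2) ∉ q) :
    Cons (q ∪ p) := by
  intro ξ h1 h2
  rcases Finset.mem_union.1 h1 with h1 | h1 <;> rcases Finset.mem_union.1 h2 with h2 | h2
  exacts [hq ξ h1 h2, h _ h2 h1, h _ h1 h2, hp ξ h1 h2]

/-- a condition above the ground part contradicts almost no `q a` -/
theorem ev_free (W : Ultrafilter P) {q : P → Cn K} {p : Cn K} (hp : Cons p) (h : cst W q ⊆ p) :
    ∀ᶠ a in W, ∀ z ∈ p, (z.1, !z.2) ∉ q a :=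
  (eventually_all_finset p).2 fun z hz =>
    Ultrafilter.eventually_not.2 fun k => cons_iff.1 hp z hz (h k)

theorem cst_fin (W : Ultrafilter P) [CountableInterFilter (W : Filter P)] (q : P → Cn K) :
    (cst W q).Finite := by
  obtain ⟨n, hn⟩ : ∃ n, ∀ᶠ a in W, (q a).card = n := by
    by_contra h
    obtain ⟨a, ha⟩ := (eventually_countable_forall.2 fun n : ℕ =>
      Ultrafilter.eventually_not.2 fun k => h ⟨n, k⟩).exists
    exact ha _ rfl
  by_contra h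
  obtain ⟨T, h1, h2⟩ := Set.Infinite.exists_subset_card_eq h (n + 1)
  obtain ⟨a, h3, h4⟩ := (hn.and ((eventually_all_finset T).2 fun z hz => h1 hz)).exists
  have := Finset.card_le_card (show T ⊆ q a from h4)
  omega

end T87

open T87

theorem st_CST : St_CST := by
  classical
  intro K P W q _ hq
  refine ⟨⟨(cst_fin W q).toFinset, ?_, Finite.coe_toFinset _⟩, fun p hp h =>
    ⟨fun a => q a ∪ p, ?_, fun z hz => Eventually.of_forall fun a => Finset.mem_union_right _ hz⟩⟩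
  · obtain ⟨a, h3, h4⟩ := (hq.and ((eventually_all_finset (cst_fin W q).toFinset).2
      fun z hz => (cst_fin W q).mem_toFinset.1 hz)).exists
    exact h3.mono h4
  · filter_upwards [hq, ev_free W hp h] with a h1 h2
    exact ⟨Finset.subset_union_left, cons_union hp h1 h2⟩

theorem st_GL : St_GL := by
  classical
  intro K P
  filter_upwards [club_ne, st_FIN (P → Cn K), clo_pair (Finset (P → Cn K)) (Set P),
    club_wit2 (fo (K := K)) fun (z : Finset (P → Cn K) × Set P) s (a : P) =>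
      a ∈ z.2 ∧ ∀ q ∈ z.1, q a ⊆ s] with N ne cf cp w G hG W Q B _ hQ hB _ hBW h1 h2
  obtain ⟨p, hp⟩ := ne G hG
  obtain ⟨p0, h3, -, h4⟩ := T87.fin fo hG.f Q 
    (m := fun q => {s : Cn K | cst (W : Filter P) q ⊆ s}) h2 hp
  obtain ⟨s, hs, a, ha, h5, h6⟩ := w G hG (Q, B) ((cp _ _).2 ⟨(cf Q).2 hQ, hB⟩) ⟨p0, h3,
    fun r hr => by
      obtain ⟨a, a1, ⟨u, a2, a3⟩, a4⟩ := (Eventually.and hBW (h1.and ((eventually_all_finset Q).2
        fun q hq => ev_free W hr.2 (q := q) (by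
          obtain ⟨s, b1, b2⟩ := h4 q hq
          exact b1.trans (Finset.coe_subset.2 (b2.1.trans hr.1)))))).exists
      refine ⟨Q.biUnion (fun q => q a) ∪ r, a, ⟨Finset.subset_union_right,
        cons_union hr.2 (a2.mono (Finset.biUnion_subset.2 a3)) fun z hz k => ?_⟩, a1,
        fun q hq => (Finset.subset_biUnion_of_mem (fun q => q a) hq).trans
          Finset.subset_union_left⟩
      obtain ⟨q, b1, b2⟩ := Finset.mem_biUnion.1 k
      exact a4 q b1 z hz b2⟩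
  exact ⟨a, h5, ha, fun q hq => hG.f.1 s hs _ ⟨h6 q hq, (hG.f.self fo hs).2⟩⟩

theorem st_TL : St_TL := by
  classical
  intro K P
  filter_upwards [club_ne, clo_pair (Ultrafilter P) (P → Set (Cn K)),
    clo_pair (Set P) (P → Cn K),
    club_wit2 (fo (K := K)) fun (z : Ultrafilter P × (P → Set (Cn K))) s
      (x : Set P × (P → Cn K)) => (x.1 ∈ z.1 ∧ ∀ a ∈ x.1, ∀ t ∈ z.2 a, ∀ r, Le r s → ¬ Le r t) ∨
        (cst z.1 x.2 ⊆ s ∧ ∀ᶠ a in z.1, ∃ t ∈ z.2 a, Le (x.2 a) t)]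
    with N ne cp cp' w G hG W b hW hb hc h
  obtain ⟨p, hp⟩ := ne G hG
  obtain ⟨s, hs, ⟨B, q⟩, hx, ⟨h1, h2⟩ | ⟨h1, h2⟩⟩ := w G hG (W, b) ((cp _ _).2 ⟨hW, hb⟩) ⟨p, hp,
    fun r hr => by
      by_cases k : ∀ᶠ a in W, ∀ t ∈ b a, ∀ r', Le r' r → ¬ Le r' t
      · exact ⟨r, (_, fun _ => r), fo.l hr, Or.inl ⟨k, fun a ha => ha⟩⟩
      · have k1 := Ultrafilter.eventually_not.2 k
        simp only [not_forall, not_not, exists_prop] at k1
        have k2 : ∀ᶠ a in W, ∃ r', Le r' r ∧ ∃ t ∈ b a, Le r' t :=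
          k1.mono fun a ⟨t, a1, r', a2, a3⟩ => ⟨r', a2, t, a1, a3⟩
        have : Nonempty (Cn K) := ⟨r⟩
        obtain ⟨q, hq⟩ := k2.choice
        obtain ⟨u, a1, a2⟩ := (st_CST K P W q hc (hq.mono fun a ha => ha.1.2)).1
        refine ⟨u, (∅, q), ⟨fun z hz => ?_, a1⟩, Or.inr ⟨a2.ge, hq.mono fun a ha => ha.2⟩⟩
        rw [← Finset.mem_coe, a2]
        exact hq.mono fun a ha => ha.1.1 hz⟩
  · obtain ⟨a, a1, -, t, a2, a3⟩ := h B h1 ((cp' _ _).1 hx).1
    obtain ⟨r, -, a4, a5⟩ := hG.f.2 s hs t a2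
    exact (h2 a a1 t a3 r a4 a5).elim
  · exact ⟨q, ((cp' _ _).1 hx).2, ⟨s, hs, h1⟩, h2⟩

theorem st_W : St_W := by
  intro κ K J Λ hκ hK _ _
  let L := Set (Shrink.{1} Λ)
  let F : Filter L := Filter.ofCardinalInter (c := Order.succ #K)
    {X | ∃ s : L, #s ≤ #K ∧ ∀ a : L, s ⊆ a → #a ≤ #K → a ∈ X}
    ((Cardinal.nat_lt_aleph0 2).trans_le ((aleph0_le_mk K).trans (Order.le_succ _)))
    (fun S hS h => by
      choose s hs hs' using fun X : S => h X.2
      refine ⟨⋃ X : S, s X, (mk_iUnion_le _).trans ?_, fun a ha hb X hX =>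
        hs' ⟨X, hX⟩ a ((subset_iUnion s ⟨X, hX⟩).trans ha) hb⟩
      refine (mul_le_mul' (Order.lt_succ_iff.1 hS) (ciSup_le' hs)).trans ?_
      rw [mul_eq_self (aleph0_le_mk K)])
    (fun X Y ⟨s, h1, h2⟩ h => ⟨s, h1, fun a k1 k2 => h (h2 a k1 k2)⟩)
  have hF : CardinalInterFilter F (Order.succ #K) := inferInstance
  obtain ⟨W, h1, h2⟩ := hκ L F ⟨fun h => by
    obtain ⟨s, a1, a2⟩ : (∅ : Set L) ∈ F := by rw [h]; exact mem_bot
    exact a2 s subset_rfl a1⟩ (CardinalInterFilter.of_cardinalInterFilter_of_le F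
      (hK.trans (Order.le_succ _)))
  let g : Shrink.{1} Λ → J := fun x => ((equivShrink Λ).symm x : J)
  have hg : Function.Injective g := Subtype.val_injective.comp (equivShrink Λ).symm.injective
  refine ⟨W.map fun a : L => g '' a, inferInstanceAs (CountableInterFilter (Filter.map _ _)),
    fun σ hσ => h1 ⟨{equivShrink Λ ⟨σ, hσ⟩}, ?_, fun a ha _ => ⟨_, ha rfl, by simp [g]⟩⟩,
    h1 ⟨∅, by simp, fun a _ ha => ?_⟩⟩
  · rw [mk_singleton]
    exact one_le_aleph0.trans (aleph0_le_mk K)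
  · obtain ⟨e⟩ := (Cardinal.le_def _ _).1 ha
    exact ⟨(Equiv.Set.image g a hg).symm.toEmbedding.trans e⟩

end Pool.Agent.Lib.MP_d63cb0_gt.H63
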