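import Pool.Agent.Lib.MP_d63cb0_gt.H63.B_LG1

/-! Block LG: coordinates of the ultrapower, and the statement `St_LG`. -/

namespace Pool.Agent.Lib.MP_d63cb0_gt.H63

open Set Cardinal Filter
open scoped Classical

namespace T39

/-- the coordinates of the ultrapower -/
def Th (K : Type 1) {P : Type 2} (W : Ultrafilter P) : Type 2 :=
  Quotient (germSetoid (W : Filter P) K)

variable {K : Type 1} {P : Type 2} {W : Ultrafilter P}

/-- the value of a bit of the ultrapower at a point -/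
noncomputable def pt (z : Th K W × Bool) (a : P) : K × Bool := (z.1.out a, z.2)

/-- the value of a condition of the ultrapower at a point -/
noncomputable def ev (s : Finset (Th K W × Bool)) (a : P) : Cn K := s.image fun z => pt z a

/-- the class of a map -/
def cl (W : Ultrafilter P) (f : P → K) : Th K W := Quotient.mk _ f

/-- the constant coordinates -/
def cs (W : Ultrafilter P) (ξ : K) : Th K W := cl W fun _ => ξ

theorem pt_mk (f : P → K) (b : Bool) : ∀ᶠ a in W, pt (cl W f, b) a = (f a, b) := by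
  have : ∀ᶠ a in W, (cl W f).out a = f a := Quotient.mk_out (s := germSetoid _ _) f
  exact this.mono fun a h => Prod.ext h rfl

theorem cs_inj : Function.Injective (cs W : K → Th K W) := fun _ _ e => by
  have : ∀ᶠ _ in (W : Filter P), _ = _ := Quotient.exact e
  exact this.exists.elim fun _ h => h

theorem out_inj {θ θ' : Th K W} (h : ∀ᶠ a in W, θ.out a = θ'.out a) : θ = θ' := by
  rw [← θ.out_eq, ← θ'.out_eq]
  exact Quotient.sound h

theorem mem_ev {s : Finset (Th K W × Bool)} {z : Th K W × Bool} :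
    z ∈ s ↔ ∀ᶠ a in W, pt z a ∈ ev s a := by
  refine ⟨fun h => Eventually.of_forall fun a => Finset.mem_image_of_mem _ h, fun h => ?_⟩
  obtain ⟨y, hy, e⟩ := (Ultrafilter.eventually_exists_mem_iff (f := W) s.finite_toSet
    (P := fun y a => pt y a = pt z a)).1 (h.mono fun a ha => by simpa [ev] using ha)
  have : y = z := Prod.ext (out_inj (e.mono fun a ha => congrArg Prod.fst ha))
    (e.exists.elim fun a ha => show (pt y a).2 = (pt z a).2 from congrArg Prod.snd ha)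
  exact this ▸ hy

theorem ev_mono {s s' : Finset (Th K W × Bool)} (h : s ⊆ s') (a : P) : ev s a ⊆ ev s' a :=
  Finset.image_subset_image h

theorem con_ev {s : Finset (Th K W × Bool)} : Con s ↔ ∀ᶠ a in W, Cons (ev s a) := by
  refine ⟨fun h => ?_, fun h θ h1 h2 => h.exists.elim fun a ha =>
    ha (θ.out a) (Finset.mem_image_of_mem _ h1) (Finset.mem_image_of_mem _ h2)⟩
  have k : ∀ᶠ a in W, ∀ y ∈ s, ∀ z ∈ s, y.1 ≠ z.1 → y.1.out a ≠ z.1.out a := by
    refine (eventually_all_finset s).2 fun y _ => (eventually_all_finset s).2 fun z _ => ?_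
    by_cases e : y.1 = z.1
    · exact Eventually.of_forall fun a c => (c e).elim
    · exact (Ultrafilter.eventually_not.2 fun c => e (out_inj c)).mono fun a c _ => c
  filter_upwards [k] with a ha ξ h1 h2
  obtain ⟨⟨θ, b⟩, hy, e1⟩ := Finset.mem_image.1 h1
  obtain ⟨⟨θ', b'⟩, hz, e2⟩ := Finset.mem_image.1 h2
  obtain rfl : b = true := congrArg Prod.snd e1
  obtain rfl : b' = false := congrArg Prod.snd e2
  by_cases e : θ = θ'
  · exact h θ hy (e ▸ hz)
  · exact ha _ hy _ hz e ((congrArg Prod.fst e1).trans (congrArg Prod.fst e2).symm)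

theorem ex_ev {s s' : Finset (Th K W × Bool)} (h : s ⊆ s') (h' : Con s') :
    Ex W (ev s) (ev s') := (con_ev.1 h').mono fun a c => ⟨ev_mono h a, c⟩

theorem co_card (n : ℕ) : ∀ r : P → Cn K, (∀ᶠ a in W, (r a).card = n) →
    ∃ s : Finset (Th K W × Bool), ∀ᶠ a in W, ev s a = r a := by
  induction n with
  | zero => exact fun r h => ⟨∅, h.mono fun a c => (Finset.card_eq_zero.1 c).symm⟩
  | succ n ih =>
    intro r h
    obtain ⟨a0, h0⟩ := h.exists
    obtain ⟨z0, -⟩ := (Finset.card_pos (s := r a0)).1 (by omega)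
    have h1 : ∀ a, ∃ z, (r a).card = n + 1 → z ∈ r a := fun a => by
      by_cases c : (r a).card = n + 1
      · exact ((Finset.card_pos (s := r a)).1 (by omega)).imp fun z hz _ => hz
      · exact ⟨z0, fun e => (c e).elim⟩
    choose z hz using h1
    obtain ⟨s, hs⟩ := ih (fun a => (r a).erase (z a)) (h.mono fun a c => by
      rw [Finset.card_erase_of_mem (hz a c), c]
      rfl)
    obtain ⟨b, hb⟩ : ∃ b, ∀ᶠ a in W, (z a).2 = b := by
      rcases W.em fun a => (z a).2 = true with c | c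
      · exact ⟨_, c⟩
      · exact ⟨false, c.mono fun a e => by simpa using e⟩
    refine ⟨insert (cl W fun a => (z a).1, b) s, ?_⟩
    filter_upwards [h, hs, hb, pt_mk (W := W) (fun a => (z a).1) b] with a c1 c2 c3 c4
    rw [ev, Finset.image_insert, c4, ← c3]
    exact (congrArg _ c2).trans (Finset.insert_erase (hz a c1))

theorem exists_co (hW : CountableInterFilter (W : Filter P)) (r : P → Cn K) :
    ∃ s : Finset (Th K W × Bool), ∀ᶠ a in W, ev s a = r a := by
  by_contra hc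
  have : ∀ᶠ a in W, ∀ n, ¬ (r a).card = n := eventually_countable_forall.2 fun n =>
    Ultrafilter.eventually_not.2 fun c => hc (co_card n r c)
  exact this.exists.elim fun a ha => ha _ rfl

theorem co_ex (hW : CountableInterFilter (W : Filter P)) {s0 : Finset (Th K W × Bool)}
    {r : P → Cn K} (h : Ex W (ev s0) r) :
    ∃ s, s0 ⊆ s ∧ Con s ∧ ∀ᶠ a in W, ev s a = r a := by
  obtain ⟨s, hs⟩ := exists_co hW r
  refine ⟨s, fun z hz => mem_ev.2 ?_, con_ev.2 ?_, hs⟩
  · filter_upwards [h, hs, mem_ev.1 hz] with a c1 c2 c3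
    exact c2 ▸ c1.1 c3
  · filter_upwards [h, hs] with a c1 c2
    exact c2 ▸ c1.2

/-- the ground part -/
noncomputable def cut (s : Finset (Th K W × Bool)) : Cn K :=
  s.preimage (Prod.map (cs W) id) (cs_inj.prodMap Function.injective_id).injOn

theorem mem_cut {s : Finset (Th K W × Bool)} {z : K × Bool} : z ∈ cut s ↔ (cs W z.1, z.2) ∈ s :=
  Finset.mem_preimage

theorem cst_ev {s : Finset (Th K W × Bool)} {r : P → Cn K} (h : ∀ᶠ a in W, ev s a = r a)
    {z : K × Bool} (hz : z ∈ cst W r) : (cs W z.1, z.2) ∈ s := by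
  refine mem_ev.2 ?_
  filter_upwards [h, hz, pt_mk (W := W) (fun _ => z.1) z.2] with a c1 c2 c3
  rw [cs, c3, c1]
  exact c2

theorem con_of_pair {α : Type 2} {U : Finset (α × Bool)}
    (h : ∀ y ∈ U, ∀ z ∈ U, ∃ V, Con V ∧ y ∈ V ∧ z ∈ V) : Con U := fun ξ h1 h2 =>
  let ⟨_, a, b, c⟩ := h _ h1 _ h2
  a ξ b c

end T39

open T39 in
theorem st_LG : St_LG := by
  intro K P J W Λ Lo Hi hW hK hK' hLo hHi hLH p hp
  have hK0 : #(range (cs W : K → Th K W)) = lift.{2} #K := by
    rw [← mk_range_eq_of_injective cs_inj, lift_id'.{1, 2}]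
  obtain ⟨s0, hs0⟩ := exists_co hW fun _ => p
  obtain ⟨r0, h1, h2, R, h3, h4⟩ := lg_abs (Λ := Λ) (K0 := range (cs W))
    (Lo := fun σ x s => Lo σ x (ev s)) (Hi := fun σ x s => Hi σ x (ev s))
    (fun σ x r s a b => hLo σ x _ _ (ex_ev a b)) (fun σ x r s a b => hHi σ x _ _ (ex_ev a b))
    (fun σ x y s => hLH σ x y _) (by rw [hK0]; simp)
    (by rw [hK0, ← lift_aleph0.{2, 1}, ← lift_power, hK'])
    (p := s0) (con_ev.2 (hs0.mono fun a c => c ▸ hp))
  refine ⟨ev r0, ?_, R, h3.1, fun σ hσ => ?_, h4.imp (fun h => ?_) ?_⟩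
  · filter_upwards [hs0, ex_ev h1 h2] with a c1 c2
    exact c1 ▸ c2
  · obtain ⟨τ, hτ, h⟩ := h3.2 σ hσ
    refine ⟨τ, hτ, fun q hq x y hxy => ?_⟩
    obtain ⟨s, a1, a2, a3⟩ := co_ex hW hq
    have e : Ex W q (ev s) := by
      filter_upwards [a3, con_ev.1 a2] with a c1 c2
      exact ⟨c1.ge, c2⟩
    exact ⟨fun c => (h s a1 a2 x y hxy).1 ⟨hLo _ _ _ _ e c.1, hHi _ _ _ _ e c.2⟩,
      fun c => (h s a1 a2 x y hxy).2 ⟨hLo _ _ _ _ e c.1, hHi _ _ _ _ e c.2⟩⟩
  · obtain ⟨g⟩ := (Cardinal.le_def _ _).1 h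
    exact ⟨g.trans (Equiv.ofInjective _ cs_inj).symm.toEmbedding⟩
  rintro ⟨ι, cod, h5, h6⟩
  have h7 : ∀ r : P → Cn K, ∃ s, r0 ⊆ s ∧ Con s ∧ (Ex W (ev r0) r → ∀ᶠ a in W, ev s a = r a) :=
    fun r => by
      by_cases c : Ex W (ev r0) r
      · exact (co_ex hW c).imp fun s h => ⟨h.1, h.2.1, fun _ => h.2.2⟩
      · exact ⟨r0, subset_rfl, h2, fun e => (c e).elim⟩
  choose co c1 c2 c3 using h7
  choose ρ a1 a2 F a3 a4 a5 using fun n r => h6 n (co r) (c1 r) (c2 r)
  refine ⟨⟨fun n r => cut (ρ n r), fun n r ξ k t => cut (F n r (cod n ξ, k) t).rt,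
    fun n r ξ k t ε => ev ((F n r (cod n ξ, k) t).c ε), fun n r ξ k t => (F n r (cod n ξ, k) t).ix,
    fun n r ξ k t => (F n r (cod n ξ, k) t).lo, fun n r ξ k t => (F n r (cod n ξ, k) t).hi⟩,
    fun n r hr => ⟨fun ξ b1 b2 => a2 n r _ (mem_cut.1 b1) (mem_cut.1 b2),
      fun z hz => mem_cut.2 (a1 n r (cst_ev (c3 r hr) hz)), fun ξ _ k q hq he => ?_⟩,
    fun n r _ ξ _ k t => ?_, fun s hs => ?_⟩
  · obtain ⟨t, ht⟩ := a4 n r (cod n ξ, k) (q.image fun z => cs W z.1)
    have b := (a3 n r (cod n ξ, k) t).2.2.2.2.2 true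
    refine ⟨t, q ∪ cut (F n r (cod n ξ, k) t).rt, con_union hq (fun η b1 b2 =>
      b.1.mono b.2.1 _ (mem_cut.1 b1) (mem_cut.1 b2)) fun η ε b1 b2 => ?_,
      Finset.subset_union_left, Finset.subset_union_right⟩
    exact con_iff.1 hq η ε b1 (he (mem_cut.2 (ht _ (mem_cut.1 b2)
      (Finset.mem_image_of_mem (fun z => cs W z.1) b1))))
  · have b := (a3 n r (cod n ξ, k) t).2
    exact ⟨b.1, b.2.1, b.2.2.1, b.2.2.2.1, fun ε z hz => mem_cut.2 ((b.2.2.2.2 ε).2.2 _
      (cst_ev (Eventually.of_forall fun _ => rfl) hz) ⟨_, rfl⟩)⟩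
  · have b : ∀ᶠ n in atTop, ∀ ξ ∈ s, ∀ ξ' ∈ s, ξ ≠ ξ' → cod n ξ ≠ cod n ξ' := by
      refine (eventually_all_finset s).2 fun ξ b1 => (eventually_all_finset s).2 fun ξ' b2 => ?_
      by_cases e : ξ = ξ'
      · exact Eventually.of_forall fun _ c => (c e).elim
      · exact (h5 ξ (hs b1) ξ' (hs b2) e).mono fun _ c _ => c
    obtain ⟨n0, hn⟩ := eventually_atTop.1 b
    refine ⟨n0, fun n h r hr t ε => ?_⟩
    let c : J × ℕ → Finset (Th K W × Bool) :=
      fun x => (F n r (cod n x.1, x.2) (t x.1 x.2)).c (ε x.1 x.2)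
    have d : ∀ x, Con (c x) ∧ ρ n r ⊆ c x := fun x =>
      ⟨((a3 n r _ _).2.2.2.2.2 _).1, (a3 n r _ _).1.trans ((a3 n r _ _).2.2.2.2.2 _).2.1⟩
    have hU : Con (ρ n r ∪ (s ×ˢ Finset.range (n + 1)).biUnion c) := by
      refine con_of_pair fun y hy z hz => ?_
      simp only [Finset.mem_union, Finset.mem_biUnion] at hy hz
      rcases hy with hy | ⟨x, hx, hy⟩ <;> rcases hz with hz | ⟨x', hx', hz⟩
      · exact ⟨_, a2 n r, hy, hz⟩
      · exact ⟨_, (d x').1, (d x').2 hy, hz⟩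
      · exact ⟨_, (d x).1, hy, (d x).2 hz⟩
      by_cases e : x = x'
      · exact ⟨_, (d x).1, hy, e ▸ hz⟩
      refine ⟨c x ∪ c x', a5 n r _ _ (fun e' => e (Prod.ext ?_ (Prod.ext_iff.1 e').2)) _ _ _ _,
        Finset.mem_union_left _ hy, Finset.mem_union_right _ hz⟩
      by_contra e2
      exact hn n h _ (Finset.mem_product.1 hx).1 _ (Finset.mem_product.1 hx').1 e2
        (congrArg Prod.fst e')
    filter_upwards [con_ev.1 hU, c3 r hr] with a b1 b2
    refine ⟨_, b1, b2 ▸ ev_mono ((a1 n r).trans Finset.subset_union_left) a, fun ξ b3 k b4 =>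
      ev_mono (Finset.Subset.trans ?_ Finset.subset_union_right) a⟩
    exact Finset.subset_biUnion_of_mem c
      (show (ξ, k) ∈ _ from Finset.mem_product.2 ⟨b3, Finset.mem_range.2 (Nat.lt_succ_of_le b4)⟩)

end Pool.Agent.Lib.MP_d63cb0_gt.H63
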