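import Pool.Agent.Lib.MP_d63cb0_gt.H63.B_CCC

/-! Block LG, first part: recursion, closure, separation, and roots with many pairs. -/

namespace Pool.Agent.Lib.MP_d63cb0_gt.H63.T39

open Set Cardinal
open scoped Classical

universe u

variable {α J : Type u}

theorem rec_pair {ι X : Type u} {ν : Cardinal.{u}} (hι : #ι ≤ ν) (P : ι → X → Prop)
    (rel : X → X → Prop) (h : ∀ (i : ι) (A : Set X), #A < ν → ∃ x, P i x ∧ ∀ y ∈ A, rel x y) :
    ∃ f : ι → X, (∀ i, P i (f i)) ∧ ∀ i j, i ≠ j → rel (f i) (f j) ∨ rel (f j) (f i) := by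
  obtain ⟨_, _, ho⟩ := exists_ord_eq_type_lt ι
  have h' : ∀ (i : ι) (A : Set X), ∃ x, #A < ν → P i x ∧ ∀ y ∈ A, rel x y := fun i A => by
    by_cases c : #A < ν
    · exact (h i A c).imp fun x hx _ => hx
    · obtain ⟨x, -⟩ := h i ∅ (by
        rw [mk_eq_zero]
        exact lt_of_le_of_lt zero_le ((mk_Iio_lt i ho).trans_le hι))
      exact ⟨x, fun e => (c e).elim⟩
  choose g hg using h'
  let f : ι → X := (wellFounded_lt (α := ι)).fix fun i F => g i (range fun j : Iio i => F j j.2)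
  have e : ∀ i, f i = g i (range fun j : Iio i => f j) := fun i => WellFounded.fix_eq _ _ i
  have k : ∀ i, P i (f i) ∧ ∀ j < i, rel (f i) (f j) := fun i => by
    have := hg i (range fun j : Iio i => f j)
      (mk_range_le.trans_lt ((mk_Iio_lt i ho).trans_le hι))
    rw [← e] at this
    exact ⟨this.1, fun j hj => this.2 _ ⟨⟨j, hj⟩, rfl⟩⟩
  refine ⟨f, fun i => (k i).1, fun i j hij => ?_⟩
  rcases lt_or_gt_of_ne hij with c | c
  exacts [Or.inr ((k j).2 i c), Or.inl ((k i).2 j c)]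

theorem exists_max {X : Type u} (rel : X → X → Prop) (hs : ∀ x y, rel x y → rel y x) (O : Set X) :
    ∃ A ⊆ O, (∀ a ∈ A, ∀ b ∈ A, rel a b → a = b) ∧ ∀ x ∈ O, rel x x → ∃ a ∈ A, rel x a := by
  obtain ⟨B, hB⟩ := zorn_subset {B | B ⊆ O ∧ ∀ a ∈ B, ∀ b ∈ B, rel a b → a = b} (by
    intro c hc hch
    refine ⟨⋃₀ c, ⟨sUnion_subset fun t ht => (hc ht).1, ?_⟩, fun s hs => subset_sUnion_of_mem hs⟩
    rintro a ⟨s, hs, ha⟩ b ⟨t, ht, hb⟩
    rcases hch.total hs ht with h | h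
    · exact (hc ht).2 a (h ha) b hb
    · exact (hc hs).2 a ha b (h hb))
  refine ⟨B, hB.prop.1, hB.prop.2, fun x hx hxx => ?_⟩
  by_contra hc
  have hm : insert x B ∈ {B | B ⊆ O ∧ ∀ a ∈ B, ∀ b ∈ B, rel a b → a = b} := by
    refine ⟨insert_subset hx hB.prop.1, ?_⟩
    rintro a (rfl | ha) b (rfl | hb) hab
    exacts [rfl, (hc ⟨b, hb, hab⟩).elim, (hc ⟨a, ha, hs _ _ hab⟩).elim, hB.prop.2 a ha b hb hab]
  exact hc ⟨x, hB.2 hm (subset_insert _ _) (mem_insert _ _), hxx⟩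

/-- the coordinates of a set of bits -/
def dom (s : Finset (α × Bool)) : Set α := Prod.fst '' (s : Set (α × Bool))

theorem mem_dom {s : Finset (α × Bool)} {z : α × Bool} (h : z ∈ s) : z.1 ∈ dom s := ⟨z, h, rfl⟩

theorem dom_lt (s : Finset (α × Bool)) : #(dom s) < ℵ₀ :=
  lt_aleph0_iff_set_finite.2 (s.finite_toSet.image _)

/-- the sets of bits over a set of coordinates -/
def Ov (S : Set α) : Set (Finset (α × Bool)) := {s | ∀ z ∈ s, z.1 ∈ S}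

theorem mk_Ov (S : Set α) : #(Ov S) ≤ max #S ℵ₀ := by
  have h1 : Ov S ⊆ range fun l : List (S × Bool) => (l.map fun z => (z.1.1, z.2)).toFinset := by
    intro s hs
    refine ⟨s.toList.attach.map fun z => (⟨z.1.1, hs _ (Finset.mem_toList.1 z.2)⟩, z.1.2), ?_⟩
    ext z
    simp
  refine (mk_le_mk_of_subset h1).trans (mk_range_le.trans ((mk_list_le_max _).trans ?_))
  refine max_le (le_max_right _ _) ?_
  rw [mk_prod, mk_bool, lift_uzero]
  refine (mul_le_max _ _).trans (max_le (max_le (le_max_left _ _) ?_) (le_max_right _ _))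
  rw [lift_two]
  exact (natCast_lt_aleph0 (n := 2)).le.trans (le_max_right _ _)

theorem closure {ν : Cardinal.{u}} (hν : ν.IsRegular) (h0 : ℵ₀ < ν)
    (f : Finset (α × Bool) → Set α) (hf : ∀ ρ, #(f ρ) < ν) (S0 : Set α) (hS : #S0 < ν) :
    ∃ S, S0 ⊆ S ∧ #S < ν ∧ ∀ ρ ∈ Ov S, f ρ ⊆ S := by
  let T : ℕ → Set α := fun n => Nat.rec S0 (fun _ S => S ∪ ⋃ ρ ∈ Ov S, f ρ) n
  have e : ∀ n, T (n + 1) = T n ∪ ⋃ ρ ∈ Ov (T n), f ρ := fun _ => rfl
  have hm : Monotone T := monotone_nat_of_le_succ fun n => subset_union_left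
  have hT : ∀ n, #↥(T n) < ν := by
    intro n
    induction n with
    | zero => exact hS
    | succ n ih =>
      rw [e]
      refine (mk_union_le _ _).trans_lt (add_lt_of_lt h0.le ih ?_)
      exact (card_biUnion_lt_iff_forall_of_isRegular (t := fun ρ _ => f ρ) hν
        ((mk_Ov _).trans_lt (max_lt ih h0))).2 fun ρ _ => hf ρ
  refine ⟨⋃ n : ULift.{u} ℕ, T n.down, subset_iUnion (fun n : ULift.{u} ℕ => T n.down) ⟨0⟩,
    (card_iUnion_lt_iff_forall_of_isRegular hν (by simpa using h0)).2 fun n => hT _,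
    fun ρ hρ => ?_⟩
  choose! n hn using fun z hz => mem_iUnion.1 (hρ z hz)
  have : ρ ∈ Ov (T (ρ.sup fun z => (n z).down)) :=
    fun z hz => hm (Finset.le_sup (f := fun z => (n z).down) hz) (hn z hz)
  refine subset_trans ?_
    (subset_iUnion (fun n : ULift.{u} ℕ => T n.down) ⟨(ρ.sup fun z => (n z).down) + 1⟩)
  exact (subset_biUnion_of_mem (u := f) this).trans subset_union_right

/-- restriction to a set of coordinates -/
noncomputable def res (S : Set α) (s : Finset (α × Bool)) : Finset (α × Bool) :=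
  s.filter fun z => z.1 ∈ S

theorem mem_res {S : Set α} {s : Finset (α × Bool)} {z : α × Bool} :
    z ∈ res S s ↔ z ∈ s ∧ z.1 ∈ S := Finset.mem_filter

/-- a root with a pair of extensions -/
structure Pd (α J : Type u) : Type u where
  rt : Finset (α × Bool)
  ix : J
  lo : ℚ
  hi : ℚ
  c : Bool → Finset (α × Bool)

variable (Λ : Set J) (Lo Hi : J → ℚ → Finset (α × Bool) → Prop)

/-- `R` represents all members of `Λ` below `r` -/
def Rep (r : Finset (α × Bool)) (R : Set J) : Prop :=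
  R ⊆ Λ ∧ ∀ σ ∈ Λ, ∃ τ ∈ R, ∀ s, r ⊆ s → Con s → ∀ x y : ℚ, x < y →
    ¬ (Lo σ x s ∧ Hi τ y s) ∧ ¬ (Lo τ x s ∧ Hi σ y s)

/-- the pair separates and its new coordinates avoid `Y` -/
def Pr (q : Pd α J) (Y : Set α) : Prop :=
  q.ix ∈ Λ ∧ q.lo < q.hi ∧ Lo q.ix q.lo (q.c false) ∧ Hi q.ix q.hi (q.c true) ∧
    ∀ ε, Con (q.c ε) ∧ q.rt ⊆ q.c ε ∧ ∀ z ∈ q.c ε, z.1 ∈ Y → z ∈ q.rt

/-- pairs over `ρ` avoid every small set -/
def Av (ρ : Finset (α × Bool)) (ν : Cardinal.{u}) : Prop :=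
  ∀ Y : Set α, #Y < ν → ∃ q : Pd α J, q.rt = ρ ∧ Pr Λ Lo Hi q Y

variable {Λ Lo Hi}

theorem Pr.mono {q : Pd α J} {Y Y' : Set α} (h : Pr Λ Lo Hi q Y) (k : Y' ⊆ Y) : Pr Λ Lo Hi q Y' :=
  ⟨h.1, h.2.1, h.2.2.1, h.2.2.2.1, fun ε =>
    ⟨(h.2.2.2.2 ε).1, (h.2.2.2.2 ε).2.1, fun z hz e => (h.2.2.2.2 ε).2.2 z hz (k e)⟩⟩

theorem sep {w : Cardinal.{u}} {r : Finset (α × Bool)} (hw : ∀ R, Rep Λ Lo Hi r R → w ≤ #R)
    (S : Set α) (hS : max #S ℵ₀ ^ ℵ₀ < w) :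
    ∃ σ ∈ Λ, ∃ (x y : ℚ) (s s' : Finset (α × Bool)), x < y ∧ r ⊆ s ∧ Con s ∧ r ⊆ s' ∧ Con s' ∧
      Lo σ x s ∧ Hi σ y s' ∧ Con (res S s ∪ res S s') := by
  by_contra hc
  choose A hA1 hA2 hA3 using fun (σ : J) (y : ℚ) =>
    exists_max (fun s t : Finset (α × Bool) => Con (s ∪ t))
      (fun s t h => by rwa [Finset.union_comm]) (res S '' {s | r ⊆ s ∧ Con s ∧ Hi σ y s})
  have key : ∀ σ ∈ Λ, ∀ τ, A σ = A τ → ∀ s, r ⊆ s → Con s → ∀ x y : ℚ, x < y →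
      ¬ (Lo σ x s ∧ Hi τ y s) := by
    intro σ hσ τ e s h1 h2 x y hxy h3
    obtain ⟨a, ha, h4⟩ := hA3 τ y (res S s) ⟨s, ⟨h1, h2, h3.2⟩, rfl⟩ (by
      rw [Finset.union_self]
      exact h2.mono (Finset.filter_subset _ _))
    rw [← e] at ha
    obtain ⟨s', h5, rfl⟩ := hA1 σ y ha
    exact hc ⟨σ, hσ, x, y, s, s', hxy, h1, h2, h5.1, h5.2.1, h3.1, h5.2.2, h4⟩
  let cd : Λ → ℚ → {t : Set (Finset (α × Bool)) // t ⊆ Ov S ∧ #t ≤ ℵ₀} := fun σ y =>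
    ⟨A σ y, fun a ha => by
      obtain ⟨s, -, rfl⟩ := hA1 σ y ha
      exact fun z hz => (mem_res.1 hz).2, le_aleph0_iff_set_countable.2 (ccc (fun a ha => by
        obtain ⟨s, h, rfl⟩ := hA1 σ y ha
        exact h.2.1.mono (Finset.filter_subset _ _)) (hA2 σ y))⟩
  have h1 := hw (range fun c : range cd => (c.2.choose : J)) ⟨?_, fun σ hσ => ?_⟩
  · refine (hS.trans_le (h1.trans (mk_range_le.trans ((mk_set_le _).trans ?_)))).false
    rw [mk_arrow, Cardinal.mkRat, lift_aleph0, lift_uzero]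
    refine (power_le_power_right (mk_bounded_subset_le _ _)).trans ?_
    rw [← power_mul, aleph0_mul_aleph0]
    exact power_le_power_right (max_le (mk_Ov S) (le_max_right _ _))
  · rintro _ ⟨c, rfl⟩
    exact c.2.choose.2
  · have hm : cd ⟨σ, hσ⟩ ∈ range cd := ⟨_, rfl⟩
    have e : A (hm.choose : J) = A σ :=
      funext fun y => congrArg Subtype.val (congrFun hm.choose_spec y)
    exact ⟨_, ⟨⟨_, hm⟩, rfl⟩, fun s h1 h2 x y hxy =>
      ⟨key σ hσ _ e.symm s h1 h2 x y hxy, key _ hm.choose.2 σ e s h1 h2 x y hxy⟩⟩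

theorem exists_av (hLo : ∀ σ x r s, r ⊆ s → Con s → Lo σ x r → Lo σ x s)
    (hHi : ∀ σ x r s, r ⊆ s → Con s → Hi σ x r → Hi σ x s) {w ν : Cardinal.{u}}
    {r : Finset (α × Bool)} (hw : ∀ R, Rep Λ Lo Hi r R → w ≤ #R) (hν : ν.IsRegular)
    (h0 : ℵ₀ < ν) (h1 : ∀ t < ν, t ^ ℵ₀ < w) : ∃ ρ, r ⊆ ρ ∧ Con ρ ∧ Av Λ Lo Hi ρ ν := by
  by_contra hc
  have h2 : ∀ ρ, ∃ Y : Set α, #Y < ν ∧ (r ⊆ ρ → Con ρ → ∀ q : Pd α J, q.rt = ρ →
      ¬ Pr Λ Lo Hi q Y) := fun ρ => by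
    by_cases c : r ⊆ ρ ∧ Con ρ
    · by_contra hd
      refine hc ⟨ρ, c.1, c.2, fun Y hY => ?_⟩
      by_contra he
      exact hd ⟨Y, hY, fun _ _ q a b => he ⟨q, a, b⟩⟩
    · exact ⟨∅, by simpa using hν.pos, fun a b => (c ⟨a, b⟩).elim⟩
  choose Y hY hY' using h2
  obtain ⟨S, hS1, hS2, hS3⟩ := closure hν h0 Y hY (dom r) ((dom_lt r).trans h0)
  obtain ⟨σ, hσ, x, y, s, s', hxy, a1, a2, a3, a4, a5, a6, a7⟩ :=
    sep hw S (h1 _ (max_lt hS2 h0))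
  have hO : res S s ∪ res S s' ∈ Ov S := fun z hz =>
    (Finset.mem_union.1 hz).elim (fun h => (mem_res.1 h).2) fun h => (mem_res.1 h).2
  have k : ∀ t, Con t → res S t ⊆ res S s ∪ res S s' → Con (t ∪ (res S s ∪ res S s')) ∧
      res S s ∪ res S s' ⊆ t ∪ (res S s ∪ res S s') ∧ ∀ z ∈ t ∪ (res S s ∪ res S s'),
        z.1 ∈ Y (res S s ∪ res S s') → z ∈ res S s ∪ res S s' := fun t ht h =>
    ⟨con_union ht a7 fun ξ b b1 b2 => con_iff.1 a7 ξ b (h (mem_res.2 ⟨b1, hO (ξ, !b) b2⟩)) b2,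
      Finset.subset_union_right, fun z hz e =>
        (Finset.mem_union.1 hz).elim (fun b => h (mem_res.2 ⟨b, hS3 _ hO e⟩)) id⟩
  have k0 := k s a2 Finset.subset_union_left
  have k1 := k s' a4 Finset.subset_union_right
  refine hY' _ (fun z hz => Finset.mem_union_left _ (mem_res.2 ⟨a1 hz, hS1 (mem_dom hz)⟩)) a7
    ⟨res S s ∪ res S s', σ, x, y, fun ε => cond ε s' s ∪ (res S s ∪ res S s')⟩ rfl
    ⟨hσ, hxy, hLo _ _ _ _ Finset.subset_union_left k0.1 a5,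
      hHi _ _ _ _ Finset.subset_union_left k1.1 a6, fun ε => ?_⟩
  cases ε
  exacts [k0, k1]

end Pool.Agent.Lib.MP_d63cb0_gt.H63.T39
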