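import Pool.Agent.Lib.MP_d63cb0_gt.H63.B_LG0

/-! Block LG, second part: independent families below a condition of least weight. -/

namespace Pool.Agent.Lib.MP_d63cb0_gt.H63.T39

open Set Cardinal Filter Order
open scoped Classical

universe u

variable {α J : Type u} (Λ : Set J) (Lo Hi : J → ℚ → Finset (α × Bool) → Prop)

/-- an independent family of sequences of pairs below `r`, indexed by `ι` -/
def Fam (K0 : Set α) (r : Finset (α × Bool)) (ι : Type u) : Prop :=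
  ∃ ρ, r ⊆ ρ ∧ Con ρ ∧ ∃ F : ι → ℕ → Pd α J,
    (∀ i t, ρ ⊆ (F i t).rt ∧ Pr Λ Lo Hi (F i t) K0) ∧
    (∀ (i : ι) (Z : Finset α), ∃ t, ∀ z ∈ (F i t).rt, z.1 ∈ Z → z ∈ ρ) ∧
    ∀ i j, i ≠ j → ∀ t t' ε ε', Con ((F i t).c ε ∪ (F j t').c ε')

variable {Λ Lo Hi} {K0 : Set α} {r ρ : Finset (α × Bool)}

theorem small_union {X β : Type u} {ν : Cardinal.{u}} (h0 : ℵ₀ < ν) {A : Set X} (hA : #A < ν)
    (g : X → Set β) (hg : ∀ x, (g x).Countable) : #(⋃ x ∈ A, g x) < ν :=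
  (mk_biUnion_le g A).trans_lt (mul_lt_of_lt h0.le hA
    ((ciSup_le' fun _ => le_aleph0_iff_set_countable.2 (hg _)).trans_lt h0))

theorem dom_ctb (s : Finset (α × Bool)) : (dom s).Countable := (s.finite_toSet.image _).countable

theorem fam_of {ν : Cardinal.{u}} (h0 : ℵ₀ < ν) (hK : #K0 < ν) (hr : r ⊆ ρ) (hρ : Con ρ)
    (f : Set (α × Bool)) (hf : ∀ ξ b, (ξ, b) ∈ f → (ξ, !b) ∉ f) (hf' : #f < ν)
    (h : ∀ Y : Set α, #Y < ν → ∃ T : ℕ → Pd α J,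
      (∀ t, ρ ⊆ (T t).rt ∧ ↑(T t).rt ⊆ f ∧ Pr Λ Lo Hi (T t) Y) ∧
      ∀ Z : Finset α, ∃ t, ∀ z ∈ (T t).rt, z.1 ∈ Z → z ∈ ρ)
    (ι : Type u) (hι : #ι ≤ ν) : Fam Λ Lo Hi K0 r ι := by
  have hD : #(K0 ∪ Prod.fst '' f : Set α) < ν :=
    (mk_union_le _ _).trans_lt (add_lt_of_lt h0.le hK (mk_image_le.trans_lt hf'))
  obtain ⟨F, h1, h2⟩ := rec_pair hι (fun _ (T : ℕ → Pd α J) =>
      (∀ t, ρ ⊆ (T t).rt ∧ ↑(T t).rt ⊆ f ∧ Pr Λ Lo Hi (T t) (K0 ∪ Prod.fst '' f)) ∧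
      ∀ Z : Finset α, ∃ t, ∀ z ∈ (T t).rt, z.1 ∈ Z → z ∈ ρ)
    (fun x y => ∀ t ε, ∀ z ∈ (x t).c ε, ∀ t' ε', z.1 ∈ dom ((y t').c ε') → z ∈ (x t).rt)
    (fun _ A hA => by
      obtain ⟨T, a, b⟩ := h ((K0 ∪ Prod.fst '' f) ∪ ⋃ y ∈ A, ⋃ t, ⋃ ε, dom ((y t).c ε))
        ((mk_union_le _ _).trans_lt (add_lt_of_lt h0.le hD (small_union h0 hA _ fun y =>
          countable_iUnion fun t => countable_iUnion fun ε => dom_ctb _)))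
      refine ⟨T, ⟨fun t => ⟨(a t).1, (a t).2.1, (a t).2.2.mono subset_union_left⟩, b⟩,
        fun y hy t ε z hz t' ε' e => (((a t).2.2.2.2.2.2 ε).2.2 z hz (Or.inr ?_))⟩
      exact mem_biUnion hy (mem_iUnion.2 ⟨t', mem_iUnion.2 ⟨ε', e⟩⟩))
  refine ⟨ρ, hr, hρ, F, fun i t => ⟨((h1 i).1 t).1, ((h1 i).1 t).2.2.mono subset_union_left⟩,
    fun i => (h1 i).2, ?_⟩
  have k : ∀ i j, (∀ t ε, ∀ z ∈ (F i t).c ε, ∀ t' ε', z.1 ∈ dom ((F j t').c ε') →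
      z ∈ (F i t).rt) → ∀ t t' ε ε', Con ((F i t).c ε ∪ (F j t').c ε') := by
    intro i j e t t' ε ε'
    have a := (h1 i).1 t
    have a' := (h1 j).1 t'
    refine con_union (a.2.2.2.2.2.2 ε).1 (a'.2.2.2.2.2.2 ε').1 fun ξ b b1 b2 => ?_
    have b3 := a.2.1 (e t ε _ b1 t' ε' ⟨_, b2, rfl⟩)
    exact hf ξ b b3 (a'.2.1 ((a'.2.2.2.2.2.2 ε').2.2 _ b2 (Or.inr ⟨_, b3, rfl⟩)))
  intro i j hij t t' ε ε'
  rcases h2 i j hij with e | e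
  · exact k i j e t t' ε ε'
  · rw [Finset.union_comm]
    exact k j i e t' t ε' ε

theorem fam_reg {ν : Cardinal.{u}} (h0 : ℵ₀ < ν) (hK : #K0 < ν)
    (h : ∃ ρ, r ⊆ ρ ∧ Con ρ ∧ Av Λ Lo Hi ρ ν) (ι : Type u) (hι : #ι ≤ ν) :
    Fam Λ Lo Hi K0 r ι := by
  obtain ⟨ρ, h1, h2, h3⟩ := h
  refine fam_of h0 hK h1 h2 ρ (con_iff.1 h2)
    ((lt_aleph0_iff_set_finite.2 ρ.finite_toSet).trans h0) (fun Y hY => ?_) ι hι
  obtain ⟨q, rfl, hq⟩ := h3 Y hY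
  exact ⟨fun _ => q, fun _ => ⟨subset_rfl, subset_rfl, hq⟩, fun _ => ⟨0, fun _ hz _ => hz⟩⟩

theorem exists_root {τ m : Cardinal.{u}} (hm : m.IsRegular) (h0 : ℵ₀ < m) (hτ : 0 < τ)
    (hb : ∀ (ι : Type u) (g : ι → Cardinal.{u}), #ι < m → (∀ i, g i < τ) → ⨆ i, g i < τ)
    (h : ∀ t < τ, ∃ ρ, r ⊆ ρ ∧ Con ρ ∧ Av Λ Lo Hi ρ (succ t)) :
    ∃ ρ', r ⊆ ρ' ∧ Con ρ' ∧ ∀ t < τ, ∀ Z : Set α, #Z < m →
      ∃ ρ, (ρ' ⊆ ρ ∧ Con ρ ∧ Av Λ Lo Hi ρ (succ t)) ∧ ∀ z ∈ ρ, z.1 ∈ Z → z ∈ ρ' := by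
  by_contra hc
  have h2 : ∀ ρ', ∃ t < τ, ∃ Z : Set α, #Z < m ∧ (r ⊆ ρ' → Con ρ' →
      ¬ ∃ ρ, (ρ' ⊆ ρ ∧ Con ρ ∧ Av Λ Lo Hi ρ (succ t)) ∧ ∀ z ∈ ρ, z.1 ∈ Z → z ∈ ρ') := fun ρ' => by
    by_cases c : r ⊆ ρ' ∧ Con ρ'
    · by_contra hd
      refine hc ⟨ρ', c.1, c.2, fun t ht Z hZ => ?_⟩
      by_contra he
      exact hd ⟨t, ht, Z, hZ, fun _ _ => he⟩
    · exact ⟨0, hτ, ∅, by simpa using hm.pos, fun a b => (c ⟨a, b⟩).elim⟩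
  choose t ht Z hZ hZ' using h2
  obtain ⟨S, hS1, hS2, hS3⟩ := closure hm h0 Z hZ (dom r) ((dom_lt r).trans h0)
  obtain ⟨ρ, a1, a2, a3⟩ := h _ (hb (Ov S) (fun x => t x)
    ((mk_Ov S).trans_lt (max_lt hS2 h0)) fun x => ht x)
  have hO : res S ρ ∈ Ov S := fun z hz => (mem_res.1 hz).2
  refine hZ' (res S ρ) (fun z hz => mem_res.2 ⟨a1 hz, hS1 (mem_dom hz)⟩)
    (a2.mono (Finset.filter_subset _ _)) ⟨ρ, ⟨Finset.filter_subset _ _, a2, fun Y hY => a3 Y ?_⟩,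
      fun z hz e => mem_res.2 ⟨hz, hS3 _ hO e⟩⟩
  exact hY.trans_le (succ_le_succ
    (le_ciSup (f := fun x : Ov S => t x) bddAbove_of_small ⟨_, hO⟩))

theorem fam_sing {τ m : Cardinal.{u}} (hm : m.IsRegular) (h0 : ℵ₀ < m) (hτ : m < τ)
    (hb : ∀ (ι : Type u) (g : ι → Cardinal.{u}), #ι < m → (∀ i, g i < τ) → ⨆ i, g i < τ)
    {I : Type u} (hI : #I ≤ m) (g : I → Cardinal.{u}) (hg : ∀ i, g i < τ)
    (hg' : ∀ s < τ, ∃ i, s ≤ g i) (hK : #K0 < τ)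
    (h : ∀ t < τ, ∃ ρ, r ⊆ ρ ∧ Con ρ ∧ Av Λ Lo Hi ρ (succ t)) (ι : Type u) (hι : #ι ≤ τ) :
    Fam Λ Lo Hi K0 r ι := by
  obtain ⟨ρ', h1, h2, h3⟩ := exists_root hm h0 (hm.pos.trans hτ) hb h
  have hN : #(I × ℕ) ≤ m := by
    rw [mk_prod, mk_nat, lift_aleph0, lift_uzero]
    exact (mul_le_max _ _).trans (max_le (max_le hI h0.le) h0.le)
  obtain ⟨F, a1, a2⟩ := rec_pair hN
    (fun a ρ => ρ' ⊆ ρ ∧ Con ρ ∧ Av Λ Lo Hi ρ (succ (g a.1)))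
    (fun ρ σ => ∀ z ∈ ρ, z.1 ∈ dom σ → z ∈ ρ') (fun a A hA => by
      obtain ⟨ρ, b1, b2⟩ := h3 _ (hg a.1) _ (small_union h0 hA dom dom_ctb)
      exact ⟨ρ, b1, fun σ hσ z hz e => b2 z hz (mem_biUnion hσ e)⟩)
  refine fam_of (h0.trans hτ) hK h1 h2 (⋃ a, F a) (fun ξ b b1 b2 => ?_) ?_ (fun Y hY => ?_) ι hι
  · obtain ⟨a, ha⟩ := mem_iUnion.1 b1
    obtain ⟨a', ha'⟩ := mem_iUnion.1 b2
    by_cases e : a = a'
    · exact con_iff.1 (a1 a).2.1 ξ b ha (e ▸ ha')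
    · rcases a2 a a' e with c | c
      · exact con_iff.1 (a1 a').2.1 ξ b ((a1 a').1 (c _ ha ⟨_, ha', rfl⟩)) ha'
      · exact con_iff.1 (a1 a).2.1 ξ b ha ((a1 a).1 (c _ ha' ⟨_, ha, rfl⟩))
  · refine (mk_iUnion_le _).trans_lt (mul_lt_of_lt (h0.trans hτ).le (hN.trans_lt hτ) ?_)
    exact (ciSup_le' fun a => (lt_aleph0_iff_set_finite.2 (F a).finite_toSet).le).trans_lt
      (h0.trans hτ)
  · obtain ⟨i, hi⟩ := hg' _ hY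
    choose T hT hT' using fun t : ℕ => (a1 (i, t)).2.2 Y (lt_succ_of_le hi)
    refine ⟨T, fun t => ⟨hT t ▸ (a1 (i, t)).1,
      hT t ▸ subset_iUnion (fun a => (F a : Set (α × Bool))) (i, t), hT' t⟩, fun Z => ?_⟩
    by_contra hc
    push Not at hc
    choose z b1 b2 b3 using hc
    obtain ⟨t, t', c, e⟩ := Finite.exists_ne_map_eq_of_infinite fun t => (⟨(z t).1, b2 t⟩ : Z)
    have e' : (z t).1 = (z t').1 := congrArg Subtype.val e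
    have b4 := fun t => hT t ▸ b1 t
    rcases a2 (i, t) (i, t') (fun d => c (congrArg Prod.snd d)) with d | d
    · exact b3 t (d _ (b4 t) (e' ▸ mem_dom (b4 t')))
    · exact b3 t' (d _ (b4 t') (e' ▸ mem_dom (b4 t)))

theorem coding {T : Type u} {R : Set J} (hR : #R ≤ #T ^ ℵ₀) (B : ℕ → Set T)
    (hB : ∀ x, ∀ᶠ n in atTop, x ∈ B n) : ∃ cod : ∀ n, J → Fin n → Option (B n),
      ∀ ξ ∈ R, ∀ ξ' ∈ R, ξ ≠ ξ' → ∀ᶠ n in atTop, cod n ξ ≠ cod n ξ' := by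
  obtain ⟨g⟩ : Nonempty (R ↪ ℕ → T) := by
    rw [← Cardinal.le_def, mk_arrow, mk_nat, lift_aleph0, lift_uzero]
    exact hR
  refine ⟨fun n ξ i => if h : ∃ k : ξ ∈ R, g ⟨ξ, k⟩ i ∈ B n then some ⟨g ⟨ξ, h.1⟩ i, h.2⟩
    else none, fun ξ h ξ' h' e => ?_⟩
  obtain ⟨i, hi⟩ := Function.ne_iff.1 (g.injective.ne (Subtype.coe_ne_coe.1 e :
    (⟨ξ, h⟩ : R) ≠ ⟨ξ', h'⟩))
  filter_upwards [hB (g ⟨ξ, h⟩ i), hB (g ⟨ξ', h'⟩ i), eventually_gt_atTop i] with n a b c d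
  have := congrFun d ⟨i, c⟩
  simp only at this
  rw [dif_pos ⟨h, a⟩, dif_pos ⟨h', b⟩] at this
  exact hi (congrArg Subtype.val (Option.some.inj this))

theorem mk_code {X : Type u} {ν : Cardinal.{u}} (h0 : ℵ₀ ≤ ν) (h : #X ≤ ν) (n : ℕ) :
    #((Fin n → Option X) × ℕ) ≤ ν := by
  rw [mk_prod, mk_nat, lift_aleph0, lift_uzero, mk_arrow, mk_fin, lift_natCast, lift_uzero,
    mk_option]
  refine (mul_le_max _ _).trans (max_le (max_le ?_ h0) h0)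
  refine (power_le_power_right (b := ν) ?_).trans ?_
  · exact (add_le_add_left h 1).trans (add_one_eq h0).le
  · rw [power_natCast]
    exact power_nat_le h0

theorem lg_abs (hLo : ∀ σ x r s, r ⊆ s → Con s → Lo σ x r → Lo σ x s)
    (hHi : ∀ σ x r s, r ⊆ s → Con s → Hi σ x r → Hi σ x s)
    (hLH : ∀ σ x y s, x < y → Lo σ x s → ¬ Hi σ y s) (hK : ℵ₀ ≤ #K0) (hK' : #K0 ^ ℵ₀ = #K0)
    {p : Finset (α × Bool)} (hp : Con p) :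
    ∃ r0, p ⊆ r0 ∧ Con r0 ∧ ∃ R, Rep Λ Lo Hi r0 R ∧ (#R ≤ #K0 ∨
      ∃ (ι : ℕ → Type u) (cod : ∀ n, J → ι n),
        (∀ ξ ∈ R, ∀ ξ' ∈ R, ξ ≠ ξ' → ∀ᶠ n in atTop, cod n ξ ≠ cod n ξ') ∧
        ∀ n r, r0 ⊆ r → Con r → Fam Λ Lo Hi K0 r (ι n × ℕ)) := by
  obtain ⟨_, ⟨r0, R, h1, h2, h3, rfl⟩, h4⟩ := Cardinal.lt_wf.has_min
    {c | ∃ r R, p ⊆ r ∧ Con r ∧ Rep Λ Lo Hi r R ∧ #R = c}
    ⟨_, p, Λ, subset_rfl, hp, ⟨subset_rfl, fun σ hσ => ⟨σ, hσ, fun s _ _ x y e =>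
      ⟨fun a => hLH σ x y s e a.1 a.2, fun a => hLH σ x y s e a.1 a.2⟩⟩⟩, rfl⟩
  refine ⟨r0, h1, h2, R, h3, (le_or_gt #R #K0).imp_right fun hlt => ?_⟩
  have hw : ∀ r, r0 ⊆ r → Con r → ∀ R', Rep Λ Lo Hi r R' → #R ≤ #R' :=
    fun r a b R' c => not_lt.1 (h4 _ ⟨r, R', h1.trans a, b, c, rfl⟩)
  obtain ⟨τ, t1, t2⟩ := Cardinal.lt_wf.has_min {t | #R ≤ t ^ ℵ₀}
    ⟨#R, self_le_power #R one_le_aleph0⟩
  have t3 : ∀ t < τ, t ^ ℵ₀ < #R := fun t ht => not_le.1 fun e => t2 t e ht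
  have t4 : #K0 < τ := not_le.1 fun e =>
    (hlt.trans_le (le_trans t1 ((power_le_power_right e).trans hK'.le))).false
  have t5 : ℵ₀ < τ := hK.trans_lt t4
  have hav : ∀ r, r0 ⊆ r → Con r → ∀ t < τ, ∃ ρ, r ⊆ ρ ∧ Con ρ ∧ Av Λ Lo Hi ρ (succ t) := by
    intro r a b t ht
    have c : max t ℵ₀ ≤ max t ℵ₀ ^ ℵ₀ := self_le_power _ one_le_aleph0
    obtain ⟨ρ, d1, d2, d3⟩ := exists_av hLo hHi (hw r a b)
      (isRegular_succ ((le_max_right _ _).trans c)) (lt_succ_of_le ((le_max_right _ _).trans c))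
      fun s hs => lt_of_le_of_lt (by
        refine (power_le_power_right (le_of_lt_succ hs)).trans_eq ?_
        rw [← power_mul, aleph0_mul_aleph0]) (t3 _ (max_lt ht t5))
    exact ⟨ρ, d1, d2, fun Y hY => d3 Y (hY.trans_le (succ_le_succ ((le_max_left _ _).trans c)))⟩
  have hT : #τ.ord.ToType = τ := mk_ord_toType τ
  have main : (∀ r, r0 ⊆ r → Con r → ∀ ι : Type u, #ι ≤ τ → Fam Λ Lo Hi K0 r ι) →
      ∃ (ι : ℕ → Type u) (cod : ∀ n, J → ι n),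
        (∀ ξ ∈ R, ∀ ξ' ∈ R, ξ ≠ ξ' → ∀ᶠ n in atTop, cod n ξ ≠ cod n ξ') ∧
        ∀ n r, r0 ⊆ r → Con r → Fam Λ Lo Hi K0 r (ι n × ℕ) := fun H => by
    obtain ⟨cod, hc⟩ := coding (T := τ.ord.ToType) (R := R) (hT.symm ▸ t1) (fun _ => univ)
      fun _ => Eventually.of_forall fun _ => trivial
    exact ⟨_, cod, hc, fun n r a b => H r a b _ (mk_code t5.le (mk_univ.trans hT).le n)⟩
  rcases isRegular_or_isSingular t5.le with hr | hs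
  · exact main fun r a b => fam_reg t5 t4 (exists_av hLo hHi (hw r a b) hr t5 t3)
  obtain ⟨S, s1, s2⟩ := exists_cof_eq τ.ord.ToType
  rw [Ordinal.cof_toType] at s2
  have s3 : ∀ x : τ.ord.ToType, #(Iic x) < τ := fun x => by
    rw [← Iio_insert]
    exact mk_insert_le.trans_lt (add_lt_of_lt t5.le
      ((mk_Iio_lt x (by rw [hT, Ordinal.type_toType])).trans_eq hT) (one_lt_aleph0.trans t5))
  have hm := isRegular_cof (isSuccLimit_ord t5.le)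
  rcases hm.aleph0_le.eq_or_lt with e | e
  · have c1 : S.Countable := le_aleph0_iff_set_countable.1 (s2.trans e.symm).le
    obtain ⟨g, rfl⟩ := c1.exists_eq_range (nonempty_coe_sort.1
      (mk_ne_zero_iff.1 (s2.trans_ne hm.pos.ne')))
    obtain ⟨cod, hc⟩ := coding (T := τ.ord.ToType) (R := R) (hT.symm ▸ t1)
      (fun n => Iic (partialSups g n)) fun x => by
        obtain ⟨_, ⟨i, rfl⟩, hi⟩ := s1 x
        filter_upwards [eventually_ge_atTop i] with n hn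
        exact hi.trans (le_partialSups_of_le g hn)
    refine ⟨_, cod, hc, fun n r a b => fam_reg (lt_succ_of_le (hK.trans (le_max_right _ _)))
      (lt_succ_of_le (le_max_right _ _)) (hav r a b _ (max_lt (s3 (partialSups g n)) t4)) _
      ((mk_code (hK.trans (le_max_right _ _)) (le_max_left _ _) n).trans (le_succ _))⟩
  · refine main fun r a b => fam_sing hm e hs.cof_ord_lt
      (fun ι g c d => iSup_lt_of_lt_cof_ord c d) s2.le (fun x : S => #(Iic x.1))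
      (fun x => s3 x) (fun s hs' => ?_) t4 (hav r a b)
    by_contra hc
    push Not at hc
    have c1 : (univ : Set τ.ord.ToType) ⊆ ⋃ x : S, Iic x.1 := fun x _ => by
      obtain ⟨y, hy, e⟩ := s1 x
      exact mem_iUnion.2 ⟨⟨y, hy⟩, e⟩
    have c2 := (mk_le_mk_of_subset c1).trans (mk_iUnion_le _)
    rw [mk_univ, hT] at c2
    exact (c2.trans_lt (mul_lt_of_lt t5.le (s2.trans_lt hs.cof_ord_lt)
      ((ciSup_le' fun x => (hc x).le).trans_lt hs'))).false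

end Pool.Agent.Lib.MP_d63cb0_gt.H63.T39
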