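import Pool.Agent.Lib.MP_d63cb0_gt.H63.BlueM

/-! Types in the bounded case, the ideal of a cover, and the definability of types. -/

set_option linter.unusedSectionVars false

namespace Pool.Agent.Lib.MP_d63cb0_gt.H63

open Pool.Agent.Lib.MP_fecf72_lc Pool.Agent.Lib.MP_d63cb0_gt.H15 Set Filter

namespace T39M

variable {M : Set V} [Good M] {ι : Type} [Cd ι]

theorem cd_ins (a : ι) (s : Set ι) : (cd (insert a s) : V) = insert (cd a) (cd s) :=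
  ZFSet.ext fun _ => by simp [mem_cd, eq_comm]

theorem tuk [Sg M ι] {A : Set ι} (hA : cd A ∈ M) {P : Set ι → Prop} (hP : Df M P) (h0 : P ∅) :
    ∃ B ⊆ A, cd B ∈ M ∧ (∀ b ⊆ B, b.Finite → P b) ∧
      ∀ z ∈ A, (∀ b ⊆ B, b.Finite → P (insert z b)) → z ∈ B := by
  have e0 : (cd (∅ : Set ι) : V) = ∅ := ZFSet.ext fun _ => by simp [mem_cd]
  obtain ⟨B, b1, b2, b3, b4⟩ := Good.tuk _ hA _ (hP.sep (Sg.h (M := M) (ι := Set ι)))
    (e0 ▸ cd_mem_cd.2 ⟨show cd (∅ : Set ι) ∈ M from e0 ▸ empty_mem', h0⟩)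
  have e : ∀ b : V, b ⊆ B → (cd {a : ι | cd a ∈ b} : V) = b := fun b k =>
    cd_pre fun w hw => (mem_cd.1 (b2 (k hw))).imp fun _ => And.right
  refine ⟨{a | cd a ∈ B}, fun a k => cd_mem_cd.1 (b2 k), (e B subset_rfl).symm ▸ b1,
    fun b k k' => (cd_mem_cd.1 (b3 (cd b) ((k'.image cd).subset fun _ => mem_cd.1) fun w hw => ?_)).2,
    fun z hz k => b4 _ (cd_mem_cd.2 hz) fun b k1 k2 => ?_⟩
  · obtain ⟨a, k1, rfl⟩ := mem_cd.1 hw
    exact k k1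
  · have k3 : {a : ι | cd a ∈ b}.Finite := k1.preimage Cd.inj.injOn
    rw [← e b k2, ← cd_ins]
    refine cd_mem_cd.2 ⟨finite_mem (M := M) (k3.insert z) ?_, k _ (fun a c => k2 c) k3⟩
    rintro a (rfl | c)
    exacts [cd_of_mem hA hz, tr_mem b1 (k2 c)]

theorem mrg {s : Set ι} {u v : ℕ → ι} (hu : cd u ∈ M) (hv : cd v ∈ M) (h1 : ∀ n, u n ∈ s)
    (h2 : ∀ n, v n ∈ s) : ∃ w : ℕ → ι, cd w ∈ M ∧ (∀ n, w n ∈ s) ∧
      ∀ P : ι → Prop, (∀ n, P (w n)) → (∀ n, P (u n)) ∧ ∀ n, P (v n) :=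
  ⟨fun n => if n.unpair.1 = 0 then u n.unpair.2 else v n.unpair.2, lam_mem (Dm.ite
    (Df.eq Dm.id.unpair.fst (Dm.const (sm_mem _))) (Dm.capp hu Dm.id.unpair.snd)
    (Dm.capp hv Dm.id.unpair.snd)), fun n => by
      dsimp only
      split_ifs
      exacts [h1 _, h2 _], fun P k =>
    ⟨fun n => by simpa using k (Nat.pair 0 n), fun n => by simpa using k (Nat.pair 1 n)⟩⟩

variable {S : TS M} {I B : Set (S.X → ℝ)}

/-- `b` has common zeros with every sequence in `I` -/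
def Cz (I b : Set (S.X → ℝ)) : Prop :=
  ∀ u : ℕ → S.X → ℝ, cd u ∈ M → (∀ n, u n ∈ I) → ∃ x, (∀ n, u n x = 0) ∧ ∀ f ∈ b, f x = 0

theorem cip (hI : Idl S I) (hP : PC S I) (hB : B ⊆ S.C) (h : ∀ b ⊆ B, b.Finite → Cz I b)
    {u v : ℕ → S.X → ℝ} (hu : cd u ∈ M) (hv : cd v ∈ M) (h1 : ∀ n, u n ∈ I) (h2 : ∀ n, v n ∈ B) :
    ∃ x, (∀ n, u n x = 0) ∧ ∀ n, v n x = 0 := by
  by_contra k
  have p : ∀ x, 0 < (sp u + sp v) x := fun x => lt_of_le_of_ne (add_nonneg sp_nonneg sp_nonneg)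
    fun e => have := (add_eq_zero_iff_of_nonneg sp_nonneg sp_nonneg).1 e.symm
      k ⟨x, sp_zero.1 this.1, sp_zero.1 this.2⟩
  obtain ⟨m, t, a, b⟩ := hP _ (C_rn.inv _ (C_rn.add _ (TS.sp_C hu fun n => hI.sub (h1 n)) _
    (TS.sp_C hv fun n => hB (h2 n))) fun x => (p x).ne')
  obtain ⟨w, c, d, e⟩ := mrg hu (lam_mem (Dm.const (hI.sub a).1)) h1 fun _ => a
  obtain ⟨x, f, g⟩ := h (v '' Iio m) (image_subset_iff.2 fun n _ => h2 n)
    ((finite_Iio m).image v) w c d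
  obtain ⟨e1, e2⟩ := e (fun y => y x = 0) f
  have k1 : sp v x ≤ ((m : ℝ) + 1)⁻¹ := ciSup_le fun n => by
    rcases lt_or_ge n m with l | l
    · rw [g _ ⟨n, l, rfl⟩, abs_zero]
      exact (min_le_left _ _).trans (by positivity)
    · refine (min_le_right _ _).trans ?_
      gcongr
  have k2 := b x (e2 0)
  have k3 := p x
  simp only [Pi.inv_apply, Pi.add_apply, sp_zero.2 e1, zero_add] at k2 k3
  have := (le_inv_comm₀ k3 (by positivity)).1 k1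
  linarith

theorem dich (h : ∀ b ⊆ B, b.Finite → Cz I b)
    (hm : ∀ z ∈ S.C, (∀ b ⊆ B, b.Finite → Cz I (insert z b)) → z ∈ B) {f g : S.X → ℝ}
    (hf : f ∈ S.C) (hg : g ∈ S.C) (k : ∀ x, f x = 0 ∨ g x = 0) (k' : f ∉ B) : g ∈ B := by
  refine hm g hg fun b b1 b2 u u1 u2 => by_contra fun c => k' (hm f hf fun b' a1 a2 v v1 v2 => ?_)
  obtain ⟨w, w1, w2, w3⟩ := mrg u1 v1 u2 v2
  obtain ⟨x, x1, x2⟩ := h _ (union_subset b1 a1) (b2.union a2) w w1 w2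
  obtain ⟨e1, e2⟩ := w3 (fun y => y x = 0) x1
  exact ⟨x, e2, forall_mem_insert.2 ⟨(k x).resolve_right fun e => c ⟨x, e1,
    forall_mem_insert.2 ⟨e, fun y d => x2 y (Or.inl d)⟩⟩, fun y d => x2 y (Or.inr d)⟩⟩

open Classical in
theorem tot (hI : Idl S I) (hP : PC S I) (hB : B ⊆ S.C) (hM : cd B ∈ M)
    (h : ∀ b ⊆ B, b.Finite → Cz I b)
    (hm : ∀ z ∈ S.C, (∀ b ⊆ B, b.Finite → Cz I (insert z b)) → z ∈ B) {f : S.X → ℝ}
    (hf : f ∈ S.C) : ∃ x0, (fun x => f x - f x0) ∈ B := by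
  let p : ℕ → S.X → ℝ := fun n x => max (f x - Denumerable.ofNat ℚ n) 0
  let q : ℕ → S.X → ℝ := fun n x => max (Denumerable.ofNat ℚ n - f x) 0
  have p1 : Dm M p := Dm.lam (((Dm.capp hf.1 Dm.id.snd).sub Dm.id.fst.sur.ratCast).max
    (Dm.const zero_mem))
  have q1 : Dm M q := Dm.lam ((Dm.id.fst.sur.ratCast.sub (Dm.capp hf.1 Dm.id.snd)).max
    (Dm.const zero_mem))
  let v : ℕ → S.X → ℝ := fun n => if p n ∈ B then p n else q n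
  have v1 : cd v ∈ M := lam_mem (Dm.ite (Df.mem p1 (Dm.const hM)) p1 q1)
  have v2 : ∀ n, v n ∈ B := fun n => by
    simp only [v]
    split_ifs with k
    · exact k
    · refine dich h hm ⟨p1.maps (sm_mem n), (hf.2.sub continuous_const).max continuous_const⟩
        ⟨q1.maps (sm_mem n), (continuous_const.sub hf.2).max continuous_const⟩ (fun x => ?_) k
      exact (le_total (f x) (Denumerable.ofNat ℚ n)).imp (fun e => max_eq_right (sub_nonpos.2 e))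
        fun e => max_eq_right (sub_nonpos.2 e)
  have v3 : ∀ x y, (∀ n, v n x = 0) → (∀ n, v n y = 0) → f x ≤ f y := fun x y a b => by
    by_contra c
    obtain ⟨r, c1, c2⟩ := exists_rat_btwn (not_le.1 c)
    obtain ⟨n, rfl⟩ := sur_ex r
    have a1 := a n
    have b1 := b n
    simp only [v] at a1 b1
    split_ifs at a1 b1
    · exact (sub_pos.2 c2).not_ge ((le_max_left _ _).trans_eq a1)
    · exact (sub_pos.2 c1).not_ge ((le_max_left _ _).trans_eq b1)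
  obtain ⟨x0, -, k⟩ := cip hI hP hB h (lam_mem (Dm.const (hI.sub hI.zero).1)) v1
    (fun _ => hI.zero) v2
  refine ⟨x0, hm _ (C_rn.sub hf (C_rn.const _ (cd_app (M := M) hf.1 x0))) fun b b1 b2 u u1 u2 => ?_⟩
  obtain ⟨e, e1, e2, n, e3⟩ := fin_seq (M := M) (b2.insert (v 0)) (insert_nonempty _ _)
    fun a c => (hB (insert_subset (v2 0) b1 c)).1
  obtain ⟨w, w1, w2, w3⟩ := mrg v1 e1 v2 fun n => insert_subset (v2 0) b1 (e2 n)
  obtain ⟨x, x1, x2⟩ := cip hI hP hB h u1 w1 u2 w2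
  obtain ⟨x3, x4⟩ := w3 (fun y => y x = 0) x2
  exact ⟨x, x1, forall_mem_insert.2 ⟨sub_eq_zero.2 (le_antisymm (v3 _ _ x3 k) (v3 _ _ k x3)),
    fun y c => let ⟨i, _, d⟩ := e3 y (Or.inr c); d ▸ x4 i⟩⟩

theorem kill {h : (S.X → ℝ) → ℝ} (hh : Hm S.C {r | realC r ∈ M} h) {u : ℕ → S.X → ℝ}
    (hu : cd u ∈ M) (h1 : ∀ n, u n ∈ S.C) (h2 : ∀ n, h (u n) = 0) : ∃ x, ∀ n, u n x = 0 := by
  have k : ∀ k, h (pk u k) = 0 := fun k => by
    induction k with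
    | zero => exact hh.const 0 (zero_mem (M := M))
    | succ k ih =>
      obtain ⟨x, a, b, c⟩ := hh.ex3 C_rn (Gd.pk_C h1 (k + 1)) (Gd.pk_C h1 k) (h1 k)
      refine a.symm.trans (show max (pk u k x) (min |u k x| ((k : ℝ) + 1)⁻¹) = 0 from ?_)
      rw [b, c, ih, h2, abs_zero, min_eq_left (by positivity), max_self]
  obtain ⟨x, a⟩ := hh.ex0 C_rn (TS.sp_C hu h1) (abs_nonpos_iff.1 (le_of_forall_pos_le_add
    fun ε e => by
      obtain ⟨n, b⟩ := sp_pk (X := S.X) e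
      obtain ⟨x, c, d⟩ := hh.ex2 C_rn (TS.sp_C hu h1) (Gd.pk_C h1 n)
      have := b u x
      rw [c, d, k, sub_zero] at this
      linarith))
  exact ⟨x, sp_zero.1 a⟩

end T39M

open T39M

theorem st_U0 : St_U0 := by
  intro M _ S I hI hP
  have h1 := hI.mem
  obtain ⟨B, b1, b2, b3, b4⟩ := tuk (P := Cz I) TS.C_mem (by
    unfold Cz
    apply_rules (maxDepth := 400) (transparency := .reducible) [Df.allM, Df.imp, Df.and, Df.allS,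
      Df.ex, Df.all, Df.eq, Df.mem, Dm.id, Dm.fst, Dm.snd, Dm.const, Dm.app, zero_mem])
    fun u a b => let ⟨x, c⟩ := hI.cip u a b; ⟨x, c, fun _ => False.elim⟩
  have h2 : Dm M fun (z : (S.X → ℝ) × ℝ) x => z.1 x - z.2 :=
    Dm.lam ((Dm.id.fst.fst.app Dm.id.snd).sub Dm.id.fst.snd)
  refine ⟨{z ∈ {z | cd z ∈ M} | (fun x => z.1 x - z.2) ∈ B}, (Df.mem h2 (Dm.const b2)).sep Sg.h,
    fun f k => ?_, fun u p a b c d => ?_⟩
  · obtain ⟨x, e⟩ := tot hI hP b1 b2 b3 b4 k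
    exact ⟨f x, cd_prod (M := M).2 ⟨k.1, cd_app k.1 x⟩, e⟩
  · obtain ⟨x, e, k⟩ := cip hI hP b1 b3 (v := fun n x => (p n).1 x - (p n).2) a
      (lam_mem (h2.comp (Dm.capp b Dm.id))) c fun n => (d n).2
    exact ⟨x, e, fun n => sub_eq_zero.1 (k n)⟩

theorem st_END : St_END := by
  intro M _ S h
  simp only [UpsLind, not_forall, not_exists, not_and, exists_prop, not_not] at h
  obtain ⟨F, f1, f2, f3, f4⟩ := h
  rw [TS.C_eq] at f1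
  have f5 : cd (α := Set (S.X → ℝ)) F ∈ M := f2
  have z : (fun _ => 0) ∈ S.C := C_rn.zero
  have s : insert (fun _ => 0) F ⊆ S.C := insert_subset z f1
  refine ⟨insert (fun _ => 0) F, ⟨?_, s, mem_insert _ _, fun u a b => ?_⟩,
    fun I D Γ h1 hI hT hR => ?_⟩
  · exact inter_eq_right.2 s ▸ Df.sep (P := fun f : S.X → ℝ => f = (fun _ => 0) ∨ f ∈ F)
      ((Df.eq Dm.id (Dm.const z.1)).or (Df.mem Dm.id (Dm.const f5))) TS.C_mem
  · obtain ⟨h, ⟨c1, c2, c3⟩, c4⟩ := f4 {f ∈ F | ∃ n, u n = f} (sep_subset _ _)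
      (Df.sep (P := fun f : S.X → ℝ => ∃ n, u n = f)
        (Df.ex (Df.eq (Dm.capp a Dm.id.snd) Dm.id.fst)) f5) ⟨_, cd_seq u ▸ a, fun y k =>
        let ⟨_, ⟨_, n, c⟩, d⟩ := mem_img.1 k; ⟨n, c ▸ d⟩⟩
    rw [TS.C_eq] at c1 c2
    refine kill ⟨c2, c3, fun f k => (pair_mem.1 (tr_mem c1 (mem_img.2 ⟨f, k, rfl⟩))).2⟩ a
      (fun n => s (b n)) fun n => (b n).elim (fun e => e ▸ c3 0 zero_mem) fun e => c4 _ ⟨e, n, rfl⟩
  let R : (S.X → ℝ) → ℝ → Prop := fun f r =>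
    ∃ p ∈ Γ, p.2 = r ∧ ∃ u ∈ I, ∀ x, u x = 0 → f x = p.1 x
  have r1 : ∀ f ∈ S.C, ∃ r, R f r := fun f k =>
    let ⟨f', a, b⟩ := hR f k; let ⟨r, c⟩ := hT.tot f' a; ⟨r, _, c, rfl, b⟩
  choose! h r2 using r1
  have r3 : ∀ v ∈ I, ∀ f g k r t c, R f r → R g t → R k c →
      ∃ x, v x = 0 ∧ f x = r ∧ g x = t ∧ k x = c := by
    rintro v hv f g k _ _ _ ⟨p1, a1, rfl, u1, b1, c1⟩ ⟨p2, a2, rfl, u2, b2, c2⟩
      ⟨p3, a3, rfl, u3, b3, c3⟩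
    obtain ⟨x, d, e⟩ := hT.fin hI (U := {v, u1, u2, u3}) (F := {p1, p2, p3}) (toFinite _)
      (by simp [insert_subset_iff, *]) (toFinite _) (by simp [insert_subset_iff, *])
      (insert_nonempty _ _)
    simp only [forall_mem_insert, mem_singleton_iff, forall_eq] at d e
    exact ⟨x, d.1, (c1 x d.2.1).trans e.1, (c2 x d.2.2.1).trans e.2.1, (c3 x d.2.2.2).trans e.2.2⟩
  have g1 := hT.mem
  have g2 := hI.mem
  have g3 := TS.C_mem (S := S)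
  have r4 : cd {w : (S.X → ℝ) × ℝ | w.1 ∈ S.C ∧ R w.1 w.2} ∈ M := Df.set (by
    simp only [R]
    apply_rules (maxDepth := 400) (transparency := .reducible) [Df.and, Df.exS, Df.all, Df.imp,
      Df.eq, Df.mem, Dm.id, Dm.fst, Dm.snd, Dm.const, Dm.app, zero_mem])
    fun w ⟨a, p, b, c, _⟩ => cd_prod.2 ⟨a.1, c ▸ (cd_prod.1 (cd_of_mem g1 b)).2⟩
  refine (f3 h ⟨?_, ?_, fun r k => ?_⟩).elim fun f ⟨a, b⟩ => ?_
  rotate_right
  · obtain ⟨x, c, d, -⟩ := r3 f (h1 (Or.inr a)) f f f _ _ _ (r2 f (f1 a)) (r2 f (f1 a))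
      (r2 f (f1 a))
    exact b (d.symm.trans c)
  · rw [TS.C_eq]
    refine mem_of_eq_of_mem
      (ZFSet.ext fun y => Iff.symm (mem_cd.trans (Iff.trans ⟨?_, ?_⟩ mem_img.symm))) r4
    · rintro ⟨⟨f, r⟩, ⟨a, b⟩, rfl⟩
      obtain ⟨x, -, c, d, -⟩ := r3 _ hI.zero f f f _ _ _ b (r2 f a) b
      exact ⟨f, a, by rw [← d, c]; rfl⟩
    · rintro ⟨f, a, rfl⟩
      exact ⟨(f, h f), ⟨a, r2 f a⟩, rfl⟩
  · rw [TS.C_eq]
    intro f a g b
    obtain ⟨x, -, c1, c2, c3⟩ := r3 _ hI.zero _ _ _ _ _ _ (r2 _ (C_rn.add f a g b)) (r2 f a) (r2 g b)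
    obtain ⟨y, -, d1, d2, d3⟩ := r3 _ hI.zero _ _ _ _ _ _ (r2 _ (C_rn.mul f a g b)) (r2 f a) (r2 g b)
    exact ⟨c1.symm.trans (congrArg₂ (· + ·) c2 c3), d1.symm.trans (congrArg₂ (· * ·) d2 d3)⟩
  · have := r2 _ (C_rn.const r k)
    obtain ⟨x, -, c, -⟩ := r3 _ hI.zero _ _ _ _ _ _ this this this
    exact c.symm

theorem st_TY : St_TY := by
  intro M _ S I hI
  have h1 := hI.mem
  have h2 : Df M fun z : V × V => ∃ Γ : Set ((S.X → ℝ) × ℝ), cd Γ ∈ M ∧ ∃ D : Set (S.X → ℝ),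
      cd D ∈ M ∧ (cd Γ : V) = z.1 ∧ (cd D : V) = z.2 ∧ (∀ f ∈ D, ∃ p ∈ Γ, p.1 = f) ∧
      ∀ u : ℕ → S.X → ℝ, cd u ∈ M → ∀ p : ℕ → (S.X → ℝ) × ℝ, cd p ∈ M → (∀ n, u n ∈ I) →
        (∀ n, p n ∈ Γ) → ∃ x, (∀ n, u n x = 0) ∧ ∀ n, (p n).1 x = (p n).2 := by
    apply_rules (maxDepth := 400) (transparency := .reducible) [Df.exM, Df.allM, Df.and, Df.imp,
      Df.allS, Df.exS, Df.ex, Df.all, Df.eq, Df.mem, Dm.id, Dm.fst, Dm.snd, Dm.toV, Dm.const, Dm.app,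
      zero_mem]
  obtain ⟨Q, q1, q2⟩ := h2
  obtain ⟨φ, v, a, b⟩ := q1.fm
  refine ⟨φ, v, a, fun y hy d hd => ?_⟩
  have e : cd (y, d) ∈ M := cd_prod.2 ⟨hy, hd⟩
  refine (b _ e).symm.trans ((q2 (y, d) e).symm.trans ⟨?_, ?_⟩)
  · rintro ⟨Γ, c1, D, -, c2, c3, c4, c5⟩
    exact ⟨Γ, D, c2, c3, c1, fun f k => let ⟨p, d1, d2⟩ := c4 f k; ⟨p.2, d2 ▸ d1⟩,
      fun u p k k' => c5 u k p k'⟩
  · rintro ⟨Γ, D, rfl, rfl, c⟩
    exact ⟨Γ, hy, D, hd, rfl, rfl, fun f k => let ⟨_, d1⟩ := c.tot f k; ⟨_, d1, rfl⟩,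
      fun u k p k' => c.con u p k k'⟩

end Pool.Agent.Lib.MP_d63cb0_gt.H63
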