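import Pool.Agent.Lib.MP_d63cb0_gt.H63.Defs
import Pool.Agent.Lib.MP_d63cb0_gt.H15.Tm

/-! Cohen forcing, its ultrapower, and the statements of the forcing blocks. -/

namespace Pool.Agent.Lib.MP_d63cb0_gt.H63

open Pool.Agent.Lib.MP_fecf72_lc Pool.Agent.Lib.MP_d63cb0_gt.H15 Set Filter Cardinal

/-- finite sets of bits -/
abbrev Cn (K : Type 1) : Type 1 := Finset (K × Bool)

section
variable {K : Type 1} {P J : Type 2}

/-- consistent sets of bits -/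
def Cons (p : Cn K) : Prop := ∀ ξ, (ξ, true) ∈ p → (ξ, false) ∉ p

/-- the order of Cohen forcing -/
def Le (p q : Cn K) : Prop := q ⊆ p ∧ Cons p

theorem Cons.mono {p q : Cn K} (h : Cons p) (k : q ⊆ p) : Cons q :=
  fun ξ a b => h ξ (k a) (k b)

theorem fo : Fo (Le (K := K)) :=
  ⟨fun a b => ⟨b.1.trans a.1, a.2⟩, fun a => ⟨subset_rfl, a.2⟩, fun a => ⟨subset_rfl, a.2.mono a.1⟩⟩

theorem le_tp (p : Cn K) (h : Le p p) : Le p ∅ := ⟨Finset.empty_subset _, h.2⟩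

/-- the ground part of a condition of the ultrapower -/
def cst (W : Filter P) (q : P → Cn K) : Set (K × Bool) := {z | ∀ᶠ a in W, z ∈ q a}

/-- `s` is a condition of the ultrapower that extends `r` -/
def Ex (W : Filter P) (r s : P → Cn K) : Prop := ∀ᶠ a in W, r a ⊆ s a ∧ Cons (s a)

/-- no extension of `r` separates the values of `σ` and `τ` -/
def Sim (W : Filter P) (Lo Hi : J → ℚ → (P → Cn K) → Prop) (r : P → Cn K) (σ τ : J) : Prop :=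
  ∀ s, Ex W r s → ∀ x y : ℚ, x < y → ¬ (Lo σ x s ∧ Hi τ y s) ∧ ¬ (Lo τ x s ∧ Hi σ y s)

end

/-- independent families of pairs of conditions; arguments: level, condition, index, digit, try -/
structure Dat (K : Type 1) (P J : Type 2) : Type 2 where
  e : ℕ → (P → Cn K) → Cn K
  d : ℕ → (P → Cn K) → J → ℕ → ℕ → Cn K
  c : ℕ → (P → Cn K) → J → ℕ → ℕ → Bool → P → Cn K
  ix : ℕ → (P → Cn K) → J → ℕ → ℕ → J
  lo : ℕ → (P → Cn K) → J → ℕ → ℕ → ℚ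
  hi : ℕ → (P → Cn K) → J → ℕ → ℕ → ℚ

/-- what the families satisfy -/
structure Spec {K : Type 1} {P J : Type 2} (W : Filter P) (Λ : Set J)
    (Lo Hi : J → ℚ → (P → Cn K) → Prop) (r0 : P → Cn K) (R : Set J) (D : Dat K P J) : Prop where
  root : ∀ n r, Ex W r0 r → Cons (D.e n r) ∧ cst W r ⊆ D.e n r ∧ ∀ ξ ∈ R, ∀ k p, Cons p →
    D.e n r ⊆ p → ∃ t p', Cons p' ∧ p ⊆ p' ∧ D.d n r ξ k t ⊆ p'
  pair : ∀ n r, Ex W r0 r → ∀ ξ ∈ R, ∀ k t, D.ix n r ξ k t ∈ Λ ∧ D.lo n r ξ k t < D.hi n r ξ k t ∧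
    Lo (D.ix n r ξ k t) (D.lo n r ξ k t) (D.c n r ξ k t false) ∧
    Hi (D.ix n r ξ k t) (D.hi n r ξ k t) (D.c n r ξ k t true) ∧
    ∀ ε, cst W (D.c n r ξ k t ε) ⊆ D.d n r ξ k t
  ind : ∀ s : Finset J, ↑s ⊆ R → ∃ n0, ∀ n ≥ n0, ∀ r, Ex W r0 r →
    ∀ (t : J → ℕ → ℕ) (ε : J → ℕ → Bool), ∀ᶠ a in W, ∃ p, Cons p ∧ r a ⊆ p ∧
      ∀ ξ ∈ s, ∀ k ≤ n, D.c n r ξ k (t ξ k) (ε ξ k) a ⊆ p

/-- LG: below a condition of least weight there are few classes or large independent families -/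
def St_LG : Prop :=
  ∀ (K : Type 1) (P J : Type 2) (W : Ultrafilter P) (Λ : Set J)
    (Lo Hi : J → ℚ → (P → Cn K) → Prop), CountableInterFilter (W : Filter P) → Infinite K →
    #K ^ ℵ₀ = #K → (∀ σ x r s, Ex W r s → Lo σ x r → Lo σ x s) →
    (∀ σ x r s, Ex W r s → Hi σ x r → Hi σ x s) →
    (∀ σ x y s, x < y → Lo σ x s → ¬ Hi σ y s) → ∀ p : Cn K, Cons p →
    ∃ r0, Ex W (fun _ => p) r0 ∧ ∃ R ⊆ Λ, (∀ σ ∈ Λ, ∃ τ ∈ R, Sim W Lo Hi r0 σ τ) ∧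
      (Nonempty (R ↪ K) ∨ ∃ D, Spec W Λ Lo Hi r0 R D)

/-- CST: ground parts are conditions, and conditions above them are compatible -/
def St_CST : Prop :=
  ∀ (K : Type 1) (P : Type 2) (W : Ultrafilter P) (q : P → Cn K),
    CountableInterFilter (W : Filter P) → (∀ᶠ a in W, Cons (q a)) →
    (∃ p : Cn K, Cons p ∧ ↑p = cst W q) ∧ ∀ p : Cn K, Cons p → cst W q ⊆ p →
      ∃ r, Ex W q r ∧ ↑p ⊆ cst W r

/-- FIN: finite sets of members of the hull -/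
def St_FIN : Prop :=
  ∀ C : Type 2, ∀ᶠ N in Club, ∀ F : Finset C, In N F ↔ ∀ c ∈ F, In N c

/-- SAT: truth in the extension is decided by forcing -/
def St_SAT : Prop :=
  ∀ (U : Type 1) (R : U → U → Prop), Fo R → Fc R fun (z : Fm × List (Nm U)) N G =>
    (∀ τ ∈ z.2, In N τ) ∧ Sat (Mod N G) z.1 (z.2.map (val N G))

/-- MP: the maximum principle -/
def St_MP : Prop :=
  ∀ (U : Type 1) (R : U → U → Prop), Fo R → ∀ (ι : Type 2) (Θ : ι → V → Set Wd → Set U → Prop),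
    (Fc R fun (z : ι × Nm U) N G => Θ z.1 (val N G z.2) N G) →
    ∃ n : ι → Nm U, ∀ᶠ N in Club, ∀ G, GG N R G → ∀ a, In N a →
      (∃ y ∈ Mod N G, Θ a y N G) → Θ a (val N G (n a)) N G

/-- FAM: families indexed by the members of a name -/
def St_FAM : Prop :=
  ∀ (U : Type 1) (R : U → U → Prop), Fo R → ∀ (ι : Type 2) (τ : ι → Nm U)
    (Θ : ι → Nm U → Set Wd → Set U → Prop) (s : ι → Nm U → Set Wd → Set U → V),
    (Fc R fun z : ι × Nm U => Θ z.1 z.2) → (Tm R fun z : ι × Nm U => s z.1 z.2) →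
    ∃ n : ι → Nm U, ∀ᶠ N in Club, ∀ G, GG N R G → ∀ a, In N a → ∀ y, (y ∈ val N G (n a) ↔
      ∃ σ, In N σ ∧ (∃ c, Ch (τ a) σ c) ∧ Θ a σ N G ∧ y = s a σ N G)

/-- the lemma of Teichmueller and Tukey in `M` -/
def Tukey (M : Set V) : Prop :=
  ∀ A ∈ M, ∀ C ∈ M, ∅ ∈ C → ∃ B ∈ M, B ⊆ A ∧ (∀ b : V, {x | x ∈ b}.Finite → b ⊆ B → b ∈ C) ∧
    ∀ z ∈ A, (∀ b : V, {x | x ∈ b}.Finite → b ⊆ B → insert z b ∈ C) → z ∈ B

/-- TUK: maximal families exist in every extension -/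
def St_TUK : Prop :=
  ∀ (U : Type 1) (R : U → U → Prop) (tp : U), (∀ p, R p p → R p tp) → Fo R →
    ∀ᶠ N in Club, ∀ G, GG N R G → Tukey (Mod N G)

/-- CC: countably many candidates suffice -/
def St_CC : Prop :=
  ∀ (K : Type 1) (ι T : Type 2) [Nonempty T] (Θ : ι → T → Set Wd → Set (Cn K) → Prop),
    (Fc Le fun z : ι × T => Θ z.1 z.2) → ∃ Z : ι → ℕ → T, ∀ᶠ N in Club, ∀ G, GG N Le G →
      ∀ a, In N a → (∃ t, In N t ∧ Θ a t N G) → ∃ m, Θ a (Z a m) N G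

/-- ADD: the ideal is countably complete in the extension -/
def St_ADD : Prop :=
  ∀ (K : Type 1) (P : Type 2), ∀ᶠ N in Club, ∀ G : Set (Cn K), GG N Le G →
    ∀ (W : Ultrafilter P) (b : ℕ → P → Set (Cn K)), In N W → In N b →
      CountableInterFilter (W : Filter P) →
      (∀ i, ∃ B ∈ W, In N B ∧ ∀ a ∈ B, In N a → ¬ Hd G (b i a)) →
      ∃ B ∈ W, In N B ∧ ∀ i, ∀ a ∈ B, In N a → ¬ Hd G (b i a)

/-- GL: conditions of the ultrapower with ground part in `G` give positive sets -/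
def St_GL : Prop :=
  ∀ (K : Type 1) (P : Type 2), ∀ᶠ N in Club, ∀ G : Set (Cn K), GG N Le G →
    ∀ (W : Ultrafilter P) (Q : Finset (P → Cn K)) (B : Set P), In N W → (∀ q ∈ Q, In N q) →
      In N B → CountableInterFilter (W : Filter P) → B ∈ W →
      (∀ᶠ a in W, ∃ p, Cons p ∧ ∀ q ∈ Q, q a ⊆ p) →
      (∀ q ∈ Q, ∃ p ∈ G, cst W q ⊆ p) → ∃ a ∈ B, In N a ∧ ∀ q ∈ Q, q a ∈ G

/-- TL: positive sets are forced by conditions of the ultrapower -/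
def St_TL : Prop :=
  ∀ (K : Type 1) (P : Type 2), ∀ᶠ N in Club, ∀ G : Set (Cn K), GG N Le G →
    ∀ (W : Ultrafilter P) (b : P → Set (Cn K)), In N W → In N b →
      CountableInterFilter (W : Filter P) → (∀ B ∈ W, In N B → ∃ a ∈ B, In N a ∧ Hd G (b a)) →
      ∃ q : P → Cn K, In N q ∧ (∃ p ∈ G, cst W q ⊆ p) ∧ ∀ᶠ a in W, ∃ t ∈ b a, Le (q a) t

/-- S: Cohen bits are independent along every infinite set of the extension -/
def St_S : Prop :=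
  ∀ (K : Type 1) (J : Type 2) (pat : ℚ → ℕ → ℕ), Uncountable K →
    ∀ᶠ N in Club, ∀ G : Set (Cn K), GG N Le G → ∀ (a : Set J) (β : Nm (Cn K)), In N a → In N β →
      Nonempty (a ↪ K) → (∀ n0, ∃ n ≥ n0, natC n ∈ val N G β) →
      ∃ e : J → ℕ → ℕ → K, In N e ∧ ∀ (s : Finset J) (v : J → ℚ), (∀ ξ ∈ s, ξ ∈ a ∧ In N ξ) →
        ∀ n0, ∃ n ≥ n0, natC n ∈ val N G β ∧
          ∀ ξ ∈ s, ∀ k ≤ n, (({(e ξ n k, true)} : Cn K) ∈ G ↔ k = pat (v ξ) n)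

/-- W: the fine ultrafilters -/
def St_W : Prop :=
  ∀ (κ : Cardinal.{1}) (K : Type 1) (J : Type 2) (Λ : Set J), OmegaOneSC κ → κ ≤ #K → Infinite K →
    Small.{1} Λ → ∃ W : Ultrafilter (Set J), CountableInterFilter (W : Filter (Set J)) ∧
      (∀ σ ∈ Λ, {a | σ ∈ a} ∈ W) ∧ {a : Set J | Nonempty (a ↪ K)} ∈ W

end Pool.Agent.Lib.MP_d63cb0_gt.H63
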