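import Pool.Agent.Lib.MP_d63cb0_gt.H63.Glue

/-! Types over ideals of continuous functions, and the statements of the remaining blocks. -/

set_option linter.unusedSectionVars false

namespace Pool.Agent.Lib.MP_d63cb0_gt.H63

open Pool.Agent.Lib.MP_fecf72_lc Pool.Agent.Lib.MP_d63cb0_gt.H15 Set Filter

variable {M : Set V}

/-- families of continuous functions whose sequences have common zeros -/
structure Idl (S : TS M) (I : Set (S.X → ℝ)) : Prop where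
  mem : cd I ∈ M
  sub : I ⊆ S.C
  zero : (fun _ => 0) ∈ I
  cip : ∀ u : ℕ → S.X → ℝ, cd u ∈ M → (∀ n, u n ∈ I) → ∃ x, ∀ n, u n x = 0

/-- assignments of values to the members of `D` that are countably realized on zeros of `I` -/
structure Typ (S : TS M) (I D : Set (S.X → ℝ)) (Γ : Set ((S.X → ℝ) × ℝ)) : Prop where
  mem : cd Γ ∈ M
  tot : ∀ f ∈ D, ∃ r, (f, r) ∈ Γ
  con : ∀ (u : ℕ → S.X → ℝ) (p : ℕ → (S.X → ℝ) × ℝ), cd u ∈ M → cd p ∈ M → (∀ n, u n ∈ I) →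
    (∀ n, p n ∈ Γ) → ∃ x, (∀ n, u n x = 0) ∧ ∀ n, (p n).1 x = (p n).2

/-- every continuous function is bounded above on a zero set of `I` -/
def PC (S : TS M) (I : Set (S.X → ℝ)) : Prop :=
  ∀ h ∈ S.C, ∃ m : ℕ, ∃ u ∈ I, ∀ x, u x = 0 → h x ≤ m

/-- `D` represents all continuous functions modulo `I` -/
def Rep (S : TS M) (I D : Set (S.X → ℝ)) : Prop :=
  ∀ f ∈ S.C, ∃ f' ∈ D, ∃ u ∈ I, ∀ x, u x = 0 → f x = f' x

/-- level, digit, lower bound, upper bound, function -/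
abbrev Tu (S : TS M) : Type := ℕ × ℕ × ℚ × ℚ × (S.X → ℝ)

/-- the digit that approximates `v` on level `n` -/
def pat (v : ℚ) (n : ℕ) : ℕ := ⌊((n : ℚ) + 1) * v⌋₊

/-- independent families of switches -/
structure Ind (S : TS M) (h : S.X → ℝ) (j : ℕ) {ι : Type 2} (R : Set ι) (f : ι → S.X → ℝ)
    (Z : ι → Set (Tu S)) : Prop where
  hh : h ∈ S.C
  mem : cd ((fun ξ => (f ξ, Z ξ)) '' R) ∈ M
  hf : ∀ ξ ∈ R, f ξ ∈ S.C
  hZ : ∀ ξ ∈ R, ∀ z ∈ Z ξ, z.1 % 2 = j ∧ z.2.2.1 < z.2.2.2.1 ∧ z.2.2.2.2 ∈ S.C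
  fin : ∀ ξ ∈ R, ∀ n, {z ∈ Z ξ | z.1 = n}.Finite
  ind : ∀ (s : Finset ι) (v : ι → ℚ), ↑s ⊆ R → ∀ n0, ∃ n ≥ n0, n % 2 = j ∧ ∃ x, (n : ℝ) ≤ h x ∧
    h x ≤ n + 1 ∧ ∀ ξ ∈ s, pat (v ξ) n ≤ n →
      (∃ z ∈ Z ξ, z.1 = n ∧ z.2.1 = pat (v ξ) n ∧ (z.2.2.2.1 : ℝ) ≤ z.2.2.2.2 x) ∧
      ∀ z ∈ Z ξ, z.1 = n → z.2.1 ≠ pat (v ξ) n → z.2.2.2.2 x ≤ z.2.2.1

/-- KEY: independent switches give types -/
def St_KEY : Prop :=
  ∀ (M : Set V) [Good M] (S : TS M) (I : Set (S.X → ℝ)) (h : S.X → ℝ) (j : ℕ) (ι : Type 2)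
    (R : Set ι) (f : ι → S.X → ℝ) (Z : ι → Set (Tu S)), AllCY S → Idl S I → Ind S h j R f Z →
    ∃ Γ, Typ S I (f '' R) Γ

/-- U0: in the bounded case there is a type on all functions -/
def St_U0 : Prop :=
  ∀ (M : Set V) [Good M] (S : TS M) (I : Set (S.X → ℝ)), Idl S I → PC S I → ∃ Γ, Typ S I S.C Γ

/-- END: a cover without countable subcover gives an ideal without types on representatives -/
def St_END : Prop :=
  ∀ (M : Set V) [Good M] (S : TS M), ¬ UpsLind M S.sp → ∃ I0, Idl S I0 ∧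
    ∀ I D Γ, I0 ⊆ I → Idl S I → Typ S I D Γ → ¬ Rep S I D

/-- TY: being a type is first order -/
def St_TY : Prop :=
  ∀ (M : Set V) [Good M] (S : TS M) (I : Set (S.X → ℝ)), Idl S I → ∃ (φ : Fm) (v : List V),
    (∀ p ∈ v, p ∈ M) ∧ ∀ y ∈ M, ∀ d ∈ M, (Sat M φ (ZFSet.pair y d :: v) ↔
      ∃ Γ D, cd Γ = y ∧ cd D = d ∧ Typ S I D Γ)

/-- GOOD: the generic extensions know their arithmetic -/
def St_GOOD : Prop :=
  ∀ K : Type 1, ∀ᶠ N in Club, ∀ G : Set (Cn K), GG N Le G → Good (Mod N G)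

/-- the members of a name -/
def Lam {U : Type 1} (c : Nm U) : Set (Nm U) := {σ | ∃ s, Ch c σ s}

/-- `f` lists the continuous functions along the names `F σ` -/
structure Lst {U : Type 1} (N : Set Wd) (G : Set U) (S : TS (Mod N G)) (c : Nm U)
    (F : Nm U → Nm U) (f : Nm U → S.X → ℝ) : Prop where
  hc : In N c
  hF : In N F
  val : ∀ σ, In N σ → f σ ∈ S.C ∧ cd (f σ) = val N G (F σ)
  onto : ∀ g ∈ S.C, ∃ σ ∈ Lam c, In N σ ∧ f σ = g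

/-- A1: types on small families -/
def St_A1 : Prop :=
  ∀ K : Type 1, Uncountable K → ∀ᶠ N in Club, ∀ G : Set (Cn K), GG N Le G →
    ∀ (S : TS (Mod N G)) c F f, AllCY S → Lst N G S c F f → ∀ I, Idl S I →
      ∀ a : Set (Nm (Cn K)), In N a → Nonempty (a ↪ K) →
        ∃ Γ, Typ S I (f '' {σ | In N σ ∧ σ ∈ Lam c ∧ σ ∈ a}) Γ

/-- A2: lists of functions and names of types -/
def St_A2 : Prop :=
  ∀ K : Type 1, Uncountable K → ∀ᶠ N in Club, ∀ G : Set (Cn K), GG N Le G →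
    ∀ S : TS (Mod N G), AllCY S → ∀ I, Idl S I → ∃ c F f, Lst N G S c F f ∧
      ∃ (y : Set (Nm (Cn K)) → Nm (Cn K)) (Γ : Set (Nm (Cn K)) → Set ((S.X → ℝ) × ℝ)), In N y ∧
        ∀ a : Set (Nm (Cn K)), In N a → Nonempty (a ↪ K) → cd (Γ a) = val N G (y a) ∧
          Typ S I (f '' {σ | In N σ ∧ σ ∈ Lam c ∧ σ ∈ a}) (Γ a)

variable [Good M] {S : TS M} {I D D' : Set (S.X → ℝ)} {Γ : Set ((S.X → ℝ) × ℝ)}

theorem Typ.mono (h : Typ S I D Γ) (k : D' ⊆ D) : Typ S I D' Γ :=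
  ⟨h.mem, fun f a => h.tot f (k a), h.con⟩

theorem Typ.fin (h : Typ S I D Γ) (hI : Idl S I) {U : Set (S.X → ℝ)} {F : Set ((S.X → ℝ) × ℝ)}
    (h1 : U.Finite) (h2 : U ⊆ I) (h3 : F.Finite) (h4 : F ⊆ Γ) (h5 : F.Nonempty) :
    ∃ x, (∀ u ∈ U, u x = 0) ∧ ∀ p ∈ F, p.1 x = p.2 := by
  obtain ⟨u, a1, a2, n, a3⟩ := fin_seq (M := M) (h1.insert fun _ => 0) (insert_nonempty _ _)
    fun a k => cd_of_mem hI.mem (insert_subset hI.zero h2 k)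
  obtain ⟨p, b1, b2, m, b3⟩ := fin_seq (M := M) h3 h5 fun a k => cd_of_mem h.mem (h4 k)
  obtain ⟨x, c1, c2⟩ := h.con u p a1 b1 (fun n => insert_subset hI.zero h2 (a2 n)) fun n => h4 (b2 n)
  exact ⟨x, fun w k => let ⟨i, _, e⟩ := a3 w (Or.inr k); e ▸ c1 i,
    fun w k => let ⟨i, _, e⟩ := b3 w k; e ▸ c2 i⟩

theorem Typ.two (h : Typ S I D Γ) (hI : Idl S I) {u f g : S.X → ℝ} {r t : ℝ} (hu : u ∈ I)
    (h1 : (f, r) ∈ Γ) (h2 : (g, t) ∈ Γ) : ∃ x, u x = 0 ∧ f x = r ∧ g x = t :=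
  let ⟨x, a, b⟩ := h.fin hI (finite_singleton u) (singleton_subset_iff.2 hu)
    ((finite_singleton (g, t)).insert (f, r)) (insert_subset h1 (singleton_subset_iff.2 h2))
    (insert_nonempty _ _)
  ⟨x, a u rfl, b _ (Or.inl rfl), b _ (Or.inr rfl)⟩

end Pool.Agent.Lib.MP_d63cb0_gt.H63
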