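import Pool.Agent.Lib.MP_d63cb0_gt.H63.BlueM

/-! The gluing lemma: if the glued algebra is a ring of continuous functions, there is a type. -/

set_option linter.unusedSectionVars false

namespace Pool.Agent.Lib.MP_d63cb0_gt.H63

open Pool.Agent.Lib.MP_fecf72_lc Pool.Agent.Lib.MP_d63cb0_gt.H15 Set Topology Filter

variable {M : Set V} [Good M] {S : TS M}

theorem Sid.typ {J D : Set (S.X → ℝ)} {Γ : Set ((S.X → ℝ) × ℝ)} (h : Sid S J) (h1 : cd Γ ∈ M)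
    (h2 : ∀ f ∈ D, ∃ r, (f, r) ∈ Γ) (h3 : ∀ u ∈ J, ∀ p : ℕ → (S.X → ℝ) × ℝ, cd p ∈ M →
      (∀ n, p n ∈ Γ) → ∃ x, u x = 0 ∧ ∀ n, (p n).1 x = (p n).2) : Typ S J D Γ :=
  ⟨h1, h2, fun u p a b c d => let ⟨x, e, k⟩ := h3 _ (h.sp u a c) p b d; ⟨x, sp_zero.1 e, k⟩⟩

namespace Gd

variable (g : Gd S)

/-- the cutoff function -/
noncomputable def th (x : S.X) : ℝ := max 0 (min 1 (g.m + 1 - g.h x))

/-- the glued function -/
noncomputable def af (p : (S.X → ℝ) × (S.X → ℝ)) (x : S.X) : ℝ :=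
  g.th x * tt (p.1 x) + (1 - g.th x) * p.2 x

variable {g}

theorem th_C : g.th ∈ S.C :=
  ⟨lam_mem ((Dm.const zero_mem).max ((Dm.const one_mem).min (((Dm.const (nat_mem _)).add
    (Dm.const one_mem)).sub (Dm.capp g.hh.1 Dm.id)))),
    continuous_const.max (continuous_const.min (continuous_const.sub g.hh.2))⟩

theorem th_one {x : S.X} (h : g.u0 x = 0) : g.th x = 1 := by
  rw [th, min_eq_left (by linarith [g.hm x h]), max_eq_right zero_le_one]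

theorem th_zero {x : S.X} (h : ((g.m + 1 : ℕ) : ℝ) < g.h x) : g.th x = 0 :=
  max_eq_left ((min_le_right _ _).trans (by push_cast at h; linarith))

theorem th_nonneg (x : S.X) : 0 ≤ g.th x := le_max_left _ _

theorem th_le (x : S.X) : g.th x ≤ 1 := max_le zero_le_one (min_le_left _ _)

theorem dm_af : Dm M g.af := by
  have := (th_C (g := g)).1
  refine Dm.lam ?_
  unfold af
  apply_rules (maxDepth := 400) (transparency := .reducible) [Dm.id, Dm.fst, Dm.snd, Dm.add, Dm.mul,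
    Dm.sub, Dm.tt, Dm.const, Dm.app, one_mem]

theorem af_St {p : (S.X → ℝ) × (S.X → ℝ)} (h : p ∈ g.E) : g.af p ∈ g.St := by
  refine St.intro ⟨dm_af.maps (cd_of_mem g.hE h), (th_C.2.mul (tt_cont.comp (g.hC p h).1.2)).add
    ((continuous_const.sub th_C.2).mul (g.hC p h).2.2)⟩ fun ε e => ?_
  obtain ⟨k, hk⟩ := exists_nat_one_div_lt e
  refine ((ev_base g.hu (g.m + 1)).and (Ev.intro (P := fun x0 x => |p.2 x - tt (p.1 x0)| < ε)
    (singleton_subset_iff.2 h) (finite_singleton _) g.hu k fun x0 x _ _ a =>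
      (a p rfl).trans (by rwa [one_div] at hk))).mono fun x0 x a => ?_
  simpa [af, th_one a.1.1, th_zero a.1.2] using a.2

theorem th_not : g.th ∉ g.A := by
  intro h
  obtain ⟨a, a1, a2⟩ := (h.2 0).1
  have h1 := g.hJ.mem
  have h2 := a1.1.1
  obtain ⟨u, b1, b2⟩ := Df.choice (M := M) (P := fun (n : ℕ) (u : S.X → ℝ) => u ∈ g.J ∧
    ∀ x, u x = 0 → |a x| < ((n : ℝ) + 1)⁻¹) (by
      apply_rules (maxDepth := 400) (transparency := .reducible) [Df.and, Df.all, Df.imp, Df.eq,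
        Df.mem, Df.lt, Dm.id, Dm.fst, Dm.snd, Dm.abs, Dm.inv, Dm.add, Dm.natCast, Dm.const, Dm.app,
        zero_mem, one_mem]) fun n => by
    obtain ⟨u, c1, c2⟩ := ((a1.2 n).and (ev_base g.hu (g.m + 1))).ex
    refine ⟨u, (g.hJ.sub c1).1, c1, fun x0 e => ?_⟩
    obtain ⟨x, c3, -, c4⟩ := c2 x0 e
    have : a x = 0 := by_contra fun k => by simpa [th_zero c4] using (a2 x).2 k
    simpa [this] using c3
  obtain ⟨w, c1, c2⟩ := g.hJ.two (g.hJ.sp u b1 fun n => (b2 n).1) g.hu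
  obtain ⟨x, c3⟩ := g.hJ.ne w c1
  have c4 := (a2 x).1 (by simp [th_one (c2 x c3).2])
  obtain ⟨n, hn⟩ := exists_nat_one_div_lt (abs_pos.2 c4)
  exact (hn.trans ((b2 n).2 x (sp_zero.1 (c2 x c3).1 n))).ne (one_div _)

variable {φ : (S.X → ℝ) → ℝ}

theorem hm_sp (hφ : Hm g.A {r | realC r ∈ M} φ) {u : ℕ → S.X → ℝ} (h1 : cd u ∈ M)
    (h2 : ∀ n, u n ∈ g.St) (h3 : ∀ n, φ (u n) = 0) : φ (sp u) = 0 := by
  have h4 : ∀ k, φ (pk u k) = 0 := fun k => by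
    induction k with
    | zero => exact hφ.const 0 (zero_mem (M := M))
    | succ k ih =>
      obtain ⟨x, a, b, c⟩ := hφ.ex3 A.rn (St.mem_A (St.pk h2 k)) (St.mem_A (h2 k))
        (St.mem_A (St.pk h2 (k + 1)))
      have e : (0 : ℝ) ≤ ((k : ℝ) + 1)⁻¹ := by positivity
      rw [← c]
      simp [pk, a, b, ih, h3, e]
  refine abs_nonpos_iff.1 (le_of_forall_pos_le_add fun ε e => ?_)
  obtain ⟨k, hk⟩ := sp_pk (X := S.X) e
  obtain ⟨x, a, b⟩ := hφ.ex2 A.rn (St.mem_A (St.sp h1 h2)) (St.mem_A (St.pk h2 k))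
  simpa [a, b, h4] using (hk u x).le

theorem zlem (hφ : Hm g.A {r | realC r ∈ M} φ) (hd : Dm M φ) (hk : ∀ b ∈ g.Jd, φ b = 0)
    {a : ℕ → S.X → ℝ} (h1 : cd a ∈ M) (h2 : ∀ n, a n ∈ g.St) {u : S.X → ℝ} (h3 : u ∈ g.J) :
    ∃ x, u x = 0 ∧ g.th x = 1 ∧ ∀ n, a n x = φ (a n) := by
  have a1 : ∀ n, (fun x => a n x - φ (a n)) ∈ g.St := fun n =>
    St.lip (h2 n) (h2 n) (C_rn.sub (h2 n).1 (C_rn.const _ (hφ.val _ (St.mem_A (h2 n)))))
      fun x y => by simp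
  have a2 : cd (fun n x => a n x - φ (a n)) ∈ M := lam_mem (Dm.lam
    (((Dm.capp h1 Dm.id.fst).app Dm.id.snd).sub (hd.comp (Dm.capp h1 Dm.id.fst))))
  have a3 := hm_sp hφ a2 a1 fun n => by
    obtain ⟨x, b1, b2⟩ := hφ.ex2 A.rn (St.mem_A (h2 n)) (St.mem_A (a1 n))
    rw [← b2, b1, sub_self]
  obtain ⟨w, b1, b2⟩ := g.hJ.two h3 g.hu
  have b3 := g.hJ.sub b1
  let c : S.X → ℝ := fun x => g.th x * |w x| + (1 - g.th x) * (1 + |g.h x|)⁻¹
  have c1 : c ∈ S.C := ⟨lam_mem (((Dm.capp th_C.1 Dm.id).mul (Dm.capp b3.1 Dm.id).abs).add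
    (((Dm.const one_mem).sub (Dm.capp th_C.1 Dm.id)).mul ((Dm.const one_mem).add
      (Dm.capp g.hh.1 Dm.id).abs).inv)), (th_C.2.mul b3.2.abs).add ((continuous_const.sub th_C.2).mul
      ((continuous_const.add g.hh.2.abs).inv₀ fun x =>
        ne_of_gt (show 0 < 1 + |g.h x| by positivity)))⟩
  have c2 : ∀ x, 0 ≤ g.th x * |w x| ∧ 0 ≤ (1 - g.th x) * (1 + |g.h x|)⁻¹ := fun x =>
    ⟨mul_nonneg (th_nonneg x) (abs_nonneg _),
      mul_nonneg (sub_nonneg.2 (th_le x)) (by positivity)⟩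
  have c3 : ∀ ε > 0, g.Ev fun x0 x => c x0 = 0 ∧ c x < ε := fun ε e => by
    obtain ⟨k, hk⟩ := exists_nat_one_div_lt e
    refine ((ev_base b1 (g.m + 1)).and (ev_base b1 k)).mono fun x0 x p =>
      ⟨by simp [c, p.1.1, th_one (b2 _ p.1.1).2], ?_⟩
    simp only [c, th_zero p.1.2, zero_mul, sub_zero, one_mul, zero_add]
    rw [one_div] at hk
    refine lt_of_le_of_lt (inv_anti₀ (by positivity) ?_) hk
    linarith [p.2.2, le_abs_self (g.h x)]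
  have c4 : c ∈ g.St := St.intro c1 fun ε e => (c3 ε e).mono fun x0 x p => by
    rw [p.1, sub_zero, abs_of_nonneg (add_nonneg (c2 x).1 (c2 x).2)]
    exact p.2
  have c5 : φ c ≤ 0 := le_of_forall_pos_le_add fun ε e => by
    obtain ⟨q, d1, d2⟩ := exists_rat_btwn e
    have d3 : (fun x => max (c x - q) 0) ∈ g.Jd :=
      ⟨⟨lam_mem (((Dm.capp c1.1 Dm.id).sub (Dm.const (rat_mem q))).max (Dm.const zero_mem)),
        (c1.2.sub continuous_const).max continuous_const⟩, (c3 q d1).mono fun x0 x p =>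
        ⟨max_eq_right (by linarith [p.1]), max_eq_right (by linarith [p.2])⟩⟩
    obtain ⟨x, d4, d5⟩ := hφ.ex2 A.rn (St.mem_A c4) (St.mem_A (St.of_Jd d3))
    have := (le_max_left _ _).trans_eq (d5.trans (hk _ d3))
    linarith
  obtain ⟨x, d1, d2⟩ := hφ.ex2 A.rn (St.mem_A c4) (St.mem_A (St.sp a2 a1))
  have d3 : g.th x * |w x| + (1 - g.th x) * (1 + |g.h x|)⁻¹ ≤ 0 := d1.trans_le c5
  have d4 : g.th x = 1 := by
    have : (1 - g.th x) * (1 + |g.h x|)⁻¹ = 0 := by linarith [(c2 x).1, (c2 x).2]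
    rcases mul_eq_zero.1 this with e | e
    · linarith
    · exact absurd e (by positivity)
  refine ⟨x, (b2 x ?_).1, d4, fun n => sub_eq_zero.1 (sp_zero.1 (d2.trans a3) n)⟩
  simpa [d4] using d3

theorem typ_of_hm (hφ : Hm g.A {r | realC r ∈ M} φ) (hd : Dm M φ) (hk : ∀ b ∈ g.Jd, φ b = 0) :
    ∃ Γ, Typ S g.J (Prod.fst '' g.E) Γ := by
  have h1 := g.hE
  have h2 : Dm M fun p => φ (g.af p) := hd.comp dm_af
  refine ⟨{z | cd z ∈ M ∧ ∃ p ∈ g.E, p.1 = z.1 ∧ φ (g.af p) = tt z.2}, g.hJ.typ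
    (Df.sep (s := {z : (S.X → ℝ) × ℝ | cd z ∈ M}) (Df.exS (Dm.const h1) ((Df.eq Dm.id.snd.fst
      Dm.id.fst.fst).and (Df.eq (h2.comp Dm.id.snd) Dm.id.fst.snd.tt))) Sg.h) ?_ fun u hu p a b => ?_⟩
  · rintro _ ⟨p, a, rfl⟩
    obtain ⟨x, -, b, c⟩ := zlem hφ hd hk (a := fun _ => g.af p)
      (lam_mem (Dm.const (af_St a).1.1)) (fun _ => af_St a) g.hu
    exact ⟨p.1 x, cd_prod.2 ⟨(g.hC p a).1.1, cd_app (g.hC p a).1.1 x⟩, p, a, rfl, by
      simpa [af, b] using (c 0).symm⟩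
  · obtain ⟨e, c, d⟩ := Df.choice (M := M) (P := fun (n : ℕ) (z : (S.X → ℝ) × (S.X → ℝ)) =>
      z ∈ g.E ∧ z.1 = (p n).1 ∧ φ (g.af z) = tt (p n).2) ((Df.mem Dm.id.snd (Dm.const h1)).and
        ((Df.eq Dm.id.snd.fst (Dm.capp a Dm.id.fst).fst).and (Df.eq (h2.comp Dm.id.snd)
          (Dm.capp a Dm.id.fst).snd.tt))) fun n =>
      let ⟨z, k⟩ := (b n).2; ⟨z, cd_of_mem h1 k.1, k⟩
    obtain ⟨x, k1, k2, k3⟩ := zlem hφ hd hk (a := fun n => g.af (e n))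
      (lam_mem (dm_af.comp (Dm.capp c Dm.id))) (fun n => af_St (d n).1) hu
    refine ⟨x, k1, fun n => tt_inj ?_⟩
    simpa [af, k2, (d n).2.1, (d n).2.2] using (k3 n).trans (d n).2.2

open Classical in
theorem typ (g : Gd S) (hc : AllCY S) : ∃ Γ, Typ S g.J (Prod.fst '' g.E) Γ := by
  by_cases h0 : ∀ z, ∃ u ∈ g.J, u z ≠ 0
  swap
  · simp only [not_forall, not_exists, not_and, not_not] at h0
    obtain ⟨z, h0⟩ := h0
    refine ⟨{w | cd w ∈ M ∧ w.1 z = w.2}, Df.sep (s := {z : (S.X → ℝ) × ℝ | cd z ∈ M})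
      (Df.eq (Dm.id.fst.app (Dm.const (sm_mem z))) Dm.id.snd) Sg.h, ?_,
      fun u p _ _ a b => ⟨z, fun n => h0 _ (a n), fun n => (b n).2⟩⟩
    rintro _ ⟨p, a, rfl⟩
    exact ⟨p.1 z, cd_prod.2 ⟨(g.hC p a).1.1, cd_app (g.hC p a).1.1 z⟩, rfl⟩
  obtain ⟨Y0, hY, Φ0, h1, h2, h3, h4⟩ := hc _ (A.alg h0)
  let Y : TS M := ⟨Y0, hY⟩
  let Φ : (S.X → ℝ) → Y.X → ℝ := fun a => if a ∈ g.A then Φ0 a else fun _ => 0
  have e : ∀ a ∈ g.A, Φ a = Φ0 a := fun a k => if_pos k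
  have e' : ∀ a ∉ g.A, Φ a = fun _ => 0 := fun a k => if_neg k
  have h5 : BijOn Φ g.A Y.C := (TS.C_eq (S := Y)) ▸ h2.congr fun a k => (e a k).symm
  have h6 : Dm M Φ := by
    refine Dm.ofDf (fun a _ => ?_) ((((Df.mem Dm.id.fst (Dm.const (A_mem (g := g)))).and
      (Df.memV Dm.id.toV (Dm.const (β := V) (b := img _ _) h1))).or ((Df.mem Dm.id.fst (Dm.const (A_mem (g := g)))).not.and (Df.eq
        (Dm.const (β := V) (C_rn (S := Y).zero).1) Dm.id.snd))).congr fun z _ => ?_)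
    · by_cases k : a ∈ g.A
      · exact (h5.1 k).1
      · exact e' a k ▸ (C_rn (S := Y).zero).1
    · by_cases k : z.1 ∈ g.A
      · rw [e _ k]
        exact ⟨fun a => Or.inl ⟨k, (pair_mem_gr (fC_inj S.ty.inj)).2 ⟨k, a⟩⟩, fun a => a.elim
          (fun a => ((pair_mem_gr (fC_inj S.ty.inj)).1 a.2).2) fun a => (a.1 k).elim⟩
      · rw [e' _ k]
        exact ⟨fun a => Or.inr ⟨k, a⟩, fun a => a.elim (fun a => (k a.1).elim) fun a => a.2⟩
  have h7 : ∀ y, Hm g.A {r | realC r ∈ M} fun a => Φ a y := fun y =>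
    ⟨fun a k b k' => by
      rw [e _ k, e _ k', e _ (A.rn.add a k b k'), e _ (A.rn.mul a k b k')]
      exact ⟨congrFun (h3 a k b k').1 y, congrFun (h3 a k b k').2 y⟩,
    fun r k => by rw [e _ (A.rn.const r k)]; exact congrFun (h4 r k) y,
    fun a k => cd_app (M := M) (h5.1 k).1 y⟩
  by_cases h8 : ∃ y, ∀ b ∈ g.Jd, Φ b y = 0
  · obtain ⟨y, h8⟩ := h8
    exact typ_of_hm (h7 y) (h6.app (Dm.const (sm_mem y))) h8
  simp only [not_exists, not_forall, exists_prop] at h8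
  choose b b1 b2 using h8
  have jA : ∀ b ∈ g.Jd, b ∈ g.A := fun b k => St.mem_A (St.of_Jd k)
  have cm : ∀ y, ∀ b ∈ g.Jd, ∀ c ∈ g.Jd, Φ (g.th * b) y * Φ c y = Φ (g.th * c) y * Φ b y :=
    fun y b k c k' => by
      rw [← ((h7 y).op _ (jA _ (Jd.mul th_C k)) _ (jA _ k')).2,
        ← ((h7 y).op _ (jA _ (Jd.mul th_C k')) _ (jA _ k)).2, mul_right_comm]
  let t : Y.X → ℝ := fun y => Φ (g.th * b y) y / Φ (b y) y
  have t1 : ∀ y, ∀ c ∈ g.Jd, t y * Φ c y = Φ (g.th * c) y := fun y c k => by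
    rw [div_mul_eq_mul_div, cm y _ (b1 y) c k, mul_div_cancel_right₀ _ (b2 y)]
  have t2 : ∀ y, ∀ c ∈ g.Jd, Φ c y ≠ 0 → t y = Φ (g.th * c) y / Φ c y := fun y c k k' =>
    eq_div_of_mul_eq k' (t1 y c k)
  have t3 : t ∈ Y.C := by
    have k1 : Dm M fun z : (Y.X × ℚ) × (S.X → ℝ) => Φ z.2 z.1.1 :=
      (h6.comp Dm.id.snd).app Dm.id.fst.fst
    have k2 : Dm M fun c : S.X → ℝ => g.th * c :=
      Dm.lam ((Dm.capp th_C.1 Dm.id.snd).mul (Dm.id.fst.app Dm.id.snd))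
    refine ⟨lam_mem (Dm.ofLt ((Df.exS (P := fun (z : Y.X × ℚ) (c : S.X → ℝ) => Φ c z.1 ≠ 0 ∧
      (z.2 : ℝ) < Φ (g.th * c) z.1 / Φ c z.1) (Dm.const Jd_mem) ((Df.ne k1 (Dm.const zero_mem)).and
      (Df.qlt Dm.id.fst.snd (((h6.comp (k2.comp Dm.id.snd)).app Dm.id.fst.fst).div k1)))).congr
      fun z _ => ⟨fun k => ⟨_, b1 _, b2 _, k⟩, fun ⟨c, k, k', k''⟩ => (t2 _ c k k').symm ▸ k''⟩)),
      continuous_iff_continuousAt.2 fun y => ?_⟩
    have k3 := (h5.1 (jA _ (b1 y))).2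
    have k4 := (h5.1 (jA _ (Jd.mul (th_C (g := g)) (b1 y)))).2
    refine (k4.continuousAt.div k3.continuousAt (b2 y)).congr ?_
    exact (k3.continuousAt.eventually_ne (b2 y)).mono fun y' k => (t2 y' _ (b1 y) k).symm
  obtain ⟨a, a1, a2⟩ := h5.2.2 t3
  refine (th_not ((funext fun z => ?_ : a = g.th) ▸ a1)).elim
  obtain ⟨c, c1, c2⟩ := exists_Jd (h0 z)
  exact mul_right_cancel₀ c2 (congrFun (h5.2.1 (A.rn.mul _ a1 _ (jA _ c1)) (jA _ (Jd.mul th_C c1))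
    (funext fun y => ((h7 y).op _ a1 _ (jA _ c1)).2.trans (by rw [← t1 y c c1, ← a2]))) z)

end Gd

end Pool.Agent.Lib.MP_d63cb0_gt.H63
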