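import Pool.Agent.Lib.MP_d63cb0_gt.H15.Defs

namespace Pool.Agent.Lib.MP_d63cb0_gt.H63

open Pool.Agent.Lib.MP_fecf72_lc Pool.Agent.Lib.MP_d63cb0_gt.H15 Set

/-- In `M`, `h` is a point of the realcompactification: a real algebra homomorphism from `C(X)`
to the reals. -/
def IsPt (M : Set V) (S : Sp) (h : (S.X → ℝ) → ℝ) : Prop :=
  img (S.C M) (fun f => ZFSet.pair (S.fC f) (realC (h f))) ∈ M ∧
    (∀ f ∈ S.C M, ∀ g ∈ S.C M, h (f + g) = h f + h g ∧ h (f * g) = h f * h g) ∧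
    ∀ r, realC r ∈ M → h (fun _ => r) = r

/-- In `M`, the realcompactification is Lindelof: every cover by basic open sets
`{h | h f ≠ 0}` has a countable subcover. -/
def UpsLind (M : Set V) (S : Sp) : Prop :=
  ∀ F ⊆ S.C M, img F S.fC ∈ M → (∀ h, IsPt M S h → ∃ f ∈ F, h f ≠ 0) →
    ∃ F' ⊆ F, img F' S.fC ∈ M ∧ CtblIn M (img F' S.fC) ∧ ∀ h, IsPt M S h → ∃ f ∈ F', h f ≠ 0

/-- `κ` is `ω₁`-strongly compact: every `κ`-complete proper filter on any set extends to a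
countably complete ultrafilter. -/
def OmegaOneSC (κ : Cardinal.{1}) : Prop :=
  ∀ (L : Type 1) (F : Filter L), F.NeBot → CardinalInterFilter F κ →
    ∃ W : Ultrafilter L, (W : Filter L) ≤ F ∧ CountableInterFilter (W : Filter L)

end Pool.Agent.Lib.MP_d63cb0_gt.H63
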