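import Pool.Agent.Lib.MP_d63cb0_gt.H63.DfV

/-! A typed calculus of definable relations and functions over a transitive model. -/

set_option linter.unusedSectionVars false

namespace Pool.Agent.Lib.MP_d63cb0_gt.H63

open Pool.Agent.Lib.MP_fecf72_lc Pool.Agent.Lib.MP_d63cb0_gt.H15 Set

universe u v w

/-- types whose elements are coded by sets -/
class Cd (α : Type u) where
  cd : α → V
  inj : Function.Injective cd

export Cd (cd)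

instance cdV : Cd V := ⟨fun x => x, fun _ _ h => h⟩
instance cdNat : Cd ℕ := ⟨natC, natC_inj⟩
instance cdRat : Cd ℚ :=
  ⟨fun q => natC (Encodable.encode q), fun _ _ h => Encodable.encode_injective (natC_inj h)⟩
noncomputable instance cdReal : Cd ℝ := ⟨realC, realC_inj⟩
instance cdProd (α : Type u) (β : Type v) [Cd α] [Cd β] : Cd (α × β) :=
  ⟨fun z => ZFSet.pair (cd z.1) (cd z.2), fun _ _ h =>
    Prod.ext (Cd.inj (ZFSet.pair_inj.1 h).1) (Cd.inj (ZFSet.pair_inj.1 h).2)⟩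
noncomputable instance cdSet (α : Type) [Cd α] : Cd (Set α) := ⟨fun s => img s cd, img_inj Cd.inj⟩
noncomputable instance cdFun (α : Type) (β : Type v) [Cd α] [Cd β] : Cd (α → β) :=
  ⟨fun f => img univ fun a => ZFSet.pair (cd a) (cd (f a)), fun f g h => funext fun a => by
    have : ZFSet.pair (cd a) (cd (f a)) ∈ img univ fun a => ZFSet.pair (cd a) (cd (f a)) :=
      mem_img.2 ⟨a, trivial, rfl⟩
    rw [show img univ _ = img univ _ from h] at this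
    exact (Cd.inj ((pair_mem_gr Cd.inj).1 this).2).symm⟩

variable {M : Set V} {α : Type u} {β : Type v} {γ : Type w} [Cd α] [Cd β] [Cd γ]
  {ι κ : Type} [Cd ι] [Cd κ]

/-- definable properties of coded objects -/
def Df (M : Set V) (P : α → Prop) : Prop := ∃ Q, DfV M Q ∧ ∀ a, cd a ∈ M → (P a ↔ Q (cd a))

/-- definable functions of coded objects -/
def Dm (M : Set V) (g : α → β) : Prop := ∃ G, DmV M G ∧ ∀ a, cd a ∈ M → G (cd a) = cd (g a)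

/-- the codes form a definable class -/
class Rng (M : Set V) (β : Type v) [Cd β] : Prop where
  h : DfV M fun y => ∃ b : β, cd b = y

/-- the codes in `M` form a set of `M` -/
class Sg (M : Set V) (ι : Type) [Cd ι] : Prop where
  h : cd {b : ι | cd b ∈ M} ∈ M

/-- the codes form a set of `M` -/
class Sm (M : Set V) (ι : Type) [Cd ι] : Prop where
  h : cd (univ : Set ι) ∈ M

theorem mem_cd {s : Set ι} {y : V} : y ∈ (cd s : V) ↔ ∃ a ∈ s, cd a = y := mem_img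

theorem cd_mem_cd {s : Set ι} {a : ι} : (cd a : V) ∈ (cd s : V) ↔ a ∈ s := mem_img' Cd.inj

theorem cd_graph (f : ι → κ) : (cd f : V) = cd {z : ι × κ | f z.1 = z.2} :=
  ZFSet.ext fun _ => mem_img.trans (Iff.trans ⟨fun ⟨a, _, e⟩ => ⟨(a, f a), rfl, e⟩,
    fun ⟨⟨a, b⟩, e, e'⟩ => ⟨a, trivial, by rw [show f a = b from e]; exact e'⟩⟩ mem_cd.symm)

theorem cd_seq (f : ℕ → α) : (cd f : V) = seqC fun n => cd (f n) :=
  ZFSet.ext fun _ => mem_img.trans (Iff.trans ⟨fun ⟨a, _, e⟩ => ⟨a, e⟩,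
    fun ⟨a, e⟩ => ⟨a, trivial, e⟩⟩ ZFSet.mem_range.symm)

variable [Zf M]

theorem cd_prod {a : α} {b : β} : cd (a, b) ∈ M ↔ cd a ∈ M ∧ cd b ∈ M := pair_mem

theorem cd_of_mem {s : Set ι} (h : cd s ∈ M) {a : ι} (k : a ∈ s) : cd a ∈ M :=
  tr_mem h (cd_mem_cd.2 k)

theorem sm_mem [Sm M ι] (a : ι) : cd a ∈ M := cd_of_mem Sm.h (mem_univ a)

theorem cd_app {f : ι → β} (h : cd f ∈ M) (a : ι) : cd (f a) ∈ M :=
  (pair_mem.1 (tr_mem h (mem_img.2 ⟨a, trivial, rfl⟩))).2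

section
variable {P Q : α → Prop} {f g : α → β}

theorem Dm.maps (h : Dm M g) {a : α} (k : cd a ∈ M) : cd (g a) ∈ M :=
  let ⟨_, h1, h2⟩ := h; h2 a k ▸ h1.1 _ k

theorem Dm.congr (h : Dm M g) (k : ∀ a, cd a ∈ M → f a = g a) : Dm M f :=
  let ⟨G, h1, h2⟩ := h; ⟨G, h1, fun a e => (k a e).symm ▸ h2 a e⟩

theorem Dm.id : Dm M fun a : α => a := ⟨_, DmV.id, fun _ _ => rfl⟩

theorem Dm.const {b : β} (h : cd b ∈ M) : Dm M fun _ : α => b := ⟨_, DmV.const h, fun _ _ => rfl⟩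

theorem Dm.comp {F : β → γ} (h : Dm M F) (k : Dm M g) : Dm M fun a => F (g a) :=
  let ⟨_, h1, h2⟩ := h; let ⟨_, k1, k2⟩ := k
  ⟨_, h1.comp k1, fun a e => by rw [k2 a e, h2 _ (k.maps e)]⟩

theorem Dm.prod {g : α → γ} (h : Dm M f) (k : Dm M g) : Dm M fun a => (f a, g a) :=
  let ⟨_, h1, h2⟩ := h; let ⟨_, k1, k2⟩ := k
  ⟨_, h1.pair k1, fun a e => by rw [h2 a e, k2 a e]; rfl⟩

theorem Dm.fst {f : α → β × γ} (h : Dm M f) : Dm M fun a => (f a).1 :=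
  let ⟨G, a, b⟩ := exists_fst (M := M)
  Dm.comp (F := Prod.fst) ⟨G, a, fun _ e => b _ _ e⟩ h

theorem Dm.snd {f : α → β × γ} (h : Dm M f) : Dm M fun a => (f a).2 :=
  let ⟨G, a, b⟩ := exists_snd (M := M)
  Dm.comp (F := Prod.snd) ⟨G, a, fun _ e => b _ _ e⟩ h

theorem Dm.toV (h : Dm M f) : Dm M fun a => (cd (f a) : V) := h

theorem Dm.ofV (h : Dm M fun a => (cd (f a) : V)) : Dm M f := h

theorem Df.congr (h : Df M P) (k : ∀ a, cd a ∈ M → (Q a ↔ P a)) : Df M Q :=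
  let ⟨A, h1, h2⟩ := h; ⟨A, h1, fun a e => (k a e).trans (h2 a e)⟩

theorem Df.comp {P : β → Prop} (h : Df M P) (k : Dm M g) : Df M fun a => P (g a) :=
  let ⟨_, h1, h2⟩ := h; let ⟨_, k1, k2⟩ := k
  ⟨_, h1.comp k1, fun a e => by rw [k2 a e]; exact h2 _ (k.maps e)⟩

theorem Df.not (h : Df M P) : Df M fun a => ¬ P a :=
  let ⟨_, h1, h2⟩ := h; ⟨_, h1.not, fun a e => not_congr (h2 a e)⟩

theorem Df.and (h : Df M P) (k : Df M Q) : Df M fun a => P a ∧ Q a :=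
  let ⟨_, h1, h2⟩ := h; let ⟨_, k1, k2⟩ := k
  ⟨_, h1.and k1, fun a e => and_congr (h2 a e) (k2 a e)⟩

theorem Df.or (h : Df M P) (k : Df M Q) : Df M fun a => P a ∨ Q a :=
  (h.not.and k.not).not.congr fun _ _ => by tauto

theorem Df.imp (h : Df M P) (k : Df M Q) : Df M fun a => P a → Q a :=
  (h.and k.not).not.congr fun _ _ => by tauto

theorem Df.iff (h : Df M P) (k : Df M Q) : Df M fun a => P a ↔ Q a :=
  ((h.imp k).and (k.imp h)).congr fun _ _ => iff_iff_implies_and_implies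

theorem Df.eq (h : Dm M f) (k : Dm M g) : Df M fun a => f a = g a :=
  let ⟨_, h1, h2⟩ := h; let ⟨_, k1, k2⟩ := k
  ⟨_, DfV.eq h1 k1, fun a e => by rw [h2 a e, k2 a e, Cd.inj.eq_iff]⟩

theorem Df.ne (h : Dm M f) (k : Dm M g) : Df M fun a => f a ≠ g a := (Df.eq h k).not

theorem Df.memV {f g : α → V} (h : Dm M f) (k : Dm M g) : Df M fun a => f a ∈ g a :=
  let ⟨_, h1, h2⟩ := h; let ⟨_, k1, k2⟩ := k
  ⟨_, DfV.mem h1 k1, fun a e => by rw [h2 a e, k2 a e]; rfl⟩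

theorem Df.mem {f : α → ι} {s : α → Set ι} (h : Dm M f) (k : Dm M s) :
    Df M fun a => f a ∈ s a := (Df.memV h.toV k.toV).congr fun _ _ => cd_mem_cd.symm

end

section
variable {P : α → β → Prop}

theorem Df.exM [Rng M β] (h : Df M fun z : α × β => P z.1 z.2) :
    Df M fun a => ∃ b, cd b ∈ M ∧ P a b := by
  obtain ⟨Q, h1, h2⟩ := h
  obtain ⟨G, g1, g2⟩ := exists_snd (M := M)
  refine ⟨_, (h1.and ((Rng.h (β := β)).comp g1)).ex, fun a e => ⟨?_, ?_⟩⟩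
  · rintro ⟨b, k1, k2⟩
    exact ⟨_, k1, (h2 (a, b) (cd_prod.2 ⟨e, k1⟩)).1 k2, b, (g2 _ _ (pair_mem.2 ⟨e, k1⟩)).symm⟩
  · rintro ⟨y, k1, k2, b, k3⟩
    rw [g2 _ _ (pair_mem.2 ⟨e, k1⟩)] at k3
    subst k3
    exact ⟨b, k1, (h2 (a, b) (cd_prod.2 ⟨e, k1⟩)).2 k2⟩

theorem Df.allM [Rng M β] (h : Df M fun z : α × β => P z.1 z.2) :
    Df M fun a => ∀ b, cd b ∈ M → P a b :=
  (Df.exM (P := fun a b => ¬ P a b) h.not).not.congr fun _ _ => by simp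

instance rngV : Rng M V := ⟨(DfV.eq DmV.id DmV.id).congr fun x _ => ⟨fun _ => rfl, fun _ => ⟨x, rfl⟩⟩⟩

theorem Rng.of (h : Df M fun y : V => ∃ b : β, cd b = y) : Rng M β :=
  let ⟨_, h1, h2⟩ := h; ⟨h1.congr h2⟩

instance rngProd [Rng M α] [Rng M β] : Rng M (α × β) :=
  Rng.of ((Df.exM (P := fun (y : V) (a : α) => ∃ b : β, cd b ∈ M ∧ (cd (a, b) : V) = y)
    (Df.exM (Df.eq (Dm.id.fst.snd.prod Dm.id.snd).toV Dm.id.fst.fst))).congr fun _ e =>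
    ⟨fun ⟨⟨a, b⟩, k⟩ => have := cd_prod.1 (show cd (a, b) ∈ M from k ▸ e); ⟨a, this.1, b, this.2, k⟩,
      fun ⟨a, _, b, _, k⟩ => ⟨(a, b), k⟩⟩)

instance Sg.rng [Sg M ι] : Rng M ι :=
  Rng.of ((Df.memV Dm.id (Dm.const (β := V) (Sg.h (ι := ι)))).congr fun _ e => Iff.symm
    (mem_cd.trans ⟨fun ⟨a, _, k⟩ => ⟨a, k⟩, fun ⟨a, k⟩ => ⟨a, show cd a ∈ M from k ▸ e, k⟩⟩))

instance Sm.sg [Sm M ι] : Sg M ι :=
  ⟨(eq_univ_of_forall fun b => sm_mem (M := M) b : {b : ι | cd b ∈ M} = univ) ▸ Sm.h⟩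

theorem Dm.ofDf {g : α → β} (h : ∀ a, cd a ∈ M → cd (g a) ∈ M)
    (k : Df M fun z : α × V => cd (g z.1) = z.2) : Dm M g := by
  obtain ⟨Q, h1, h2⟩ := k
  obtain ⟨G, g1, g2⟩ := h1.two.fn
  exact ⟨G, g1, fun a e => g2 _ e _ (h a e) ((h2 (a, cd (g a)) (cd_prod.2 ⟨e, h a e⟩)).1 rfl)
    fun z hz k => ((h2 (a, z) (cd_prod.2 ⟨e, hz⟩)).2 k).symm⟩

end

section
variable {P : α → ι → Prop} {s : α → Set ι}

theorem Df.ex [Sm M ι] (h : Df M fun z : α × ι => P z.1 z.2) : Df M fun a => ∃ b, P a b :=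
  h.exM.congr fun _ _ => ⟨fun ⟨b, k⟩ => ⟨b, sm_mem b, k⟩, fun ⟨b, _, k⟩ => ⟨b, k⟩⟩

theorem Df.all [Sm M ι] (h : Df M fun z : α × ι => P z.1 z.2) : Df M fun a => ∀ b, P a b :=
  h.allM.congr fun _ _ => ⟨fun k b _ => k b, fun k b => k b (sm_mem b)⟩

theorem Df.exS [Rng M ι] (hs : Dm M s) (h : Df M fun z : α × ι => P z.1 z.2) :
    Df M fun a => ∃ b ∈ s a, P a b :=
  (Df.exM (P := fun a b => b ∈ s a ∧ P a b) ((Df.mem Dm.id.snd (hs.comp Dm.id.fst)).and h)).congr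
    fun _ e => ⟨fun ⟨b, k⟩ => ⟨b, cd_of_mem (hs.maps e) k.1, k⟩, fun ⟨b, _, k⟩ => ⟨b, k⟩⟩

theorem Df.allS [Rng M ι] (hs : Dm M s) (h : Df M fun z : α × ι => P z.1 z.2) :
    Df M fun a => ∀ b ∈ s a, P a b :=
  (Df.exS (P := fun a b => ¬ P a b) hs h.not).not.congr fun _ _ => by simp

theorem Df.sep {P : ι → Prop} (h : Df M P) {s : Set ι} (k : cd s ∈ M) : cd {a ∈ s | P a} ∈ M := by
  obtain ⟨Q, h1, h2⟩ := h
  obtain ⟨b, h3, h4⟩ := h1.sep k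
  refine (ZFSet.ext fun y => (h4 y).trans ?_ : b = cd {a ∈ s | P a}) ▸ h3
  simp only [mem_cd]
  exact ⟨fun ⟨⟨a, k1, e⟩, k2⟩ => ⟨a, ⟨k1, (h2 a (cd_of_mem k k1)).2 (e ▸ k2)⟩, e⟩,
    fun ⟨a, k1, e⟩ => ⟨⟨a, k1.1, e⟩, e ▸ (h2 a (cd_of_mem k k1.1)).1 k1.2⟩⟩

theorem Df.set [Sg M ι] {P : ι → Prop} (h : Df M P) (k : ∀ a, P a → cd a ∈ M) :
    cd {a | P a} ∈ M :=
  (Set.ext fun a => ⟨fun e => e.2, fun e => ⟨k a e, e⟩⟩ :
    {a ∈ {b : ι | cd b ∈ M} | P a} = {a | P a}) ▸ h.sep Sg.h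

theorem img_mem {g : ι → β} (h : Dm M g) {s : Set ι} (k : cd s ∈ M) :
    img s (fun b => cd (g b)) ∈ M := by
  obtain ⟨G, h1, h2⟩ := h
  obtain ⟨b, h3, h4⟩ := h1.2.coll k fun x hx => ⟨_, h1.1 x (tr_mem k hx), rfl⟩
  obtain ⟨F, f1, f2⟩ := exists_fst (M := M)
  obtain ⟨F', g1, g2⟩ := exists_snd (M := M)
  obtain ⟨c, h5, h6⟩ := ((DfV.mem g1 (DmV.const k)).and (DfV.eq (h1.comp g1) f1)).ex.sep h3
  refine (ZFSet.ext fun y => (h6 y).trans (Iff.trans ⟨?_, ?_⟩ mem_img.symm) : c = _) ▸ h5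
  · rintro ⟨k1, x, k2, k3, k4⟩
    have := pair_mem.2 ⟨tr_mem h3 k1, k2⟩
    rw [g2 _ _ this] at k3 k4
    obtain ⟨a, k5, rfl⟩ := mem_cd.1 k3
    exact ⟨a, k5, by rw [← h2 a k2, k4, f2 _ _ this]⟩
  · rintro ⟨a, k1, rfl⟩
    have k2 := cd_of_mem k k1
    obtain ⟨y, k3, k4⟩ := h4 _ (cd_mem_cd.2 k1)
    rw [h2 a k2] at k4
    subst k4
    have := pair_mem.2 ⟨tr_mem h3 k3, k2⟩
    exact ⟨k3, _, k2, by rw [g2 _ _ this]; exact cd_mem_cd.2 k1, by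
      rw [g2 _ _ this, f2 _ _ this, h2 a k2]⟩

theorem Dm.img [Rng M ι] {g : α → ι → β} (hs : Dm M s) (h : Dm M fun z : α × ι => g z.1 z.2) :
    Dm M fun a => (img (s a) fun b => cd (g a b) : V) := by
  have m : ∀ a, cd a ∈ M → MP_fecf72_lc.img (s a) (fun b => cd (g a b)) ∈ M := fun a e =>
    img_mem (h.comp ((Dm.const e).prod Dm.id)) (hs.maps e)
  refine Dm.ofDf m ((Df.allM (P := fun (z : α × V) (w : V) =>
    (∃ b ∈ s z.1, (cd (g z.1 b) : V) = w) ↔ w ∈ z.2) ((Df.exS (hs.comp Dm.id.fst.fst)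
      (Df.eq (h.comp (Dm.id.fst.fst.fst.prod Dm.id.snd)).toV Dm.id.fst.snd)).iff
      (Df.memV Dm.id.snd Dm.id.fst.snd))).congr fun z e => ?_)
  refine (ext_M (m _ (cd_prod.1 e).1) (cd_prod.1 e).2).trans ?_
  simp only [mem_img]
  rfl

theorem Dm.image [Rng M ι] {g : α → ι → κ} (hs : Dm M s) (h : Dm M fun z : α × ι => g z.1 z.2) :
    Dm M fun a => g a '' s a :=
  Dm.ofV ((hs.img h).congr fun _ _ => ZFSet.ext fun _ => by simp [mem_cd, mem_img])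

theorem Dm.lam [Sm M ι] {g : α → ι → β} (h : Dm M fun z : α × ι => g z.1 z.2) : Dm M g :=
  Dm.ofV (Dm.img (g := fun a b => (b, g a b)) (Dm.const Sm.h) (Dm.id.snd.prod h))

theorem lam_mem [Sm M ι] {g : ι → β} (h : Dm M g) : cd g ∈ M :=
  img_mem (g := fun b => (b, g b)) (Dm.id.prod h) Sm.h

theorem Dm.app {f : α → ι → β} {x : α → ι} (h : Dm M f) (k : Dm M x) :
    Dm M fun a => f a (x a) :=
  Dm.ofDf (fun _ e => cd_app (h.maps e) _) ((Df.memV ((k.comp Dm.id.fst).prod Dm.id.snd).toV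
    (h.comp Dm.id.fst).toV).congr fun _ _ => Iff.symm ((pair_mem_gr Cd.inj).trans (and_iff_right trivial)))

theorem Dm.capp {f : ι → β} {x : α → ι} (h : cd f ∈ M) (k : Dm M x) : Dm M fun a => f (x a) :=
  (Dm.const h).app k

theorem Dm.sep [Rng M ι] (hs : Dm M s) (h : Df M fun z : α × ι => P z.1 z.2) :
    Dm M fun a => {b ∈ s a | P a b} := by
  have m : ∀ a, cd a ∈ M → cd {b ∈ s a | P a b} ∈ M := fun a e =>
    Df.sep (h.comp ((Dm.const e).prod Dm.id)) (hs.maps e)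
  refine Dm.ofDf m ((Df.allM (P := fun (z : α × V) (w : V) =>
    (∃ b ∈ s z.1, P z.1 b ∧ (cd b : V) = w) ↔ w ∈ z.2) ((Df.exS (hs.comp Dm.id.fst.fst)
      ((h.comp (Dm.id.fst.fst.fst.prod Dm.id.snd)).and (Df.eq Dm.id.snd.toV Dm.id.fst.snd))).iff
      (Df.memV Dm.id.snd Dm.id.fst.snd))).congr fun z e => ?_)
  refine (ext_M (m _ (cd_prod.1 e).1) (cd_prod.1 e).2).trans ?_
  simp only [mem_cd, mem_ofPred_eq, and_assoc]
  rfl

theorem Dm.set [Sm M ι] (h : Df M fun z : α × ι => P z.1 z.2) : Dm M fun a => {b | P a b} :=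
  (Dm.sep (Dm.const Sm.h) h).congr fun _ _ => by simp

theorem Dm.ite {c : α → Prop} [DecidablePred c] {f g : α → β} (hc : Df M c) (h : Dm M f)
    (k : Dm M g) : Dm M fun a => if c a then f a else g a :=
  Dm.ofDf (fun a e => by split_ifs; exacts [h.maps e, k.maps e])
    ((((hc.comp Dm.id.fst).and (Df.eq (h.comp Dm.id.fst).toV Dm.id.snd)).or
      ((hc.comp Dm.id.fst).not.and (Df.eq (k.comp Dm.id.fst).toV Dm.id.snd))).congr fun z _ => by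
      by_cases e : c z.1 <;> simp [e])

end

theorem Sg.of [Rng M ι] {z : V} (hz : z ∈ M) (h : ∀ b : ι, cd b ∈ M → cd b ∈ z) : Sg M ι := by
  obtain ⟨b, h1, h2⟩ := (Rng.h (M := M) (β := ι)).sep hz
  refine ⟨(ZFSet.ext fun y => (h2 y).trans (Iff.trans ⟨?_, ?_⟩ mem_cd.symm) :
    b = cd {b : ι | cd b ∈ M}) ▸ h1⟩
  · rintro ⟨k, a, rfl⟩
    exact ⟨a, tr_mem (M := M) hz k, rfl⟩
  · rintro ⟨a, k, rfl⟩
    exact ⟨h a k, a, rfl⟩

theorem cd_pre {y : V} (h : ∀ w ∈ y, ∃ a : ι, cd a = w) : (cd {a : ι | cd a ∈ y} : V) = y :=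
  ZFSet.ext fun w => mem_cd.trans ⟨fun ⟨_, k, e⟩ => e ▸ k,
    fun k => let ⟨a, e⟩ := h w k; ⟨a, show cd a ∈ y from e ▸ k, e⟩⟩

instance sgSet [Sg M ι] : Sg M (Set ι) := by
  obtain ⟨y, h1, h2⟩ := Zf.h.power _ (Sg.h (M := M) (ι := ι))
  refine ⟨(ZFSet.ext fun w => Iff.trans ⟨fun k => ?_, ?_⟩ mem_cd.symm :
    y = cd {s : Set ι | cd s ∈ M}) ▸ h1⟩
  · have e := cd_pre (ι := ι) fun u hu =>
      (mem_cd.1 ((h2 w (tr_mem h1 k)).1 k hu)).imp fun _ => And.right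
    exact ⟨_, show cd _ ∈ M from e.symm ▸ tr_mem h1 k, e⟩
  · rintro ⟨s, k, rfl⟩
    refine (h2 _ k).2 fun u hu => ?_
    obtain ⟨a, k1, rfl⟩ := mem_cd.1 hu
    exact cd_mem_cd.2 (cd_of_mem (M := M) k k1)

theorem sUnion_mem {F : Set (Set ι)} (h : cd F ∈ M) : cd (⋃₀ F) ∈ M :=
  (ZFSet.ext fun w => by
    simp only [ZFSet.mem_sUnion, mem_cd]
    exact ⟨fun ⟨_, ⟨s, a, e⟩, b⟩ => let ⟨x, c, d⟩ := mem_cd.1 (e ▸ b : w ∈ (cd s : V))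
      ⟨x, ⟨s, a, c⟩, d⟩, fun ⟨x, ⟨s, a, c⟩, d⟩ => ⟨_, ⟨s, a, rfl⟩, mem_cd.2 ⟨x, c, d⟩⟩⟩ :
    ZFSet.sUnion (cd F) = cd (⋃₀ F)) ▸ Zf.h.union _ h

theorem image_mem {g : ι → κ} (h : Dm M g) {s : Set ι} (k : cd s ∈ M) : cd (g '' s) ∈ M :=
  (ZFSet.ext fun _ => by simp [mem_cd, mem_img] : img s (fun b => cd (g b)) = cd (g '' s)) ▸
    img_mem h k

theorem prod_mem [Rng M κ] {s : Set ι} {t : Set κ} (h : cd s ∈ M) (k : cd t ∈ M) :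
    cd (s ×ˢ t) ∈ M :=
  (Set.ext fun z => by
      simp only [mem_sUnion, mem_image, mem_prod]
      exact ⟨fun ⟨_, ⟨a, k1, e⟩, k2⟩ => by
        subst e
        obtain ⟨b, k3, rfl⟩ := k2
        exact ⟨k1, k3⟩, fun k => ⟨_, ⟨z.1, k.1, rfl⟩, z.2, k.2, rfl⟩⟩ :
    ⋃₀ ((fun a => Prod.mk a '' t) '' s) = s ×ˢ t) ▸
    sUnion_mem (image_mem (Dm.image (Dm.const k) (Dm.id.fst.prod Dm.id.snd)) h)

instance sgProd [Sg M ι] [Sg M κ] : Sg M (ι × κ) :=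
  Sg.of (prod_mem (Sg.h (ι := ι)) (Sg.h (ι := κ))) fun _ h => cd_mem_cd.2 (cd_prod (M := M).1 h)

instance smProd [Sm M ι] [Sm M κ] : Sm M (ι × κ) := ⟨univ_prod_univ ▸ prod_mem Sm.h Sm.h⟩

theorem exists_fun {s : Set (ι × κ)} (h : ∀ a, ∃! b, (a, b) ∈ s) :
    ∃ f : ι → κ, (cd f : V) = cd s ∧ ∀ a, (a, f a) ∈ s := by
  choose f h1 h2 using h
  exact ⟨f, (cd_graph f).trans (congrArg _ (Set.ext fun z =>
    ⟨fun e => by rw [← Prod.mk.eta (p := z), ← show f z.1 = z.2 from e]; exact h1 _,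
      fun e => (h2 _ _ e).symm⟩)), h1⟩

instance sgFun [Sm M ι] [Sg M κ] : Sg M (ι → κ) := by
  have : Rng M (ι → κ) := Rng.of ((Df.exM (P := fun (y : V) (s : Set (ι × κ)) =>
      (cd s : V) = y ∧ ∀ a, ∃ b, cd b ∈ M ∧ (a, b) ∈ s ∧ ∀ c, cd c ∈ M → (a, c) ∈ s → c = b)
      ((Df.eq Dm.id.snd.toV Dm.id.fst).and (Df.all (Df.exM
        ((Df.mem (Dm.id.fst.snd.prod Dm.id.snd) Dm.id.fst.fst.snd).and (Df.allM
          ((Df.mem (Dm.id.fst.fst.snd.prod Dm.id.snd) Dm.id.fst.fst.fst.snd).imp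
            (Df.eq Dm.id.snd Dm.id.fst.snd)))))))).congr fun y e => ⟨?_, ?_⟩)
  · exact Sg.of (Sg.h (ι := Set (ι × κ))) fun f h =>
      cd_graph f ▸ cd_mem_cd.2 (show cd _ ∈ M from cd_graph f ▸ h)
  · rintro ⟨f, rfl⟩
    exact ⟨_, cd_graph f ▸ e, (cd_graph f).symm, fun a => ⟨f a, cd_app e a, rfl,
      fun _ _ k => k.symm⟩⟩
  · rintro ⟨s, k1, rfl, k2⟩
    obtain ⟨f, k3, -⟩ := exists_fun (s := s) fun a => let ⟨b, _, k4, k5⟩ := k2 a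
      ⟨b, k4, fun c k => k5 c (cd_prod.1 (cd_of_mem k1 k)).2 k⟩
    exact ⟨f, k3⟩

/-- choice in the model -/
theorem Df.choice [Sm M ι] [Sg M κ] {P : ι → κ → Prop} (h : Df M fun z : ι × κ => P z.1 z.2)
    (k : ∀ a, ∃ b, cd b ∈ M ∧ P a b) : ∃ f : ι → κ, cd f ∈ M ∧ ∀ a, P a (f a) := by
  let t : Set (ι × κ) := {z ∈ {z | cd z ∈ M} | P z.1 z.2}
  have ht : cd t ∈ M := h.sep Sg.h
  have h1 : cd ((fun a => {z ∈ t | z.1 = a}) '' univ) ∈ M :=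
    image_mem (Dm.sep (P := fun (a : ι) (z : ι × κ) => z.1 = a) (Dm.const ht)
      (Df.eq Dm.id.snd.fst Dm.id.fst)) Sm.h
  obtain ⟨c, h2, h3⟩ := Zf.h.choice _ h1 (fun x hx e => by
    obtain ⟨_, ⟨a, -, rfl⟩, rfl⟩ := mem_cd.1 hx
    obtain ⟨b, k1, k2⟩ := k a
    exact ZFSet.notMem_empty _ (e ▸ cd_mem_cd.2 (show (a, b) ∈ {z ∈ t | z.1 = a} from
      ⟨⟨cd_prod (M := M).2 ⟨sm_mem a, k1⟩, k2⟩, rfl⟩))) fun x hx y hy e z k1 k2 => by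
    obtain ⟨_, ⟨a, -, rfl⟩, rfl⟩ := mem_cd.1 hx
    obtain ⟨_, ⟨b, -, rfl⟩, rfl⟩ := mem_cd.1 hy
    obtain ⟨u, k3, rfl⟩ := mem_cd.1 k1
    exact e (by rw [← k3.2, ← (cd_mem_cd.1 k2).2])
  obtain ⟨f, h4, h5⟩ := exists_fun (s := {z ∈ t | (cd z : V) ∈ c}) fun a => by
    obtain ⟨_, ⟨k1, k2⟩, k3⟩ := h3 _ (cd_mem_cd.2 ⟨a, trivial, rfl⟩)
    obtain ⟨⟨_, b⟩, ⟨k4, rfl⟩, rfl⟩ := mem_cd.1 k1
    exact ⟨b, ⟨k4, k2⟩, fun b' k5 =>
      (Prod.ext_iff.1 (Cd.inj (k3 _ ⟨cd_mem_cd.2 ⟨k5.1, rfl⟩, k5.2⟩))).2⟩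
  exact ⟨f, h4 ▸ Df.sep (Df.memV Dm.id.toV (Dm.const h2)) ht, fun a => (h5 a).1.2⟩

theorem finite_mem {s : Set ι} (h : s.Finite) (k : ∀ a ∈ s, cd a ∈ M) : cd s ∈ M := by
  induction s, h using Set.Finite.induction_on with
  | empty => exact (ZFSet.ext fun _ => by simp [mem_cd] : (∅ : V) = cd (∅ : Set ι)) ▸ empty_mem'
  | @insert a s _ _ ih =>
    have := Zf.h.union _ (Zf.h.pairing _ (Zf.h.pairing _ (k a (mem_insert _ _)) _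
      (k a (mem_insert _ _))) _ (ih fun b hb => k b (mem_insert_of_mem _ hb)))
    refine (ZFSet.ext fun w => ?_ : ZFSet.sUnion _ = cd (insert a s)) ▸ this
    simp [mem_cd, eq_comm]

end Pool.Agent.Lib.MP_d63cb0_gt.H63
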