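import Pool.Agent.Lib.MP_d63cb0_gt.H15.Base

/-! Definable relations and functions over a transitive model. -/

set_option linter.unusedSectionVars false

namespace Pool.Agent.Lib.MP_d63cb0_gt.H63

open Pool.Agent.Lib.MP_fecf72_lc Pool.Agent.Lib.MP_d63cb0_gt.H15 Set

/-- renaming of variables -/
def ren : Fm → (ℕ → ℕ) → Fm
  | .mem i j, σ => .mem (σ i) (σ j)
  | .eq i j, σ => .eq (σ i) (σ j)
  | .not φ, σ => .not (ren φ σ)
  | .and φ ψ, σ => .and (ren φ σ) (ren ψ σ)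
  | .all φ, σ => .all (ren φ fun i => Nat.casesOn i 0 fun i => σ i + 1)

variable {M : Set V}

theorem sat_ren (φ : Fm) : ∀ (σ : ℕ → ℕ) (v w : List V),
    (∀ i, w.getD i ∅ = v.getD (σ i) ∅) → (Sat M (ren φ σ) v ↔ Sat M φ w) := by
  induction φ with
  | mem i j => intro σ v w h; simp only [ren, Sat, h]
  | eq i j => intro σ v w h; simp only [ren, Sat, h]
  | not φ ih => intro σ v w h; simp only [ren, Sat, ih σ v w h]
  | and φ ψ i1 i2 => intro σ v w h; simp only [ren, Sat, i1 σ v w h, i2 σ v w h]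
  | all φ ih =>
    intro σ v w h
    simp only [ren, Sat]
    refine forall₂_congr fun x _ => ih _ _ _ fun i => ?_
    cases i with
    | zero => rfl
    | succ i => exact h i

/-- models of ZFC -/
class Zf (M : Set V) : Prop where
  h : IsZFC M

/-- definable relations of arity `n` -/
def DL (M : Set V) (n : ℕ) (P : List V → Prop) : Prop :=
  ∃ (φ : Fm) (v : List V), (∀ p ∈ v, p ∈ M) ∧
    ∀ l : List V, l.length = n → (∀ x ∈ l, x ∈ M) → (P l ↔ Sat M φ (l ++ v))

variable {n : ℕ} {P Q : List V → Prop}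

theorem gd_l {l v : List V} {i : ℕ} (h : i < l.length) : (l ++ v).getD i ∅ = l.getD i ∅ :=
  List.getD_append _ _ _ _ h

theorem gd_r {l v : List V} (i : ℕ) : (l ++ v).getD (l.length + i) ∅ = v.getD i ∅ := by
  rw [List.getD_append_right _ _ _ _ (Nat.le_add_right _ _), Nat.add_sub_cancel_left]

theorem DL.congr (h : DL M n P)
    (k : ∀ l : List V, l.length = n → (∀ x ∈ l, x ∈ M) → (Q l ↔ P l)) : DL M n Q :=
  let ⟨φ, v, a, b⟩ := h; ⟨φ, v, a, fun l c d => (k l c d).trans (b l c d)⟩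

theorem DL.mem {i j : ℕ} (_hi : i < n) (_hj : j < n) : DL M n fun l => l.getD i ∅ ∈ l.getD j ∅ :=
  ⟨.mem i j, [], by simp, fun l _ _ => by rw [List.append_nil]; rfl⟩

theorem DL.eq {i j : ℕ} (_hi : i < n) (_hj : j < n) : DL M n fun l => l.getD i ∅ = l.getD j ∅ :=
  ⟨.eq i j, [], by simp, fun l _ _ => by rw [List.append_nil]; rfl⟩

theorem DL.cst {i : ℕ} (hi : i < n) {c : V} (hc : c ∈ M) : DL M n fun l => c = l.getD i ∅ :=
  ⟨.eq n i, [c], by simpa using hc, fun l e _ => by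
    subst e
    rw [Sat, gd_l hi]
    exact (congrArg (· = _) (gd_r (v := [c]) 0)).symm.to_iff⟩

theorem DL.not (h : DL M n P) : DL M n fun l => ¬ P l :=
  let ⟨φ, v, a, b⟩ := h; ⟨.not φ, v, a, fun l c d => not_congr (b l c d)⟩

theorem DL.and (h : DL M n P) (k : DL M n Q) : DL M n fun l => P l ∧ Q l := by
  obtain ⟨φ, v, a, b⟩ := h
  obtain ⟨ψ, w, a', b'⟩ := k
  refine ⟨.and (ren φ fun i => if i < n + v.length then i else i + w.length)
    (ren ψ fun i => if i < n then i else i + v.length), v ++ w,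
    fun p hp => (List.mem_append.1 hp).elim (a p) (a' p), fun l c d => ?_⟩
  subst c
  refine and_congr ((b l rfl d).trans (sat_ren _ _ _ _ fun i => ?_).symm)
    ((b' l rfl d).trans (sat_ren _ _ _ _ fun i => ?_).symm)
  · split_ifs with h
    · rw [← List.append_assoc, gd_l (l := l ++ v) (by simpa using h)]
    · rw [List.getD_eq_default _ _ (by simp; omega), List.getD_eq_default _ _ (by simp; omega)]
  · split_ifs with h
    · rw [gd_l h, gd_l h]
    · obtain ⟨j, rfl⟩ := Nat.exists_eq_add_of_le (not_lt.1 h)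
      rw [gd_r, add_assoc, gd_r, add_comm j, gd_r]

theorem DL.ex (h : DL M (n + 1) P) : DL M n fun l => ∃ y ∈ M, P (y :: l) := by
  obtain ⟨φ, v, a, b⟩ := h
  refine ⟨.not (.all (.not φ)), v, a, fun l c d => ?_⟩
  simp only [Sat, not_forall, not_not, exists_prop]
  exact exists_congr fun y => and_congr_right fun hy =>
    b (y :: l) (by simp [c]) (List.forall_mem_cons.2 ⟨hy, d⟩)

theorem DL.or (h : DL M n P) (k : DL M n Q) : DL M n fun l => P l ∨ Q l :=
  (h.not.and k.not).not.congr fun _ _ _ => by tauto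

theorem DL.iff (h : DL M n P) (k : DL M n Q) : DL M n fun l => P l ↔ Q l :=
  ((h.and k).or (h.not.and k.not)).congr fun _ _ _ => by tauto

theorem DL.all (h : DL M (n + 1) P) : DL M n fun l => ∀ y ∈ M, P (y :: l) :=
  h.not.ex.not.congr fun _ _ _ => by simp

theorem gd_mem [Zf M] {l : List V} (h : ∀ x ∈ l, x ∈ M) {i : ℕ} (hi : i < l.length) :
    l.getD i ∅ ∈ M := by
  rw [List.getD_eq_getElem _ _ hi]
  exact h _ (List.getElem_mem hi)

/-- definable binary relations -/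
def D2 (M : Set V) (R : V → V → Prop) : Prop := DL M 2 fun l => R (l.getD 0 ∅) (l.getD 1 ∅)

theorem D2.at [Zf M] {R : V → V → Prop} (h : D2 M R) {i j : ℕ} (hi : i < n) (hj : j < n) :
    DL M n fun l => R (l.getD i ∅) (l.getD j ∅) := by
  obtain ⟨φ, v, a, b⟩ := h
  refine ⟨ren φ fun k => Nat.casesOn k i fun k => Nat.casesOn k j fun k => n + k, v, a,
    fun l c d => ?_⟩
  subst c
  refine (b [l.getD i ∅, l.getD j ∅] rfl (by simp [-List.getD_eq_getElem?_getD, gd_mem d hi,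
    gd_mem d hj])).trans (sat_ren _ _ _ _ fun k => ?_).symm
  rcases k with _ | _ | k
  exacts [(gd_l hi).symm, (gd_l hj).symm, (gd_r k).symm]

/-- definable properties -/
def DfV (M : Set V) (Q : V → Prop) : Prop := D2 M fun x _ => Q x

/-- definable functions -/
def DmV (M : Set V) (G : V → V) : Prop := (∀ x ∈ M, G x ∈ M) ∧ D2 M fun y x => G x = y

variable [Zf M]

theorem tr_mem {x y : V} (hx : x ∈ M) (h : y ∈ x) : y ∈ M := Zf.h.trans x hx y h

theorem pair_mem {x y : V} : ZFSet.pair x y ∈ M ↔ x ∈ M ∧ y ∈ M :=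
  ⟨zf_pair Zf.h, fun ⟨a, b⟩ => by
    have := Zf.h.pairing _ (Zf.h.pairing x a x a) _ (Zf.h.pairing x a y b)
    rwa [show ({x, x} : V) = {x} from ZFSet.ext fun _ => by simp] at this⟩

theorem DfV.fm {Q : V → Prop} (h : DfV M Q) :
    ∃ (φ : Fm) (v : List V), (∀ p ∈ v, p ∈ M) ∧ ∀ x ∈ M, (Q x ↔ Sat M φ (x :: v)) :=
  let ⟨φ, v, a, b⟩ := D2.at (n := 1) h one_pos one_pos
  ⟨φ, v, a, fun x hx => b [x] rfl (by simpa using hx)⟩

theorem DfV.sep {Q : V → Prop} (h : DfV M Q) {a : V} (ha : a ∈ M) :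
    ∃ b ∈ M, ∀ x, x ∈ b ↔ x ∈ a ∧ Q x := by
  obtain ⟨φ, v, h1, h2⟩ := h.fm
  obtain ⟨b, h3, h4⟩ := Zf.h.separation φ v h1 a ha
  exact ⟨b, h3, fun x => (h4 x).trans (and_congr_right fun k => (h2 x (tr_mem ha k)).symm)⟩

theorem D2.coll {R : V → V → Prop} (h : D2 M R) {a : V} (ha : a ∈ M)
    (k : ∀ x ∈ a, ∃ y ∈ M, R y x) : ∃ b ∈ M, ∀ x ∈ a, ∃ y ∈ b, R y x := by
  obtain ⟨φ, v, h1, h2⟩ := h
  have e : ∀ x ∈ a, ∀ y ∈ M, (R y x ↔ Sat M φ (y :: x :: v)) := fun x hx y hy =>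
    h2 [y, x] rfl (by simp [hy, tr_mem ha hx])
  obtain ⟨b, h3, h4⟩ := Zf.h.collection φ v h1 a ha fun x hx =>
    let ⟨y, a, b⟩ := k x hx; ⟨y, a, (e x hx y a).1 b⟩
  exact ⟨b, h3, fun x hx => let ⟨y, a, b⟩ := h4 x hx; ⟨y, a, (e x hx y (tr_mem h3 a)).2 b⟩⟩

theorem empty_mem' : (∅ : V) ∈ M := let ⟨_, a, b, _⟩ := (Zf.h (M := M)).infinity; tr_mem a b

theorem ext_M {x y : V} (hx : x ∈ M) (hy : y ∈ M) : x = y ↔ ∀ z ∈ M, (z ∈ x ↔ z ∈ y) :=
  ⟨fun e _ _ => e ▸ Iff.rfl, fun h => ZFSet.ext fun z =>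
    ⟨fun k => (h z (tr_mem hx k)).1 k, fun k => (h z (tr_mem hy k)).2 k⟩⟩

theorem DL.upair {i j k : ℕ} (hi : i < n) (hj : j < n) (hk : k < n) :
    DL M n fun l => ({l.getD j ∅, l.getD k ∅} : V) = l.getD i ∅ :=
  (((DL.eq (i := 0) (j := j + 1) (by omega) (by omega)).or
    (DL.eq (i := 0) (j := k + 1) (by omega) (by omega))).iff
    (DL.mem (i := 0) (j := i + 1) (by omega) (by omega))).all.congr fun l c d => by
      subst c
      rw [ext_M (Zf.h.pairing _ (gd_mem d hj) _ (gd_mem d hk)) (gd_mem d hi)]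
      simp only [ZFSet.mem_pair, List.getD_cons_zero, List.getD_cons_succ]

theorem DL.pair {i j k : ℕ} (hi : i < n) (hj : j < n) (hk : k < n) :
    DL M n fun l => ZFSet.pair (l.getD j ∅) (l.getD k ∅) = l.getD i ∅ :=
  ((DL.upair (i := 0) (j := j + 2) (k := j + 2) (by omega) (by omega) (by omega)).and
    ((DL.upair (i := 1) (j := j + 2) (k := k + 2) (by omega) (by omega) (by omega)).and
    (DL.upair (i := i + 2) (j := 0) (k := 1) (by omega) (by omega) (by omega)))).ex.ex.congr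
    fun l c d => by
      subst c
      simp only [List.getD_cons_zero, List.getD_cons_succ]
      have e : ∀ x : V, ({x, x} : V) = {x} := fun x => ZFSet.ext fun _ => by simp
      constructor
      · intro h
        exact ⟨_, Zf.h.pairing _ (gd_mem d hj) _ (gd_mem d hk), _,
          Zf.h.pairing _ (gd_mem d hj) _ (gd_mem d hj), rfl, rfl, by rw [e]; exact h⟩
      · rintro ⟨_, -, _, -, rfl, rfl, h⟩
        rwa [e] at h

variable {F G : V → V} {A B : V → Prop}

theorem DfV.congr (h : DfV M A) (k : ∀ x ∈ M, (B x ↔ A x)) : DfV M B :=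
  DL.congr h fun _ c d => k _ (gd_mem d (by omega))

theorem DfV.not (h : DfV M A) : DfV M fun x => ¬ A x := DL.not h

theorem DfV.and (h : DfV M A) (k : DfV M B) : DfV M fun x => A x ∧ B x := DL.and h k

theorem DmV.id : DmV M fun x => x := ⟨fun _ h => h, DL.eq (by omega) (by omega)⟩

theorem DmV.const {c : V} (h : c ∈ M) : DmV M fun _ => c := ⟨fun _ _ => h, DL.cst (by omega) h⟩

theorem D2.comp {R : V → V → Prop} (h : D2 M R) (hF : DmV M F) (hG : DmV M G) :
    DfV M fun x => R (F x) (G x) :=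
  ((hF.2.at (n := 4) (i := 0) (j := 2) (by omega) (by omega)).and
    ((hG.2.at (i := 1) (j := 2) (by omega) (by omega)).and
    (h.at (i := 0) (j := 1) (by omega) (by omega)))).ex.ex.congr fun l c d => by
      have := gd_mem d (i := 0) (by omega)
      simp only [List.getD_cons_zero, List.getD_cons_succ]
      exact ⟨fun h => ⟨_, hG.1 _ this, _, hF.1 _ this, rfl, rfl, h⟩,
        fun ⟨_, _, _, _, a, b, h⟩ => a ▸ b ▸ h⟩

theorem DfV.comp (h : DfV M A) (hF : DmV M F) : DfV M fun x => A (F x) := D2.comp h hF hF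

theorem DfV.mem (hF : DmV M F) (hG : DmV M G) : DfV M fun x => F x ∈ G x :=
  D2.comp (R := fun a b => a ∈ b) (DL.mem (by omega) (by omega)) hF hG

theorem DfV.eq (hF : DmV M F) (hG : DmV M G) : DfV M fun x => F x = G x :=
  D2.comp (R := fun a b => a = b) (DL.eq (by omega) (by omega)) hF hG

theorem DfV.two (h : DfV M A) : D2 M fun y x => A (ZFSet.pair x y) :=
  ((DL.pair (n := 3) (i := 0) (j := 2) (k := 1) (by omega) (by omega) (by omega)).and
    (D2.at h (i := 0) (j := 0) (by omega) (by omega))).ex.congr fun l c d => by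
      simp only [List.getD_cons_zero, List.getD_cons_succ]
      exact ⟨fun h => ⟨_, pair_mem.2 ⟨gd_mem d (by omega), gd_mem d (by omega)⟩, rfl, h⟩,
        fun ⟨_, _, a, h⟩ => a ▸ h⟩

theorem DfV.ex (h : DfV M A) : DfV M fun x => ∃ y ∈ M, A (ZFSet.pair x y) :=
  (h.two.at (n := 3) (i := 0) (j := 1) (by omega) (by omega)).ex

theorem DmV.comp (hF : DmV M F) (hG : DmV M G) : DmV M fun x => F (G x) :=
  ⟨fun x h => hF.1 _ (hG.1 x h), ((hG.2.at (n := 3) (i := 0) (j := 2) (by omega) (by omega)).and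
    (hF.2.at (i := 1) (j := 0) (by omega) (by omega))).ex.congr fun l c d => by
      simp only [List.getD_cons_zero, List.getD_cons_succ]
      exact ⟨fun h => ⟨_, hG.1 _ (gd_mem d (by omega)), rfl, h⟩, fun ⟨_, _, a, h⟩ => a ▸ h⟩⟩

theorem DmV.pair (hF : DmV M F) (hG : DmV M G) : DmV M fun x => ZFSet.pair (F x) (G x) :=
  ⟨fun x h => pair_mem.2 ⟨hF.1 x h, hG.1 x h⟩,
    ((hF.2.at (n := 4) (i := 0) (j := 3) (by omega) (by omega)).and
    ((hG.2.at (i := 1) (j := 3) (by omega) (by omega)).and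
    (DL.pair (i := 2) (j := 0) (k := 1) (by omega) (by omega) (by omega)))).ex.ex.congr
    fun l c d => by
      have := gd_mem d (i := 1) (by omega)
      simp only [List.getD_cons_zero, List.getD_cons_succ]
      exact ⟨fun h => ⟨_, hG.1 _ this, _, hF.1 _ this, rfl, rfl, h⟩,
        fun ⟨_, _, _, _, a, b, h⟩ => a ▸ b ▸ h⟩⟩

/-- a definable relation that is a function on part of the model -/
theorem D2.fn {R : V → V → Prop} (h : D2 M R) : ∃ G, DmV M G ∧
    ∀ x ∈ M, ∀ y ∈ M, R y x → (∀ z ∈ M, R z x → z = y) → G x = y := by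
  classical
  let T : V → V → Prop := fun y x => R y x ∧ ∀ z ∈ M, ¬ (R z x ∧ ¬ z = y)
  have hT : D2 M T := DL.and h ((h.at (n := 3) (i := 0) (j := 2) (by omega) (by omega)).and
    (DL.eq (i := 0) (j := 1) (by omega) (by omega)).not).not.all
  have u : ∀ x (h : ∃ y ∈ M, T y x), ∀ y ∈ M, T y x → h.choose = y := fun x h y _ k =>
    not_not.1 fun e => k.2 _ h.choose_spec.1 ⟨h.choose_spec.2.1, e⟩
  refine ⟨fun x => if h : ∃ y ∈ M, T y x then h.choose else ∅, ⟨fun x _ => ?_, ?_⟩,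
    fun x _ y hy k k' => ?_⟩
  · dsimp only
    split_ifs with h
    exacts [h.choose_spec.1, empty_mem']
  · refine (DL.or hT ((hT.at (n := 3) (i := 0) (j := 2) (by omega) (by omega)).ex.not.and
      (DL.cst (i := 0) (by omega) empty_mem'))).congr fun l c d => ?_
    simp only [List.getD_cons_zero, List.getD_cons_succ]
    split_ifs with h
    · exact ⟨fun e => Or.inl (e ▸ h.choose_spec.2),
        fun k => k.elim (u _ h _ (gd_mem d (by omega))) fun k => (k.1 h).elim⟩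
    · exact ⟨fun e => Or.inr ⟨h, e⟩,
        fun k => k.elim (fun k => (h ⟨_, gd_mem d (by omega), k⟩).elim) fun k => k.2⟩
  · have : T y x := ⟨k, fun z hz a => a.2 (k' z hz a.1)⟩
    exact (dif_pos ⟨y, hy, this⟩).trans (u x _ y hy this)

theorem exists_fst : ∃ G, DmV M G ∧ ∀ x y, ZFSet.pair x y ∈ M → G (ZFSet.pair x y) = x :=
  let ⟨G, a, b⟩ := D2.fn (M := M) (R := fun y x => ∃ z ∈ M, ZFSet.pair y z = x)
    (DL.pair (n := 3) (i := 2) (j := 1) (k := 0) (by omega) (by omega) (by omega)).ex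
  ⟨G, a, fun x y h => b _ h _ (pair_mem.1 h).1 ⟨y, (pair_mem.1 h).2, rfl⟩
    fun _ _ ⟨_, _, e⟩ => (ZFSet.pair_inj.1 e).1⟩

theorem exists_snd : ∃ G, DmV M G ∧ ∀ x y, ZFSet.pair x y ∈ M → G (ZFSet.pair x y) = y :=
  let ⟨G, a, b⟩ := D2.fn (M := M) (R := fun y x => ∃ z ∈ M, ZFSet.pair z y = x)
    (DL.pair (n := 3) (i := 2) (j := 0) (k := 1) (by omega) (by omega) (by omega)).ex
  ⟨G, a, fun x y h => b _ h _ (pair_mem.1 h).2 ⟨x, (pair_mem.1 h).1, rfl⟩
    fun _ _ ⟨_, _, e⟩ => (ZFSet.pair_inj.1 e).2⟩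

end Pool.Agent.Lib.MP_d63cb0_gt.H63
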