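import Pool.Agent.Lib.MP_d63cb0_gt.H63.Core

/-! Independent switches give types. -/

set_option linter.unusedSectionVars false

namespace Pool.Agent.Lib.MP_d63cb0_gt.H63

open Pool.Agent.Lib.MP_fecf72_lc Pool.Agent.Lib.MP_d63cb0_gt.H15 Set Topology Filter

variable {M : Set V} [Good M] {S : TS M} {I : Set (S.X → ℝ)} {h : S.X → ℝ}

theorem Idl.merge (hI : Idl S I) {P : ℕ → (ℕ → S.X → ℝ) → Prop}
    (h1 : Df M fun z : ℕ × (ℕ → S.X → ℝ) => P z.1 z.2)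
    (h2 : ∀ m, ∃ u, cd u ∈ M ∧ (∀ n, u n ∈ I) ∧ P m u) : ∃ w : ℕ → S.X → ℝ, cd w ∈ M ∧
      (∀ n, w n ∈ I) ∧ ∀ m, ∃ u, P m u ∧ ∀ x, (∀ n, w n x = 0) → ∀ n, u n x = 0 := by
  obtain ⟨U, a, b⟩ := Df.choice (M := M) (P := fun (m : ℕ) (u : ℕ → S.X → ℝ) =>
    (∀ n, u n ∈ I) ∧ P m u) ((Df.all (P := fun (z : ℕ × (ℕ → S.X → ℝ)) n => z.2 n ∈ I)
      (Df.mem (Dm.id.fst.snd.app Dm.id.snd) (Dm.const hI.mem))).and h1) h2
  exact ⟨fun n => U n.unpair.1 n.unpair.2, lam_mem ((Dm.capp a Dm.id.unpair.fst).app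
    Dm.id.unpair.snd), fun n => (b _).1 _, fun m => ⟨U m, (b m).2, fun x k n => by
      simpa using k (Nat.pair m n)⟩⟩

/-- the countable closure of `I` on a bounded part -/
def cl (I : Set (S.X → ℝ)) (h : S.X → ℝ) (m : ℕ) : Set (S.X → ℝ) :=
  {v ∈ S.C | ∃ u : ℕ → S.X → ℝ, cd u ∈ M ∧ (∀ n, u n ∈ I) ∧
    ∀ x, (∀ n, u n x = 0) → h x ≤ m → v x = 0}

theorem Idl.sub_cl (hI : Idl S I) (m : ℕ) : I ⊆ cl I h m := fun v k =>
  ⟨hI.sub k, fun _ => v, lam_mem (Dm.const (hI.sub k).1), fun _ => k, fun _ a _ => a 0⟩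

theorem Idl.exists_cl (hI : Idl S I) (hh : h ∈ S.C) : ∃ m, Sid S (cl I h m) := by
  have h1 := hI.mem
  have h2 := hh.1
  obtain ⟨m, hm⟩ : ∃ m : ℕ, ∀ u : ℕ → S.X → ℝ, cd u ∈ M → (∀ n, u n ∈ I) →
      ∃ x, (∀ n, u n x = 0) ∧ h x ≤ m := by
    by_contra k
    simp only [not_exists, not_forall, not_and, exists_prop] at k
    obtain ⟨w, a, b, c⟩ := hI.merge (P := fun m u => ∀ x, (∀ n, u n x = 0) → ¬ h x ≤ m) (by
      apply_rules (maxDepth := 400) (transparency := .reducible) [Df.all, Df.not, Df.imp, Df.eq,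
        Df.le, Dm.id, Dm.fst, Dm.snd, Dm.natCast, Dm.const, Dm.app, zero_mem]) k
    obtain ⟨x, d⟩ := hI.cip w a b
    obtain ⟨m, e⟩ := exists_nat_ge (h x)
    obtain ⟨u, c1, c2⟩ := c m
    exact c1 x (c2 x d) e
  have h3 := nat_mem (M := M) m
  refine ⟨m, Df.sep (by
    apply_rules (maxDepth := 400) (transparency := .reducible) [Df.exM, Df.and, Df.all, Df.imp,
      Df.eq, Df.mem, Df.le, Dm.id, Dm.fst, Dm.snd, Dm.const, Dm.app, zero_mem]) TS.C_mem,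
    sep_subset _ _, fun v ⟨_, u, a, b, c⟩ => let ⟨x, d, e⟩ := hm u a b; ⟨x, c x d e⟩,
    fun v a b => ⟨TS.sp_C a fun n => (b n).1, ?_⟩⟩
  obtain ⟨w, c, d, e⟩ := hI.merge (P := fun i u => ∀ x, (∀ n, u n x = 0) → h x ≤ m → v i x = 0) (by
    apply_rules (maxDepth := 400) (transparency := .reducible) [Df.all, Df.imp, Df.eq,
      Df.le, Dm.id, Dm.fst, Dm.snd, Dm.const, Dm.app, zero_mem]) fun i => (b i).2
  exact ⟨w, c, d, fun x k k' => sp_zero.2 fun i => let ⟨_, e1, e2⟩ := e i; e1 x (e2 x k) k'⟩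

/-- the contribution of one switch -/
noncomputable def tm (h : S.X → ℝ) (z : Tu S) (x : S.X) : ℝ :=
  min (min (h x - z.1 + 1) (z.1 + 2 - h x)) (min (min 1 (z.2.1 / (z.1 + 1)))
    ((z.2.2.2.2 x - z.2.2.1) / (z.2.2.2.1 - z.2.2.1)))

/-- the function given by a set of switches -/
noncomputable def sw (h : S.X → ℝ) (Z : Set (Tu S)) (x : S.X) : ℝ :=
  sSup (insert 0 ((tm h · x) '' Z))

theorem sw_bdd {Z : Set (Tu S)} {x : S.X} : BddAbove (insert 0 ((tm h · x) '' Z)) :=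
  ⟨1, by
    rintro _ (rfl | ⟨z, -, rfl⟩)
    exacts [zero_le_one, (min_le_right _ _).trans ((min_le_left _ _).trans (min_le_left _ _))]⟩

theorem sw_le {Z : Set (Tu S)} {x : S.X} {c : ℝ} (h0 : 0 ≤ c) (k : ∀ z ∈ Z, tm h z x ≤ c) :
    sw h Z x ≤ c := csSup_le (insert_nonempty _ _) (by
  rintro _ (rfl | ⟨z, a, rfl⟩)
  exacts [h0, k z a])

theorem le_sw {Z : Set (Tu S)} {x : S.X} {z : Tu S} (k : z ∈ Z) : tm h z x ≤ sw h Z x :=
  le_csSup sw_bdd (Or.inr ⟨z, k, rfl⟩)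

theorem sw_nonneg {Z : Set (Tu S)} {x : S.X} : 0 ≤ sw h Z x := le_csSup sw_bdd (Or.inl rfl)

theorem dm_sw (hh : cd h ∈ M) : Dm M (sw h) := by
  refine Dm.lam (Dm.ofLt ((Df.or (P := fun w : (Set (Tu S) × S.X) × ℚ => (w.2 : ℝ) < 0)
    (Q := fun w => ∃ z ∈ w.1.1, (w.2 : ℝ) < tm h z w.1.2) ?_ ?_).congr fun w _ =>
      (lt_csSup_iff sw_bdd (insert_nonempty _ _)).trans (by simp)))
  · exact Df.qlt Dm.id.snd (Dm.const zero_mem)
  unfold tm
  apply_rules (maxDepth := 400) (transparency := .reducible) [Df.exS, Df.qlt, Dm.id, Dm.fst, Dm.snd,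
    Dm.min, Dm.add, Dm.sub, Dm.div, Dm.natCast, Dm.ratCast, Dm.const, Dm.app, one_mem, two_mem]

theorem sw_cont (hh : Continuous h) {Z : Set (Tu S)} (h1 : ∀ z ∈ Z, Continuous z.2.2.2.2)
    (h2 : ∀ n, {z ∈ Z | z.1 = n}.Finite) : Continuous (sw h Z) := by
  have h3 : ∀ F : Set (Tu S), F.Finite → F ⊆ Z → Continuous (sw h F) := fun F a b => by
    induction F, a using Set.Finite.induction_on with
    | empty => exact (continuous_const (y := (0 : ℝ))).congr fun x => by simp [sw]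
    | @insert z F _ _ ih =>
      have := h1 z (b (mem_insert _ _))
      refine ((show Continuous (tm h z) by unfold tm; fun_prop).max
        (ih ((subset_insert _ _).trans b))).congr fun x => ?_
      rw [sw, sw, image_insert_eq, insert_comm, csSup_insert sw_bdd (insert_nonempty _ _)]
  refine continuous_iff_continuousAt.2 fun x0 => ?_
  obtain ⟨m, hm⟩ := exists_nat_gt (h x0)
  refine (h3 {z ∈ Z | z.1 ≤ m} (((finite_le_nat m).biUnion fun n _ => h2 n).subset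
    fun z k => mem_biUnion k.2 ⟨k.1, rfl⟩) (sep_subset _ _)).continuousAt.congr
    ((hh.continuousAt.eventually (gt_mem_nhds hm)).mono fun x k => le_antisymm
      (sw_le sw_nonneg fun z a => le_sw a.1) (sw_le sw_nonneg fun z a => ?_))
  rcases le_or_gt z.1 m with e | e
  · exact le_sw ⟨a, e⟩
  · have : (m : ℝ) + 1 ≤ z.1 := by exact_mod_cast e
    exact (min_le_left _ _).trans ((min_le_left _ _).trans (le_trans (by linarith) sw_nonneg))

theorem sw_eq {Z : Set (Tu S)} {x : S.X} {n k j : ℕ} (h1 : (n : ℝ) ≤ h x) (h2 : h x ≤ n + 1)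
    (h3 : n % 2 = j) (h4 : k ≤ n) (h5 : ∀ z ∈ Z, z.1 % 2 = j ∧ z.2.2.1 < z.2.2.2.1)
    (h6 : ∃ z ∈ Z, z.1 = n ∧ z.2.1 = k ∧ (z.2.2.2.1 : ℝ) ≤ z.2.2.2.2 x)
    (h7 : ∀ z ∈ Z, z.1 = n → z.2.1 ≠ k → z.2.2.2.2 x ≤ z.2.2.1) : sw h Z x = k / (n + 1) := by
  have e : ∀ z ∈ Z, (0 : ℝ) < z.2.2.2.1 - z.2.2.1 := fun z a =>
    sub_pos.2 (Rat.cast_lt.2 (h5 z a).2)
  have e0 : (0 : ℝ) ≤ k / (n + 1) := by positivity
  refine le_antisymm (sw_le e0 fun z a => ?_) ?_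
  · rcases lt_trichotomy z.1 n with b | b | b
    · have : (z.1 : ℝ) + 2 ≤ n := by exact_mod_cast (by have := (h5 z a).1; omega : z.1 + 2 ≤ n)
      exact (min_le_left _ _).trans ((min_le_right _ _).trans (by linarith))
    · by_cases c : z.2.1 = k
      · exact (min_le_right _ _).trans ((min_le_left _ _).trans ((min_le_right _ _).trans_eq
          (by rw [b, c])))
      · exact (min_le_right _ _).trans ((min_le_right _ _).trans ((div_nonpos_of_nonpos_of_nonneg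
          (sub_nonpos.2 (h7 z a b c)) (e z a).le).trans e0))
    · have : (n : ℝ) + 2 ≤ z.1 := by exact_mod_cast (by have := (h5 z a).1; omega : n + 2 ≤ z.1)
      exact (min_le_left _ _).trans ((min_le_left _ _).trans (by linarith))
  · obtain ⟨z, a, rfl, rfl, b⟩ := h6
    have e1 : (z.2.1 : ℝ) / (z.1 + 1) ≤ 1 :=
      (div_le_one (by positivity)).2 (by exact_mod_cast h4.trans (Nat.le_succ _))
    exact le_trans (le_min (le_min (by linarith) (by linarith)) (le_min (le_min e1 le_rfl)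
      (e1.trans ((one_le_div (e z a)).2 (by linarith))))) (le_sw a)

theorem tt_mem (r : ℝ) : 0 < tt r ∧ tt r < 1 := by
  have : |r / (1 + |r|)| < 1 := by
    rw [abs_div, abs_of_pos (a := 1 + |r|) (by positivity), div_lt_one (by positivity)]
    linarith
  have := abs_lt.1 this
  unfold tt
  constructor <;> linarith

theorem st_KEY : St_KEY := by
  intro M _ S I h j ι R f Z hc hI hi
  obtain ⟨m, hm⟩ := hI.exists_cl hi.hh
  have u0 : (fun x => max (h x - m) 0) ∈ cl I h m :=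
    ⟨⟨lam_mem (((Dm.capp hi.hh.1 Dm.id).sub (Dm.const (nat_mem m))).max (Dm.const zero_mem)),
      (hi.hh.2.sub continuous_const).max continuous_const⟩, fun _ _ => 0,
      lam_mem (Dm.const (hI.sub hI.zero).1), fun _ => hI.zero, fun x _ k =>
        max_eq_right (sub_nonpos.2 k)⟩
  have hE : cd ((fun ξ => (f ξ, sw h (Z ξ))) '' R) ∈ M := by
    have := image_mem (g := fun p : (S.X → ℝ) × Set (Tu S) => (p.1, sw h p.2))
      (Dm.id.fst.prod ((dm_sw hi.hh.1).comp Dm.id.snd)) hi.mem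
    rwa [image_image] at this
  obtain ⟨Γ, k⟩ := Gd.typ ⟨cl I h m, h, m, _, _, hm, hi.hh, u0, fun x k =>
    sub_nonpos.1 ((le_max_left _ _).trans_eq k), hE, (by
      rintro _ ⟨ξ, a, rfl⟩
      exact ⟨hi.hf ξ a, (cd_prod.1 (cd_of_mem hE ⟨ξ, a, rfl⟩)).2, sw_cont hi.hh.2
        (fun z b => (hi.hZ ξ a z b).2.2.2) (hi.fin ξ a)⟩), fun F a b x0 k => by
      obtain ⟨s, s1, s2, rfl⟩ := b.exists_subset_finite_image_eq a
      have e : (0 : ℝ) < (((2 * k + 1 : ℕ) : ℝ) + 1)⁻¹ := by positivity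
      choose v v1 v2 using fun ξ => exists_rat_btwn (show tt (f ξ x0) <
        min 1 (tt (f ξ x0) + (((2 * k + 1 : ℕ) : ℝ) + 1)⁻¹) from
          lt_min (tt_mem _).2 (lt_add_of_pos_right _ e))
      obtain ⟨n, n1, n2, x, x1, x2, x3⟩ := hi.ind s2.toFinset v (by simpa using s1) (2 * k + 1)
      have n3 : ((2 * k + 1 : ℕ) : ℝ) ≤ n := Nat.cast_le.2 n1
      refine ⟨x, lt_of_lt_of_le (by exact_mod_cast (by omega : k < n)) x1, ?_⟩
      rintro _ ⟨ξ, c, rfl⟩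
      have v0 : (0 : ℝ) < v ξ := (tt_mem _).1.trans (v1 ξ)
      have v3 := lt_min_iff.1 (v2 ξ)
      have v4 : (0 : ℚ) ≤ ((n : ℚ) + 1) * v ξ := mul_nonneg (by positivity) (by exact_mod_cast v0.le)
      have p1 : ((pat (v ξ) n : ℕ) : ℝ) ≤ (n + 1) * v ξ := by
        unfold pat
        exact_mod_cast Nat.floor_le v4
      have p2 : ((n : ℝ) + 1) * v ξ < (pat (v ξ) n : ℕ) + 1 := by
        unfold pat
        exact_mod_cast Nat.lt_floor_add_one (((n : ℚ) + 1) * v ξ)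
      have n0 : (0 : ℝ) < n + 1 := by positivity
      have p3 : pat (v ξ) n ≤ n := Nat.lt_succ_iff.1 (by
        exact_mod_cast p1.trans_lt (mul_lt_of_lt_one_right n0 v3.1))
      obtain ⟨x4, x5⟩ := x3 ξ (by simpa using c) p3
      have p4 : ((n : ℝ) + 1)⁻¹ ≤ (((2 * k + 1 : ℕ) : ℝ) + 1)⁻¹ := by gcongr
      have p5 : (((2 * k + 1 : ℕ) : ℝ) + 1)⁻¹ * 2 = ((k : ℝ) + 1)⁻¹ := by
        push_cast
        field_simp
        ring
      have p6 : ((pat (v ξ) n : ℕ) : ℝ) / (n + 1) ≤ v ξ := (div_le_iff₀' n0).2 p1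
      have p7 : (v ξ : ℝ) < (pat (v ξ) n : ℕ) / (n + 1) + ((n : ℝ) + 1)⁻¹ := by
        rw [inv_eq_one_div, ← add_div]
        exact (lt_div_iff₀' n0).2 p2
      dsimp only
      rw [sw_eq x1 x2 n2 p3 (fun z d => ⟨(hi.hZ ξ (s1 c) z d).1, (hi.hZ ξ (s1 c) z d).2.1⟩) x4 x5,
        abs_lt]
      constructor <;> linarith [v1 ξ, v3.2]⟩ hc
  exact ⟨Γ, k.mem, fun g ⟨ξ, a, b⟩ => k.tot g ⟨_, ⟨ξ, a, rfl⟩, b⟩,
    fun u p a b c => k.con u p a b fun n => hI.sub_cl m (c n)⟩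

end Pool.Agent.Lib.MP_d63cb0_gt.H63
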