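import Pool.Agent.Lib.MP_d63cb0_gt.H63.Step
import Pool.Agent.Lib.MP_d63cb0_gt.H63.Key
import Pool.Agent.Lib.MP_d63cb0_gt.H63.B_A
import Pool.Agent.Lib.MP_d63cb0_gt.H63.B_M

/-! The model in which the converse holds. -/

namespace Pool.Agent.Lib.MP_d63cb0_gt.H63

open Pool.Agent.Lib.MP_fecf72_lc Pool.Agent.Lib.MP_d63cb0_gt.H15 Set Filter Cardinal

variable {K : Type 1}

theorem club_cx {κ : Cardinal.{1}} (h1 : OmegaOneSC κ) (h2 : κ ≤ #K) (h3 : Uncountable K)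
    (h4 : #K ^ ℵ₀ = #K) : ∀ᶠ N in Club, ∀ G : Set (Cn K), GG N Le G → ∀ (S : TS (Mod N G)) I0,
      AllCY S → Idl S I0 → ∃ c F f, Lst N G S c F f ∧ ∃ Γ W r g R D, Cx N G S f Γ W r g I0 ∧
        In N g ∧ In N R ∧ In N D ∧ R ⊆ Lam c ∧
        (∀ σ ∈ Lam c, In N σ → ∃ τ ∈ R, In N τ ∧ Sim W (Lo W g) (Hi W g) r σ τ) ∧
        (Nonempty (R ↪ K) ∨
          Spec (P := Set (Nm (Cn K))) W (Lam c) (Lo W g) (Hi W g) r R D) := by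
  let J := Nm (Cn K)
  filter_upwards [st_GOOD K, st_A2 st_KEY st_U0 st_TY K h3, club_g (K := K) (Set J),
    club_seq (K := K) (Set J), club_id (K := K) (Set J), club_lo, club_kit (K := K) (Set J),
    club_lg J (Set J) inferInstance h4, clo1 (Lam : J → Set J),
    sk1 fun (c : J) (W : Ultrafilter (Set J)) => CountableInterFilter (W : Filter (Set J)) ∧
      (∀ σ ∈ Lam c, {a | σ ∈ a} ∈ W) ∧ {a : Set J | Nonempty (a ↪ K)} ∈ W,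
    clo1 fun σ : J => {a : Set J | σ ∈ a}, clo0 {a : Set J | Nonempty (a ↪ K)},
    club_all fun x : ℚ => clo3' fun (g : J → Set J → ℚ → Set (Cn K)) σ (s : Set J → Cn K) =>
      {a | s a ∈ loS (g σ a) x},
    club_all fun x : ℚ => clo3' fun (g : J → Set J → ℚ → Set (Cn K)) σ (s : Set J → Cn K) =>
      {a | s a ∈ hiS (g σ a) x}, clo3' (bS (K := K) (P := Set J)),
    club_all fun n0 => clo2 fun (g : J → Set J → ℚ → Set (Cn K)) η => bL g η n0]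
    with N go a2 cg cs ci cl ck lg c1 cw c2 c3 c4 c5 c6 c7 G hG S I0 hc hI
  have := go G hG
  obtain ⟨c, F, f, ls, y, Γ0, b1, b2⟩ := a2 G hG S hc I0 hI
  obtain ⟨W, w1, w2, w3, w4⟩ := cw c ls.hc (st_W κ K J _ h1 h2 inferInstance
    (small_subset (s := range c.sub) fun σ ⟨_, i, e, _⟩ => ⟨i, e⟩))
  obtain ⟨g, g1, g2⟩ := cg G hG F y ls.hF b1
  obtain ⟨r, R, D, r1, r2, r3, r4, r5, r6⟩ := lg G hG W _ g w1 (c1 c ls.hc) g1 w2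
  have kit := ck G hG W r w1 r1 w2 r4 r5
  let Γ : Set J → Set ((S.X → ℝ) × ℝ) := fun a => {p | cd p ∈ val N G (y a)}
  have e : ∀ a : Set J, In N a → Nonempty (a ↪ K) → Γ0 a = Γ a := fun a k k' => Set.ext fun p => by
    rw [← cd_mem_cd, (b2 a k k').1]
    rfl
  have ty : ∀ u ∈ S.C, AE N G W r fun a => cd (Γ a) = val N G (y a) ∧ Typ S I0 {u} (Γ a) :=
    fun u k => by
    obtain ⟨σ, s1, s2, rfl⟩ := ls.onto u k
    exact (kit.and (AE.of w4 c3) (AE.of (w3 σ s1) (c2 σ s2))).mono fun a k d => e a k d.1 ▸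
      ⟨(b2 a k d.1).1, (b2 a k d.1).2.mono (singleton_subset_iff.2 ⟨σ, ⟨s2, s1, d.2⟩, rfl⟩)⟩
  refine ⟨c, F, f, ls, Γ, W, r, g, R, D, ⟨hG.f, kit, hI, fun σ k => (ls.val σ k).1,
    fun u k => (ty u k).mono fun _ _ a => a.2, fun σ k => (ty _ (ls.val σ k).1).mono ?_, ?_,
    fun u ⟨π, k1, k2⟩ => ?_, fun σ s x => c4 x g σ s g1, fun σ s x => c5 x g σ s g1,
    fun σ τ => c6 g σ τ g1, fun η n0 => c7 n0 g η g1⟩, g1, r2, r3, r6⟩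
  · rintro a k' ⟨d1, d2⟩
    obtain ⟨t, d3⟩ := d2.tot _ rfl
    refine ⟨t, d3, cl G hG _ t (g2 σ a k k').1 fun q => ((g2 σ a k k').2 q).trans ?_⟩
    rw [← (ls.val σ k).2]
    refine ⟨fun ⟨z, _, i, j⟩ => ?_, fun i => ⟨cd t, (cd_prod.1 (cd_of_mem d2.mem d3)).2, d3,
      mem_realC.2 i⟩⟩
    obtain ⟨⟨u, t'⟩, l1, l2⟩ := mem_cd.1 (d1 ▸ i)
    obtain ⟨l3, rfl⟩ := ZFSet.pair_inj.1 l2
    obtain rfl := Cd.inj l3
    obtain ⟨x, -, l4, l5⟩ := d2.two hI hI.zero l1 d3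
    exact (mem_realC.1 j).trans_eq (l4.symm.trans l5)
  · obtain ⟨w, d1, d2⟩ := ci G hG c F y W r ls.hc ls.hF b1 w1 r1
    refine mem_of_eq_of_mem (ZFSet.ext fun z => mem_cd.trans (Iff.trans ⟨?_, ?_⟩ (d2 z).symm)) d1
    swap
    · rintro ⟨σ, s1, -, s2, rfl⟩
      rw [← (ls.val σ s1).2] at s2 ⊢
      exact ⟨_, ⟨(ls.val σ s1).1, s2⟩, rfl⟩
    · rintro ⟨u, ⟨s1, s2⟩, rfl⟩
      obtain ⟨σ, s3, s4, rfl⟩ := ls.onto u s1
      exact ⟨σ, s4, s3, (ls.val σ s4).2 ▸ s2, (ls.val σ s4).2⟩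
  · obtain ⟨b, d1, d2⟩ := cs G hG π y k1 b1
    refine ⟨b, d1, fun i a k => (d2 i a k).trans (not_congr ?_)⟩
    rw [k2, cd_seq]
    exact ⟨fun ⟨_, _, l1, l2⟩ => by rwa [pair_mem_seqC.1 l1] at l2,
      fun l => ⟨_, cd_app (M := Mod N G) ⟨π, k1, k2⟩ i, pair_mem_seqC.2 rfl, l⟩⟩

theorem club_ups {κ : Cardinal.{1}} (h1 : OmegaOneSC κ) (h2 : κ ≤ #K) (h3 : Uncountable K)
    (h4 : #K ^ ℵ₀ = #K) : ∀ᶠ N in Club, ∀ G : Set (Cn K), GG N Le G → ∀ S : TS (Mod N G),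
      AllCY S → UpsLind (Mod N G) S.sp := by
  let J := Nm (Cn K)
  filter_upwards [st_GOOD K, club_cx h1 h2 h3 h4, st_A1 st_KEY st_U0 K h3,
    club_all (club_tn (K := K) (Set J)), club_pk (K := K) (Set J),
    clo4 (gL (K := K) (P := Set J))] with N go cx a1 tn pk c1 G hG S hc
  have := go G hG
  by_contra h
  obtain ⟨I0, hI, h⟩ := st_END _ S h
  obtain ⟨c, F, f, ls, Γ, W, r, g, R, D, x, g1, r1, r2, r3, r4, r5⟩ := cx G hG S I0 hc hI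
  by_cases p : PC S (Id N G Γ W r)
  · obtain ⟨Γ', k⟩ := st_U0 _ S _ x.idl p
    exact h _ _ _ x.sub x.idl k fun u a => ⟨u, a, _, x.idl.zero, fun _ _ => rfl⟩
  have rp : Rep S (Id N G Γ W r) (f '' {ξ | In N ξ ∧ ξ ∈ R}) := fun u a => by
    obtain ⟨σ, s1, s2, rfl⟩ := ls.onto u a
    obtain ⟨τ, s3, s4, s5⟩ := r4 σ s1 s2
    exact ⟨_, ⟨τ, ⟨s4, s3⟩, rfl⟩, _, x.rep s2 s4 s5, fun _ => sub_eq_zero.1⟩
  rcases r5 with r5 | r5
  · obtain ⟨Γ', k⟩ := a1 G hG S c F f hc ls _ x.idl R r1 r5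
    exact h _ _ _ x.sub x.idl (k.mono (image_mono fun ξ a => ⟨a.1, r3 a.2, a.2⟩)) rp
  simp only [PC, not_forall] at p
  obtain ⟨u, p1, p2⟩ := p
  obtain ⟨η, -, p3, rfl⟩ := ls.onto u p1
  obtain ⟨k, k1, rfl, k2, k3, k4, k5, k6⟩ := pk G hG D _ r2 (c1 W g r η x.kit.hW g1 x.kit.hr p3)
  have lv : ∀ n0, ∃ n ≥ n0, ∃ m, Hd G {p | k.Z n m ∈ k.gd n ∧ p = k.D.e n (k.Z n m)} := fun n0 => by
    obtain ⟨n, a, q, b, p0, d1, d2⟩ := x.lev p3 p2 n0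
    refine ⟨n, a, k2 ▸ k5 n ⟨p0, d1, fun p e => ?_⟩⟩
    obtain ⟨s, e1, e2⟩ := (st_CST K _ W q x.kit.cif (b.1.mono fun _ a => a.2)).2 p e.2
      (d2.trans e.1)
    have e3 := r5.root n s (b.1.trans e1)
    exact ⟨s, ⟨b.1.trans e1, b.2.1.ex e1, b.2.2.ex e1⟩, Finset.coe_subset.1 (e2.trans e3.2.1), e3.1⟩
  obtain ⟨j, lv⟩ : ∃ j, ∀ n0, ∃ n ≥ n0, n % 2 = j ∧
      ∃ m, Hd G {p | k.Z n m ∈ k.gd n ∧ p = k.D.e n (k.Z n m)} := by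
    by_contra e
    simp only [not_exists, not_forall, not_and] at e
    obtain ⟨m0, e0⟩ := e 0
    obtain ⟨m1, e1⟩ := e 1
    obtain ⟨n, a, m, b⟩ := lv (max m0 m1)
    rcases Nat.mod_two_eq_zero_or_one n with d | d
    exacts [e0 n ((le_max_left _ _).trans a) d m b, e1 n ((le_max_right _ _).trans a) d m b]
  obtain ⟨w, d1, d2⟩ := tn j G hG c F R k ls.hc ls.hF r1 k1
  have e : ∀ ξ, In N ξ → cd (f ξ, (fun i => (i.1, i.2.1, k.lo ξ i, k.hi ξ i, f (k.ix ξ i))) ''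
      {i | k.Sel G j ξ i}) = ZFSet.pair (val N G (F ξ)) (img {i | k.Sel G j ξ i}
        fun i => cd (i.1, i.2.1, k.lo ξ i, k.hi ξ i, val N G (F (k.ix ξ i)))) := fun ξ a => by
    rw [← (ls.val ξ a).2]
    refine congrArg (ZFSet.pair _) (ZFSet.ext fun z => mem_cd.trans (Iff.trans ?_ mem_img.symm))
    simp only [mem_image, exists_exists_and_eq_and, ← fun i => (ls.val _ (k4 ξ i a).1).2]
    rfl
  obtain ⟨Γ', t⟩ := st_KEY _ S _ _ j _ _ _ _ hc x.idl (x.ind p3 r5 k2 k3 k4 k6 lv (by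
    refine mem_of_eq_of_mem (ZFSet.ext fun z => mem_cd.trans (Iff.trans ⟨?_, ?_⟩ (d2 z).symm)) d1
    swap
    · rintro ⟨ξ, s1, -, s2, rfl⟩
      exact ⟨_, ⟨ξ, ⟨s1, s2⟩, rfl⟩, e ξ s1⟩
    · rintro ⟨_, ⟨ξ, s, rfl⟩, rfl⟩
      exact ⟨ξ, s.1, r3 s.2, s.2, e ξ s.1⟩))
  exact h _ _ _ x.sub x.idl t rp

theorem main (κ : Cardinal.{1}) (h : OmegaOneSC κ) : ∃ M : Set V, M.Countable ∧ IsZFC M ∧
    ∀ S : Sp, Tych M S → (∀ A, IsALG M S A → IsCY M S A) → UpsLind M S := by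
  let K : Type 1 := (2 ^ (κ + ℵ₀) : Cardinal.{1}).out
  have e : #K = 2 ^ (κ + ℵ₀) := mk_out _
  obtain ⟨N, h1, h2, h3, G, hG⟩ := (club_countable.and ((club_zfc le_tp (fo (K := K))).and
    ((club_ups (K := K) h (e ▸ le_self_add.trans (cantor _).le)
      (aleph0_lt_mk_iff.1 (e ▸ le_add_self.trans_lt (cantor _)))
      (by rw [e, ← power_mul, mul_aleph0_eq le_add_self])).and
      (club_gg fo ∅ ⟨subset_rfl, fun _ a => by simp at a⟩)))).exists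
  exact ⟨Mod N G, (countable_In _ h1).image _, h2 G hG, fun S a b => h3 G hG ⟨S, a⟩ b⟩

end Pool.Agent.Lib.MP_d63cb0_gt.H63
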