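import Pool.Agent.Lib.MP_d63cb0_gt.H63.Real
import Pool.Agent.Lib.MP_d63cb0_gt.H15.Alg

/-! The glued algebra. -/

set_option linter.unusedSectionVars false

namespace Pool.Agent.Lib.MP_d63cb0_gt.H63

open Pool.Agent.Lib.MP_fecf72_lc Pool.Agent.Lib.MP_d63cb0_gt.H15 Set Topology Filter

universe u

variable {M : Set V} [Good M]

section
variable {ι : Type} [Cd ι] {α : Type u} [Cd α]

theorem fin_seq {s : Set ι} (h : s.Finite) (ne : s.Nonempty) (k : ∀ a ∈ s, cd a ∈ M) :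
    ∃ e : ℕ → ι, cd e ∈ M ∧ (∀ n, e n ∈ s) ∧ ∃ n, ∀ a ∈ s, ∃ i, i ≤ n ∧ e i = a := by
  induction s, h using Set.Finite.induction_on with
  | empty => exact absurd ne not_nonempty_empty
  | @insert a s _ _ ih =>
    have ha := k a (mem_insert _ _)
    rcases s.eq_empty_or_nonempty with rfl | ne'
    · exact ⟨fun _ => a, lam_mem (Dm.const ha), fun _ => mem_insert _ _, 0, by simp⟩
    obtain ⟨e, h1, h2, n, h3⟩ := ih ne' fun b hb => k b (mem_insert_of_mem _ hb)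
    refine ⟨fun i => if i = n + 1 then a else e i, lam_mem (Dm.ite (Df.eq Dm.id
      (Dm.const (sm_mem _))) (Dm.const ha) (Dm.capp h1 Dm.id)), fun i => ?_, n + 1, ?_⟩
    · dsimp only
      split_ifs
      exacts [mem_insert _ _, mem_insert_of_mem _ (h2 i)]
    · rintro b (rfl | hb)
      · exact ⟨n + 1, le_rfl, if_pos rfl⟩
      · obtain ⟨i, h4, h5⟩ := h3 b hb
        exact ⟨i, by omega, (if_neg (by omega)).trans h5⟩

theorem Df.finite [Sg M ι] {s : α → Set ι} (h : Dm M s) : Df M fun a => (s a).Finite := by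
  have : Df M fun s : Set ι => (¬ ∃ b, cd b ∈ M ∧ b ∈ s) ∨
      ∃ e : ℕ → ι, cd e ∈ M ∧ ∃ n, ∀ a ∈ s, ∃ i, i ≤ n ∧ e i = a := by
    apply_rules (maxDepth := 400) (transparency := .reducible) [Df.or, Df.not, Df.exM, Df.and,
      Df.ex, Df.allS, Df.eq, Df.mem, Df.leN, Dm.id, Dm.fst, Dm.snd, Dm.app]
  refine (this.congr fun s e => ⟨fun k => ?_, ?_⟩).comp h
  · rcases s.eq_empty_or_nonempty with rfl | ne
    · simp
    · obtain ⟨f, a, -, b⟩ := fin_seq k ne fun a => cd_of_mem e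
      exact Or.inr ⟨f, a, b⟩
  · rintro (k | ⟨f, -, n, k⟩)
    · exact (eq_empty_of_forall_notMem fun b hb => k ⟨b, cd_of_mem e hb, hb⟩) ▸ finite_empty
    · exact ((finite_le_nat n).image f).subset k

end

theorem sur_ex (q : ℚ) : ∃ n, Denumerable.ofNat ℚ n = q := ⟨_, Denumerable.ofNat_encode q⟩

/-- a homeomorphism of the line with the unit interval -/
noncomputable def tt (r : ℝ) : ℝ := (1 + r / (1 + |r|)) / 2

theorem tt_inj : Function.Injective tt := fun a b h =>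
  psi_mono.injective (by simp only [tt] at h ⊢; linarith)

theorem tt_cont : Continuous tt :=
  (continuous_const.add (continuous_id.div (continuous_const.add continuous_abs)
    fun x => ne_of_gt (show (0 : ℝ) < 1 + |x| by positivity))).div_const 2

theorem Dm.tt {α : Type u} [Cd α] {f : α → ℝ} (h : Dm M f) : Dm M fun a => tt (f a) :=
  ((Dm.const one_mem).add (h.div ((Dm.const one_mem).add h.abs))).div (Dm.const two_mem)

/-- all algebras on the space are rings of continuous functions -/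
def AllCY (S : TS M) : Prop := ∀ A, IsALG M S.sp A → IsCY M S.sp A

/-- countably closed proper ideals -/
structure Sid (S : TS M) (J : Set (S.X → ℝ)) : Prop where
  mem : cd J ∈ M
  sub : J ⊆ S.C
  ne : ∀ u ∈ J, ∃ x, u x = 0
  sp : ∀ u : ℕ → S.X → ℝ, cd u ∈ M → (∀ n, u n ∈ J) → sp u ∈ J

variable {S : TS M}

theorem Sid.two {J : Set (S.X → ℝ)} (h : Sid S J) {u v : S.X → ℝ} (hu : u ∈ J) (hv : v ∈ J) :
    ∃ w ∈ J, ∀ x, w x = 0 → u x = 0 ∧ v x = 0 :=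
  ⟨_, h.sp (fun n => if n = 0 then u else v) (lam_mem (Dm.ite (Df.eq Dm.id (Dm.const (sm_mem _)))
    (Dm.const (h.sub hu).1) (Dm.const (h.sub hv).1))) fun n => by
      split_ifs <;> assumption,
    fun _ k => ⟨sp_zero.1 k 0, sp_zero.1 k 1⟩⟩

theorem C_rn : Rn S.C {r | realC r ∈ M} where
  rat := rat_mem (M := M)
  const := fun _ h => ⟨lam_mem (Dm.const h), continuous_const⟩
  add := fun _ h _ k => ⟨lam_mem ((Dm.capp h.1 Dm.id).add (Dm.capp k.1 Dm.id)), h.2.add k.2⟩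
  mul := fun _ h _ k => ⟨lam_mem ((Dm.capp h.1 Dm.id).mul (Dm.capp k.1 Dm.id)), h.2.mul k.2⟩
  inv := fun _ h k => ⟨lam_mem (Dm.capp h.1 Dm.id).inv, h.2.inv₀ k⟩

/-- the data of the gluing -/
structure Gd (S : TS M) where
  J : Set (S.X → ℝ)
  h : S.X → ℝ
  m : ℕ
  E : Set ((S.X → ℝ) × (S.X → ℝ))
  u0 : S.X → ℝ
  hJ : Sid S J
  hh : h ∈ S.C
  hu : u0 ∈ J
  hm : ∀ x, u0 x = 0 → h x ≤ m
  hE : cd E ∈ M
  hC : ∀ p ∈ E, p.1 ∈ S.C ∧ p.2 ∈ S.C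
  ind : ∀ F ⊆ E, F.Finite → ∀ x0, ∀ k : ℕ, ∃ x, k < h x ∧
    ∀ p ∈ F, |p.2 x - tt (p.1 x0)| < ((k : ℝ) + 1)⁻¹

namespace Gd

variable (g : Gd S)

/-- the filter of pairs of points that are glued -/
def Ev (P : S.X → S.X → Prop) : Prop :=
  ∃ F ∈ {F : Set ((S.X → ℝ) × (S.X → ℝ)) | cd F ∈ M}, (∀ p ∈ F, p ∈ g.E) ∧ F.Finite ∧ ∃ u ∈ g.J, ∃ k : ℕ, ∀ x0 x, u x0 = 0 →
    k < g.h x → (∀ p ∈ F, |p.2 x - tt (p.1 x0)| < ((k : ℝ) + 1)⁻¹) → P x0 x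

/-- functions that respect the gluing -/
def St : Set (S.X → ℝ) :=
  {a ∈ S.C | ∀ n : ℕ, g.Ev fun x0 x => |a x - a x0| < ((n : ℝ) + 1)⁻¹}

/-- functions that vanish near the glued part -/
def Jd : Set (S.X → ℝ) := {b ∈ S.C | g.Ev fun x0 x => b x0 = 0 ∧ b x = 0}

/-- cozero sets -/
def Cz (W : Set S.X) : Prop := ∃ a ∈ g.St, ∀ x, x ∈ W ↔ a x ≠ 0

/-- the algebra -/
def A : Set (S.X → ℝ) := {f ∈ S.C | ∀ q : ℚ, g.Cz {x | q < f x} ∧ g.Cz {x | f x < q}}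

variable {g} {P Q : S.X → S.X → Prop}

theorem Ev.intro {F : Set ((S.X → ℝ) × (S.X → ℝ))} (h1 : F ⊆ g.E) (h2 : F.Finite) {u : S.X → ℝ}
    (h3 : u ∈ g.J) (k : ℕ) (h : ∀ x0 x, u x0 = 0 → k < g.h x →
      (∀ p ∈ F, |p.2 x - tt (p.1 x0)| < ((k : ℝ) + 1)⁻¹) → P x0 x) : g.Ev P :=
  ⟨F, finite_mem (M := M) h2 fun _ a => cd_of_mem g.hE (h1 a), h1, h2, u, h3, k, h⟩

theorem Ev.mono (h : g.Ev P) (k : ∀ x0 x, P x0 x → Q x0 x) : g.Ev Q :=
  let ⟨F, a, b, c, u, d, n, e⟩ := h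
  ⟨F, a, b, c, u, d, n, fun x0 x p q r => k _ _ (e x0 x p q r)⟩

theorem Ev.and (h : g.Ev P) (k : g.Ev Q) : g.Ev fun x0 x => P x0 x ∧ Q x0 x := by
  obtain ⟨F, -, a1, a2, u, a3, n, a4⟩ := h
  obtain ⟨F', -, b1, b2, u', b3, n', b4⟩ := k
  obtain ⟨w, c1, c2⟩ := g.hJ.two a3 b3
  have e1 : (n : ℝ) ≤ (max n n' : ℕ) := Nat.cast_le.2 (le_max_left _ _)
  have e2 : (n' : ℝ) ≤ (max n n' : ℕ) := Nat.cast_le.2 (le_max_right _ _)
  exact Ev.intro (union_subset a1 b1) (a2.union b2) c1 (max n n') fun x0 x p q r =>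
    ⟨a4 x0 x (c2 _ p).1 (e1.trans_lt q) fun z hz => (r z (Or.inl hz)).trans_le (by gcongr),
      b4 x0 x (c2 _ p).2 (e2.trans_lt q) fun z hz => (r z (Or.inr hz)).trans_le (by gcongr)⟩

theorem Ev.ex (h : g.Ev P) : ∃ u ∈ g.J, ∀ x0, u x0 = 0 → ∃ x, P x0 x :=
  let ⟨F, _, a, b, u, c, n, d⟩ := h
  ⟨u, c, fun x0 e => let ⟨x, p, q⟩ := g.ind F a b x0 n; ⟨x, d x0 x e p q⟩⟩

theorem ev_base {u : S.X → ℝ} (h : u ∈ g.J) (k : ℕ) : g.Ev fun x0 x => u x0 = 0 ∧ k < g.h x :=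
  Ev.intro (empty_subset _) finite_empty h k fun _ _ a b _ => ⟨a, b⟩

theorem df_ev {α : Type u} [Cd α] {P : α → S.X → S.X → Prop}
    (h : Df M fun z : (α × S.X) × S.X => P z.1.1 z.1.2 z.2) : Df M fun a => g.Ev (P a) := by
  have h1 := g.hE
  have h2 := g.hJ.mem
  have h3 := g.hh.1
  have h4 : cd {F : Set ((S.X → ℝ) × (S.X → ℝ)) | cd F ∈ M} ∈ M := Sg.h
  have h5 : Df M fun z : ((((α × Set ((S.X → ℝ) × (S.X → ℝ))) × (S.X → ℝ)) × ℕ) × S.X) × S.X =>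
      P z.1.1.1.1.1 z.1.2 z.2 :=
    h.comp ((Dm.id.fst.fst.fst.fst.fst.prod Dm.id.fst.snd).prod Dm.id.snd)
  unfold Ev
  apply_rules (maxDepth := 400) (transparency := .reducible) [Df.exS, Df.and, Df.allS, Df.ex,
    Df.all, Df.imp, Df.finite, Df.eq, Df.mem, Df.lt, Dm.id, Dm.fst, Dm.snd, Dm.tt, Dm.abs, Dm.sub,
    Dm.inv, Dm.add, Dm.natCast, Dm.const, Dm.app, zero_mem, one_mem]

theorem St_mem : cd g.St ∈ M := by
  refine Df.sep (Df.all (df_ev (P := fun (z : (S.X → ℝ) × ℕ) x0 x =>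
    |z.1 x - z.1 x0| < ((z.2 : ℝ) + 1)⁻¹) ?_)) TS.C_mem
  apply_rules (maxDepth := 400) (transparency := .reducible) [Df.lt, Dm.id, Dm.fst, Dm.snd, Dm.abs,
    Dm.sub, Dm.inv, Dm.add, Dm.natCast, Dm.const, Dm.app, one_mem]

theorem Jd_mem : cd g.Jd ∈ M := by
  refine Df.sep (df_ev (P := fun (b : S.X → ℝ) x0 x => b x0 = 0 ∧ b x = 0) ?_) TS.C_mem
  apply_rules (maxDepth := 400) (transparency := .reducible) [Df.and, Df.eq, Dm.id, Dm.fst, Dm.snd,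
    Dm.const, Dm.app, zero_mem]

theorem A_mem : cd g.A ∈ M := by
  refine Df.sep ?_ TS.C_mem
  have := St_mem (g := g)
  simp only [Cz, mem_ofPred_eq]
  apply_rules (maxDepth := 400) (transparency := .reducible) [Df.and, Df.exS, Df.all, Df.iff, Df.ne,
    Df.lt, Dm.id, Dm.fst, Dm.snd, Dm.ratCast, Dm.const, Dm.app, zero_mem]

variable {a b : S.X → ℝ}

theorem St.ev (h : a ∈ g.St) {ε : ℝ} (k : 0 < ε) : g.Ev fun x0 x => |a x - a x0| < ε :=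
  let ⟨n, hn⟩ := exists_nat_one_div_lt k
  (h.2 n).mono fun _ _ e => e.trans (by rwa [one_div] at hn)

theorem St.intro (h : a ∈ S.C) (k : ∀ ε > 0, g.Ev fun x0 x => |a x - a x0| < ε) : a ∈ g.St :=
  ⟨h, fun _ => k _ (by positivity)⟩

theorem St.lip {c : S.X → ℝ} (ha : a ∈ g.St) (hb : b ∈ g.St) (hc : c ∈ S.C)
    (k : ∀ x y, |c x - c y| ≤ |a x - a y| + |b x - b y|) : c ∈ g.St :=
  St.intro hc fun _ e => ((St.ev ha (half_pos e)).and (St.ev hb (half_pos e))).mono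
    fun x0 x p => by linarith [k x x0, p.1, p.2]

theorem St.const {r : ℝ} (h : cd r ∈ M) : (fun _ => r) ∈ g.St :=
  St.intro ⟨lam_mem (Dm.const h), continuous_const⟩ fun _ e =>
    (ev_base g.hu 0).mono fun _ _ _ => by simpa using e

theorem St.of_Jd (h : b ∈ g.Jd) : b ∈ g.St :=
  St.intro h.1 fun _ e => h.2.mono fun _ _ p => by simpa [p.1, p.2] using e

theorem pk_C {u : ℕ → S.X → ℝ} (h : ∀ n, u n ∈ S.C) (k : ℕ) : pk u k ∈ S.C := by
  induction k with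
  | zero => exact ⟨lam_mem (Dm.const zero_mem), continuous_const⟩
  | succ k ih => exact ⟨lam_mem ((Dm.capp ih.1 Dm.id).max ((Dm.capp (h k).1 Dm.id).abs.min
      ((Dm.const (nat_mem k)).add (Dm.const one_mem)).inv)),
      ih.2.max ((h k).2.abs.min continuous_const)⟩

theorem St.pk {u : ℕ → S.X → ℝ} (h : ∀ n, u n ∈ g.St) (k : ℕ) : pk u k ∈ g.St := by
  induction k with
  | zero => exact St.const zero_mem
  | succ k ih =>
    refine St.lip ih (h k) (pk_C (fun n => (h n).1) _) fun x y => ?_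
    refine (abs_max_sub_max_le_max _ _ _ _).trans (max_le (le_add_of_nonneg_right (abs_nonneg _))
      (le_add_of_nonneg_of_le (abs_nonneg _) ?_))
    refine (abs_min_sub_min_le_max _ _ _ _).trans (max_le (abs_abs_sub_abs_le _ _) (by simp))

theorem St.sp {u : ℕ → S.X → ℝ} (hu : cd u ∈ M) (h : ∀ n, u n ∈ g.St) : sp u ∈ g.St := by
  refine St.intro (TS.sp_C hu fun n => (h n).1) fun ε e => ?_
  obtain ⟨k, hk⟩ := sp_pk (X := S.X) (show 0 < ε / 3 by positivity)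
  refine (St.ev (St.pk h k) (show 0 < ε / 3 by positivity)).mono fun x0 x p => ?_
  have := abs_lt.1 (hk u x)
  have := abs_lt.1 (hk u x0)
  have := abs_lt.1 p
  rw [abs_lt]
  constructor <;> linarith

theorem St.mem_A (h : a ∈ g.St) : a ∈ g.A := by
  refine ⟨h.1, fun q => ⟨⟨fun x => max (a x - q) 0, St.lip h h ⟨lam_mem (((Dm.capp h.1.1 Dm.id).sub
    (Dm.const (rat_mem q))).max (Dm.const zero_mem)), (h.1.2.sub continuous_const).max
    continuous_const⟩ fun x y => ?_, fun x => ?_⟩, ⟨fun x => max (q - a x) 0, St.lip h h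
    ⟨lam_mem (((Dm.const (rat_mem q)).sub (Dm.capp h.1.1 Dm.id)).max (Dm.const zero_mem)),
    (continuous_const.sub h.1.2).max continuous_const⟩ fun x y => ?_, fun x => ?_⟩⟩⟩
  · exact (abs_max_sub_max_le_abs _ _ _).trans (by simp)
  · simp
  · refine (abs_max_sub_max_le_abs _ _ _).trans ?_
    rw [sub_sub_sub_cancel_left, abs_sub_comm]
    simp
  · simp

theorem Cz.inter {W W' : Set S.X} (h : g.Cz W) (k : g.Cz W') : g.Cz (W ∩ W') := by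
  obtain ⟨a, a1, a2⟩ := h
  obtain ⟨b, b1, b2⟩ := k
  refine ⟨fun x => min |a x| |b x|, St.lip a1 b1 ⟨lam_mem ((Dm.capp a1.1.1 Dm.id).abs.min
    (Dm.capp b1.1.1 Dm.id).abs), a1.1.2.abs.min b1.1.2.abs⟩ fun x y => ?_, fun x => ?_⟩
  · exact (abs_min_sub_min_le_max _ _ _ _).trans (max_le
      ((abs_abs_sub_abs_le _ _).trans (le_add_of_nonneg_right (abs_nonneg _)))
      ((abs_abs_sub_abs_le _ _).trans (le_add_of_nonneg_left (abs_nonneg _))))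
  · rw [mem_inter_iff, a2, b2, ← abs_pos, ← abs_pos, ← lt_min_iff]
    exact ⟨ne_of_gt, fun e => lt_of_le_of_ne (le_min (abs_nonneg _) (abs_nonneg _)) e.symm⟩

theorem Cz.union {W : Set S.X} (hW : cd W ∈ M) {P : ℕ → S.X → Prop}
    (hP : Df M fun z : ℕ × S.X => P z.1 z.2) (h1 : ∀ x ∈ W, ∃ n, P n x)
    (h2 : ∀ n, ∃ U, g.Cz U ∧ (∀ x, P n x → x ∈ U) ∧ U ⊆ W) : g.Cz W := by
  have h3 := St_mem (g := g)
  have h4 : Df M fun z : (ℕ × (S.X → ℝ)) × S.X => P z.1.1 z.2 :=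
    hP.comp (Dm.id.fst.fst.prod Dm.id.snd)
  obtain ⟨u, h5, h6⟩ := Df.choice (M := M) (P := fun (n : ℕ) (a : S.X → ℝ) => a ∈ g.St ∧
    (∀ x, P n x → a x ≠ 0) ∧ ∀ x, a x ≠ 0 → x ∈ W) (by
      apply_rules (maxDepth := 400) (transparency := .reducible) [Df.and, Df.all, Df.ne, Df.imp,
        Df.mem, Dm.id, Dm.fst, Dm.snd, Dm.const, Dm.app, zero_mem]) fun n => by
      obtain ⟨U, ⟨a, a1, a2⟩, a3, a4⟩ := h2 n
      exact ⟨a, a1.1.1, a1, fun x e => (a2 x).1 (a3 x e), fun x e => a4 ((a2 x).2 e)⟩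
  refine ⟨_, St.sp h5 fun n => (h6 n).1, fun x => ?_⟩
  rw [Ne, sp_zero, not_forall]
  exact ⟨fun e => let ⟨n, k⟩ := h1 x e; ⟨n, (h6 n).2.1 x k⟩, fun ⟨n, k⟩ => (h6 n).2.2 x k⟩

theorem Cz.loc (ha : a ∈ g.A) (hb : b ∈ g.A) {W : Set S.X} (hW : cd W ∈ M)
    (h : ∀ x ∈ W, ∀ᶠ p in 𝓝 (a x, b x), ∀ z, (a z, b z) = p → z ∈ W) : g.Cz W := by
  let e := Denumerable.ofNat ℚ
  let B : ℕ → Set S.X := fun n => {x | (e n.unpair.1.unpair.1 : ℝ) < a x ∧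
    a x < e n.unpair.1.unpair.2 ∧ (e n.unpair.2.unpair.1 : ℝ) < b x ∧ b x < e n.unpair.2.unpair.2}
  have h1 := ha.1.1
  have h2 := hb.1.1
  have hB : Dm M B := Dm.set (by
    apply_rules (maxDepth := 400) (transparency := .reducible) [Df.and, Df.lt, Dm.id, Dm.fst,
      Dm.snd, Dm.ratCast, Dm.sur, Dm.unpair, Dm.const, Dm.app])
  refine Cz.union hW (P := fun n x => x ∈ B n ∧ ∀ z ∈ B n, z ∈ W) ((Df.mem Dm.id.snd
    (hB.comp Dm.id.fst)).and (Df.allS (hB.comp Dm.id.fst) (Df.mem Dm.id.snd (Dm.const hW))))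
    (fun x hx => ?_) fun n => ?_
  · obtain ⟨s, hs, t, ht, c⟩ := mem_nhds_prod_iff.1 (h x hx)
    obtain ⟨l, u, ⟨h1, h2⟩, h3⟩ := mem_nhds_iff_exists_Ioo_subset.1 hs
    obtain ⟨l', u', ⟨h4, h5⟩, h6⟩ := mem_nhds_iff_exists_Ioo_subset.1 ht
    obtain ⟨p1, a1, a2⟩ := exists_rat_btwn h1
    obtain ⟨p2, a3, a4⟩ := exists_rat_btwn h2
    obtain ⟨p3, a5, a6⟩ := exists_rat_btwn h4
    obtain ⟨p4, a7, a8⟩ := exists_rat_btwn h5
    obtain ⟨n1, rfl⟩ := sur_ex p1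
    obtain ⟨n2, rfl⟩ := sur_ex p2
    obtain ⟨n3, rfl⟩ := sur_ex p3
    obtain ⟨n4, rfl⟩ := sur_ex p4
    refine ⟨Nat.pair (Nat.pair n1 n2) (Nat.pair n3 n4), ?_⟩
    simp only [B, e, Nat.unpair_pair, mem_ofPred_eq]
    exact ⟨⟨a2, a3, a6, a7⟩, fun z ⟨b1, b2, b3, b4⟩ => c (mk_mem_prod
      (h3 ⟨a1.trans b1, b2.trans a4⟩) (h6 ⟨a5.trans b3, b4.trans a8⟩)) z rfl⟩
  · by_cases k : ∀ z ∈ B n, z ∈ W
    · exact ⟨B n, (ha.2 _).1.inter ((ha.2 _).2.inter ((hb.2 _).1.inter (hb.2 _).2)),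
        fun _ p => p.1, k⟩
    · exact ⟨∅, ⟨_, St.const zero_mem, by simp⟩, fun _ p => (k p.2).elim, empty_subset _⟩

theorem lt_mem {c : S.X → ℝ} (h : cd c ∈ M) (q : ℚ) :
    cd {x | (q : ℝ) < c x} ∈ M ∧ cd {x | c x < q} ∈ M :=
  ⟨Df.set (Df.lt (Dm.const (rat_mem q)) (Dm.capp h Dm.id)) fun a _ => sm_mem a,
    Df.set (Df.lt (Dm.capp h Dm.id) (Dm.const (rat_mem q))) fun a _ => sm_mem a⟩

theorem A.op (ha : a ∈ g.A) (hb : b ∈ g.A) {F : ℝ × ℝ → ℝ}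
    (hF : ∀ x, ContinuousAt F (a x, b x)) (hc : cd (fun x => F (a x, b x)) ∈ M) :
    (fun x => F (a x, b x)) ∈ g.A :=
  ⟨⟨hc, continuous_iff_continuousAt.2 fun x =>
    ContinuousAt.comp (f := fun x => (a x, b x)) (hF x) (ha.1.2.prodMk hb.1.2).continuousAt⟩,
    fun q => ⟨Cz.loc ha hb (lt_mem hc q).1 fun x k => ((hF x).eventually (lt_mem_nhds k)).mono
      fun _ p z e => show _ < F (a z, b z) from e ▸ p, Cz.loc ha hb (lt_mem hc q).2 fun x k =>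
      ((hF x).eventually (gt_mem_nhds k)).mono fun _ p z e => show F (a z, b z) < _ from e ▸ p⟩⟩

theorem A.unif {f : S.X → ℝ} (hf : f ∈ S.C) (h : ∀ ε > 0, ∃ c ∈ g.A, ∀ x, |f x - c x| < ε) :
    f ∈ g.A := by
  have h1 := hf.1
  refine ⟨hf, fun q => ⟨Cz.union (lt_mem hf.1 q).1 (P := fun n x => q + ((n : ℝ) + 1)⁻¹ < f x) (by
    apply_rules (maxDepth := 400) (transparency := .reducible) [Df.lt, Dm.id, Dm.fst, Dm.snd,
      Dm.add, Dm.inv, Dm.natCast, Dm.const, Dm.app, rat_mem, one_mem]) (fun x k => ?_) fun n => ?_,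
    Cz.union (lt_mem hf.1 q).2 (P := fun n x => f x + ((n : ℝ) + 1)⁻¹ < q) (by
    apply_rules (maxDepth := 400) (transparency := .reducible) [Df.lt, Dm.id, Dm.fst, Dm.snd,
      Dm.add, Dm.inv, Dm.natCast, Dm.const, Dm.app, rat_mem, one_mem]) (fun x k => ?_) fun n => ?_⟩⟩
  · obtain ⟨n, e⟩ := exists_nat_one_div_lt (sub_pos.2 (show (q : ℝ) < f x from k))
    exact ⟨n, by rw [one_div] at e; linarith⟩
  · obtain ⟨c, c1, c2⟩ := h (((n : ℝ) + 1)⁻¹ / 2) (by positivity)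
    refine ⟨_, (c1.2 (q + ((n : ℚ) + 1)⁻¹ / 2)).1, fun x e => ?_, fun x e => ?_⟩
    · have := abs_lt.1 (c2 x)
      simp only [mem_ofPred_eq]
      push_cast
      linarith
    · have := abs_lt.1 (c2 x)
      simp only [mem_ofPred_eq] at e ⊢
      push_cast at e
      linarith
  · obtain ⟨n, e⟩ := exists_nat_one_div_lt (sub_pos.2 (show f x < q from k))
    exact ⟨n, by rw [one_div] at e; linarith⟩
  · obtain ⟨c, c1, c2⟩ := h (((n : ℝ) + 1)⁻¹ / 2) (by positivity)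
    refine ⟨_, (c1.2 (q - ((n : ℚ) + 1)⁻¹ / 2)).2, fun x e => ?_, fun x e => ?_⟩
    · have := abs_lt.1 (c2 x)
      simp only [mem_ofPred_eq]
      push_cast
      linarith
    · have := abs_lt.1 (c2 x)
      simp only [mem_ofPred_eq] at e ⊢
      push_cast at e
      linarith

theorem Jd.mul {c : S.X → ℝ} (hc : c ∈ S.C) (h : b ∈ g.Jd) : c * b ∈ g.Jd :=
  ⟨⟨lam_mem ((Dm.capp hc.1 Dm.id).mul (Dm.capp h.1.1 Dm.id)), hc.2.mul h.1.2⟩,
    h.2.mono fun _ _ p => by simp [p.1, p.2]⟩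

theorem A.rn : Rn g.A {r | realC r ∈ M} where
  rat := rat_mem (M := M)
  const := fun _ h => St.mem_A (St.const h)
  add := fun _ h _ k => A.op h k (F := fun p => p.1 + p.2) (fun _ => by fun_prop)
    (C_rn.add _ h.1 _ k.1).1
  mul := fun _ h _ k => A.op h k (F := fun p => p.1 * p.2) (fun _ => by fun_prop)
    (C_rn.mul _ h.1 _ k.1).1
  inv := fun _ h k => A.op h h (F := fun p => p.1⁻¹) (fun x => continuousAt_fst.inv₀ (k x))
    (lam_mem (Dm.capp h.1.1 Dm.id).inv)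

theorem exists_Jd {z : S.X} (h : ∃ u ∈ g.J, u z ≠ 0) : ∃ b ∈ g.Jd, b z ≠ 0 := by
  obtain ⟨u, h1, h2⟩ := h
  obtain ⟨k, hk⟩ := exists_nat_gt (g.h z)
  have h3 := g.hJ.sub h1
  refine ⟨fun x => u x * max (k - g.h x) 0, ⟨⟨lam_mem ((Dm.capp h3.1 Dm.id).mul
    (((Dm.const (nat_mem k)).sub (Dm.capp g.hh.1 Dm.id)).max (Dm.const zero_mem))),
    h3.2.mul ((continuous_const.sub g.hh.2).max continuous_const)⟩,
    (ev_base h1 k).mono fun x0 x p => ⟨by simp [p.1], by simp [p.2.le]⟩⟩, ?_⟩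
  simp [h2, hk]

theorem A.alg (h : ∀ z, ∃ u ∈ g.J, u z ≠ 0) : IsALG M S.sp g.A := by
  refine ⟨A_mem, fun f k => (TS.C_eq (S := S)).ge k.1, A.rn.const, A.rn.add, A.rn.mul,
    fun f k => A.unif ((TS.C_eq (S := S)).le k), A.rn.inv, fun W hW z hz => ?_⟩
  obtain ⟨c, c1, c2, c3⟩ := S.ty.creg W hW z hz
  rw [TS.C_eq] at c1
  obtain ⟨b, b1, b2⟩ := exists_Jd (h z)
  have c4 : (fun x : S.X => 1 - c x) ∈ S.C :=
    ⟨lam_mem ((Dm.const one_mem).sub (Dm.capp c1.1 Dm.id)), continuous_const.sub c1.2⟩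
  refine ⟨_, St.mem_A (St.of_Jd (Jd.mul c4 b1)), fun k => b2 ?_⟩
  have := closure_minimal (t := {0}) (by
    rintro _ ⟨x, e, rfl⟩
    exact mul_eq_zero_of_left (sub_eq_zero.2 (c3 x e).symm) _) isClosed_singleton k
  exact (mul_eq_zero.1 this).resolve_left (by simp [c2])

end Gd

end Pool.Agent.Lib.MP_d63cb0_gt.H63
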