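import Pool.Agent.Lib.MP_d63cb0_gt.H63.Final
import Pool.Agent.Lib.MP_d63cb0_gt.H15.Final

/-! The model in which the converse fails, in terms of the realcompactification. -/

namespace Pool.Agent.Lib.MP_d63cb0_gt.H63

open Pool.Agent.Lib.MP_fecf72_lc Pool.Agent.Lib.MP_d63cb0_gt.H15 Set Filter T87

theorem club_good {U : Type 1} {R : U → U → Prop} {tp : U} (ht : ∀ p, R p p → R p tp) (hR : Fo R) :
    ∀ᶠ N in Club, ∀ G, GG N R G → Good (Mod N G) := by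
  have n : Nd R ℕ := Tm.nat ht hR fun n => n
  have q : Nd R ℚ := Tm.nat ht hR Encodable.encode
  have q5 := q.prod ht hR (q.prod ht hR (q.prod ht hR (q.prod ht hR q)))
  filter_upwards [club_zfc ht hR, st_TUK _ _ _ ht hR, n.mem ht hR univ,
    q.mem ht hR univ, (q.prod ht hR q).mem ht hR {z | z.1 < z.2},
    q5.mem ht hR (Box fun x y => x + y), q5.mem ht hR (Box fun x y => x * y),
    (n.prod ht hR q).mem ht hR {z | (z.1 : ℚ) = z.2},
    (n.prod ht hR (n.prod ht hR n)).mem ht hR {z | z.1.unpair = z.2},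
    (n.prod ht hR n).mem ht hR {z | z.1 % 2 = z.2},
    (n.prod ht hR q).mem ht hR {z | Denumerable.ofNat ℚ z.1 = z.2}]
    with N h0 h1 h2 h3 h4 h5 h6 h7 h8 h9 h10 G hG
  exact { h := h0 G hG, nat := h2 G hG, rat := h3 G hG, lt := h4 G hG, add := h5 G hG,
          mul := h6 G hG, cast := h7 G hG, unp := h8 G hG, par := h9 G hG, sur := h10 G hG,
          tuk := h1 G hG }

theorem lind_of_ups {M : Set V} [Good M] (S : TS M) (h1 : RealCpt M S.sp) (h2 : UpsLind M S.sp) :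
    Lind M S.sp := by
  intro (F : Set (Set S.X)) a1 (a2 : cd F ∈ M) a3
  obtain ⟨(F' : Set (S.X → ℝ)), b1, (b2 : cd F' ∈ M), ⟨e, b3, b4⟩, b5⟩ := h2
    {f ∈ S.C | ∃ W ∈ F, ∀ x, f x ≠ 0 → x ∈ W} (fun f k => (TS.C_eq (S := S)).ge k.1)
    (Df.sep (M := M) (P := fun f : S.X → ℝ => ∃ W ∈ F, ∀ x, f x ≠ 0 → x ∈ W) (by
      apply_rules (maxDepth := 400) (transparency := .reducible) [Df.exS, Df.all, Df.ne, Df.imp,
        Df.mem, Dm.id, Dm.fst, Dm.snd, Dm.const, Dm.app, zero_mem]) TS.C_mem) fun h k => by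
      obtain ⟨a, c1⟩ := h1 h k.1 k.2.1 k.2.2
      obtain ⟨W, c2, c3⟩ := a3.ge (mem_univ a)
      obtain ⟨c, c4, c5, c6⟩ := S.ty.creg W (a1 c2) a c3
      have c7 := C_rn.sub C_rn.one ((TS.C_eq (S := S)).le c4)
      exact ⟨_, ⟨c7, W, c2, fun x l => not_not.1 fun l' => l (sub_eq_zero.2 (c6 x l').symm)⟩,
        (c1 _ ((TS.C_eq (S := S)).ge c7)).trans_ne (by simp [c5])⟩
  have b6 : cd e ∈ M := cd_seq e ▸ b3
  have b7 : cd (∅ : Set S.X) ∈ M := finite_mem finite_empty (by simp)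
  obtain ⟨U, c1, c2⟩ := Df.choice (M := M) (P := fun (n : ℕ) (W : Set S.X) => (W ∈ F ∨ W = ∅) ∧
    ∀ f ∈ F', e n = cd f → ∀ x, f x ≠ 0 → x ∈ W) (by
      apply_rules (maxDepth := 400) (transparency := .reducible) [Df.and, Df.or, Df.allS, Df.all,
        Df.ne, Df.imp, Df.eq, Df.mem, Dm.id, Dm.fst, Dm.snd, Dm.const, Dm.toV, Dm.app, zero_mem])
    fun n => by
      by_cases k : ∃ f ∈ F', e n = cd f
      · obtain ⟨f, k1, k2⟩ := k
        obtain ⟨W, k3, k4⟩ := (b1 k1).2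
        exact ⟨W, cd_of_mem a2 k3, Or.inl k3, fun f' _ l => Cd.inj (k2.symm.trans l) ▸ k4⟩
      · exact ⟨∅, b7, Or.inr rfl, fun f l l' => (k ⟨f, l, l'⟩).elim⟩
  refine ⟨{W ∈ F | ∃ n, U n = W}, sep_subset _ _, Df.sep (M := M) (Df.ex
    (P := fun W n => U n = W) (Df.eq (Dm.capp c1 Dm.id.snd) Dm.id.fst)) a2, ⟨fun n => cd (U n), cd_seq U ▸ c1, fun y k => ?_⟩,
    eq_univ_of_forall fun a : S.X => ?_⟩
  · obtain ⟨_, ⟨-, n, rfl⟩, rfl⟩ := mem_img.1 k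
    exact ⟨n, rfl⟩
  · obtain ⟨f, d1, d2⟩ := b5 (fun f => f a) ⟨TS.C_eq (S := S) ▸ img_mem
      (g := fun f : S.X → ℝ => (f, f a)) (Dm.id.prod (Dm.id.app (Dm.const (sm_mem (M := M) a))))
      TS.C_mem, fun _ _ _ _ => ⟨rfl, rfl⟩, fun _ _ => rfl⟩
    obtain ⟨n, d3⟩ := b4 _ (mem_img.2 ⟨f, d1, rfl⟩)
    have := (c2 n).2 f d1 d3 a d2
    exact ⟨U n, ⟨(c2 n).1.resolve_right fun l => (l ▸ this : a ∈ (∅ : Set S.X)), n, rfl⟩, this⟩

theorem cex : ∃ M : Set V, M.Countable ∧ IsZFC M ∧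
    ¬ ∀ S : Sp, Tych M S → (∀ A, IsALG M S A → IsCY M S A) → UpsLind M S := by
  obtain ⟨N, h1, h2, h3, h4, h5, h6, G, hG⟩ := (club_countable.and ((club_good H15.le_tp H15.fo).and
    (club_tych.and (club_rc.and (club_nl.and (club_cy.and
      (club_gg H15.fo H15.tp val_tp.le))))))).exists
  have := h2 G hG
  exact ⟨Mod N G, (countable_In _ h1).image _, Zf.h, fun k => h5 G hG
    (lind_of_ups ⟨_, h3 G hG⟩ (h4 G hG) (k _ (h3 G hG) (h6 G hG)))⟩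

end Pool.Agent.Lib.MP_d63cb0_gt.H63
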