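import Pool.Agent.Lib.MP_d63cb0_gt.H63.Ultra
import Pool.Agent.Lib.MP_d63cb0_gt.H63.BlueM

/-! Names for the sets that are used in the ultrapower step. -/

namespace Pool.Agent.Lib.MP_d63cb0_gt.H63

open Pool.Agent.Lib.MP_fecf72_lc Pool.Agent.Lib.MP_d63cb0_gt.H15 Set Filter Cardinal

variable {K : Type 1} (P : Type 2)

theorem club_g : ∀ᶠ N in Club, ∀ G : Set (Cn K), GG N Le G →
    ∀ (F : Nm (Cn K) → Nm (Cn K)) (y : P → Nm (Cn K)), In N F → In N y →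
      ∃ g : Nm (Cn K) → P → ℚ → Set (Cn K), In N g ∧ ∀ σ a, In N σ → In N a → In N (g σ a) ∧
        ∀ q, (Hd G (g σ a q) ↔ ∃ z ∈ Mod N G, ZFSet.pair (val N G (F σ)) z ∈ val N G (y a) ∧
          natC (Encodable.encode q) ∈ z) := by
  obtain ⟨b, h⟩ : Fc Le fun (w : (((Nm (Cn K) → Nm (Cn K)) × (P → Nm (Cn K))) × Nm (Cn K) × P) × ℚ)
      N G => ∃ z ∈ Mod N G, ZFSet.pair (val N G (w.1.1.1 w.1.2.1)) z ∈ val N G (w.1.1.2 w.1.2.2) ∧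
        natC (Encodable.encode w.2) ∈ z :=
    Fc.exM fo ((Tm.mem fo (Tm.pair le_tp fo (Tm.val _) (Tm.val _)) (Tm.val _)).and
      (Tm.mem fo (Tm.nat le_tp fo _) (Tm.val _)))
  filter_upwards [h, club_pr, clo2 fun F y σ a q => b (((F, y), σ, a), q),
    club_all fun q : ℚ => clo1 fun w : ((Nm (Cn K) → Nm (Cn K)) × (P → Nm (Cn K))) × Nm (Cn K) × P =>
      (w, q), clo3' fun (g : Nm (Cn K) → P → ℚ → Set (Cn K)) σ a => g σ a]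
    with N h pr h1 h2 h3 G hG F y a1 a2
  exact ⟨_, h1 F y a1 a2, fun σ a b1 b2 => ⟨h3 _ σ a (h1 F y a1 a2) b1 b2, fun q =>
    (h G hG _ (h2 q _ (pr _ _ _ _ (pr _ _ _ _ a1 a2) (pr _ _ _ _ b1 b2)))).symm⟩⟩

theorem club_seq : ∀ᶠ N in Club, ∀ G : Set (Cn K), GG N Le G →
    ∀ (π : Nm (Cn K)) (y : P → Nm (Cn K)), In N π → In N y →
      ∃ b : ℕ → P → Set (Cn K), In N b ∧ ∀ i a, In N a → (Hd G (b i a) ↔ ¬ ∃ z ∈ Mod N G,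
        ZFSet.pair (natC i) z ∈ val N G π ∧ ZFSet.pair z (realC 0) ∈ val N G (y a)) := by
  obtain ⟨b, h⟩ : Fc Le fun (w : ((Nm (Cn K) × (P → Nm (Cn K))) × P) × ℕ) N G => ¬ ∃ z ∈ Mod N G,
      ZFSet.pair (natC w.2) z ∈ val N G w.1.1.1 ∧
        ZFSet.pair z (realC 0) ∈ val N G (w.1.1.2 w.1.2) :=
    (Fc.exM fo ((Tm.mem fo (Tm.pair le_tp fo (Tm.nat le_tp fo _) (Tm.val _)) (Tm.val _)).and
      (Tm.mem fo (Tm.pair le_tp fo (Tm.val _) ((Tm.real le_tp fo).comap fun _ => 0))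
        (Tm.val _)))).not
  filter_upwards [h, club_pr, clo2 fun π y i a => b (((π, y), a), i),
    club_all fun i : ℕ => clo1 fun w : (Nm (Cn K) × (P → Nm (Cn K))) × P => (w, i)]
    with N h pr h1 h2 G hG π y a1 a2
  exact ⟨_, h1 π y a1 a2, fun i a b1 =>
    (h G hG _ (h2 i _ (pr _ _ _ _ (pr _ _ _ _ a1 a2) b1))).symm⟩

theorem club_id : ∀ᶠ N in Club, ∀ G : Set (Cn K), GG N Le G →
    ∀ (c : Nm (Cn K)) (F : Nm (Cn K) → Nm (Cn K)) (y : P → Nm (Cn K)) (W : Ultrafilter P)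
      (r : P → Cn K), In N c → In N F → In N y → In N W → In N r → ∃ w ∈ Mod N G, ∀ z, z ∈ w ↔
        ∃ σ, In N σ ∧ σ ∈ Lam c ∧ AE N G W r (fun a => ZFSet.pair (val N G (F σ)) (realC 0) ∈
          val N G (y a)) ∧ z = val N G (F σ) := by
  let ι := Nm (Cn K) × (Nm (Cn K) → Nm (Cn K)) × (P → Nm (Cn K)) × Ultrafilter P × (P → Cn K)
  have h0 : Fc Le fun (w : ((ι × Nm (Cn K)) × Set P) × P) N G => w.2 ∈ w.1.2 →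
      Hd G {w.1.1.1.2.2.2.2 w.2} → ZFSet.pair (val N G (w.1.1.1.2.1 w.1.1.2)) (realC 0) ∈
        val N G (w.1.1.1.2.2.1 w.2) :=
    (Fc.ground _).imp ((Fc.hd _).imp (Tm.mem fo (Tm.pair le_tp fo (Tm.val _)
      ((Tm.real le_tp fo).comap fun _ => 0)) (Tm.val _)))
  have h1 := Fc.ex fo (Θ := fun (w : ι × Nm (Cn K)) (B : Set P) N G => B ∈ w.1.2.2.2.1 ∧
    ∀ a, In N a → a ∈ B → Hd G {w.1.2.2.2.2 a} → ZFSet.pair (val N G (w.1.2.1 w.2)) (realC 0) ∈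
      val N G (w.1.2.2.1 a)) ((Fc.ground _).and (Fc.all fo h0))
  obtain ⟨n, h⟩ := st_FAM (Cn K) Le fo ι (fun w => w.1) (fun w σ N G => AE N G w.2.2.2.1 w.2.2.2.2
    fun a => ZFSet.pair (val N G (w.2.1 σ)) (realC 0) ∈ val N G (w.2.2.1 a))
    (fun w σ N G => val N G (w.2.1 σ)) (h1.congr (Eventually.of_forall fun N G _ w _ =>
      ⟨fun ⟨B, a, b, c⟩ => ⟨B, b, a, fun x d e ⟨_, f, i⟩ => c x e d (i ▸ f)⟩,
        fun ⟨B, a, b, c⟩ => ⟨B, b, a, fun x d e f => c x e d ⟨_, f, rfl⟩⟩⟩)) (Tm.val _)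
  filter_upwards [h, club_pr, clo1 n] with N h pr h1 G hG c F y W r a1 a2 a3 a4 a5
  have := pr _ _ _ _ a1 (pr _ _ _ _ a2 (pr _ _ _ _ a3 (pr _ _ _ _ a4 a5)))
  exact ⟨_, ⟨_, h1 _ this, rfl⟩, h G hG _ this⟩

/-- least witnesses -/
def Lw (A : ℕ → Prop) (m : ℕ) : Prop := A m ∧ ∀ m', m' < m → ¬ A m'

theorem Lw.ex {A : ℕ → Prop} (h : ∃ m, A m) : ∃ m, Lw A m := by
  classical
  exact ⟨_, Nat.find_spec h, fun _ => Nat.find_min h⟩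

theorem Lw.eq {A : ℕ → Prop} {m m' : ℕ} (h : Lw A m) (k : Lw A m') : m = m' :=
  le_antisymm (not_lt.1 fun a => h.2 _ a k.1) (not_lt.1 fun a => k.2 _ a h.1)

theorem Fc.lw {ι : Type 2} (b : ι → ℕ → Set (Cn K)) (m : ι → ℕ) :
    Fc Le fun a _ G => Lw (fun m => Hd G (b a m)) (m a) :=
  (Fc.hd _).and (Fc.allc fo (Θ := fun a m' _ G => m' < m a → ¬ Hd G (b a m'))
    ((Fc.ground _).imp (Fc.hd _).not))

variable {P}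

/-- the data that select the switches -/
structure Pk (K : Type 1) (P : Type 2) : Type 2 where
  D : Dat K P (Nm (Cn K))
  gd : ℕ → Set (P → Cn K)
  Z : ℕ → ℕ → P → Cn K

/-- the selected switches: level, digit, candidate, try -/
def Pk.Sel (k : Pk K P) (G : Set (Cn K)) (j : ℕ) (ξ : Nm (Cn K)) (i : ℕ × ℕ × ℕ × ℕ) : Prop :=
  (i.1 % 2 = j ∧ i.2.1 ≤ i.1) ∧
    Lw (fun m => Hd G {p | k.Z i.1 m ∈ k.gd i.1 ∧ p = k.D.e i.1 (k.Z i.1 m)}) i.2.2.1 ∧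
    Lw (fun t => Hd G {k.D.d i.1 (k.Z i.1 i.2.2.1) ξ i.2.1 t}) i.2.2.2

/-- the function that is switched -/
def Pk.ix (k : Pk K P) (ξ : Nm (Cn K)) (i : ℕ × ℕ × ℕ × ℕ) : Nm (Cn K) :=
  k.D.ix i.1 (k.Z i.1 i.2.2.1) ξ i.2.1 i.2.2.2

/-- the lower bound -/
def Pk.lo (k : Pk K P) (ξ : Nm (Cn K)) (i : ℕ × ℕ × ℕ × ℕ) : ℚ :=
  k.D.lo i.1 (k.Z i.1 i.2.2.1) ξ i.2.1 i.2.2.2

/-- the upper bound -/
def Pk.hi (k : Pk K P) (ξ : Nm (Cn K)) (i : ℕ × ℕ × ℕ × ℕ) : ℚ :=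
  k.D.hi i.1 (k.Z i.1 i.2.2.1) ξ i.2.1 i.2.2.2

/-- the two conditions -/
def Pk.c (k : Pk K P) (ξ : Nm (Cn K)) (i : ℕ × ℕ × ℕ × ℕ) (ε : Bool) : P → Cn K :=
  k.D.c i.1 (k.Z i.1 i.2.2.1) ξ i.2.1 i.2.2.2 ε

variable (P)

theorem club_tn (j : ℕ) : ∀ᶠ N in Club, ∀ G : Set (Cn K), GG N Le G →
    ∀ (c : Nm (Cn K)) (F : Nm (Cn K) → Nm (Cn K)) (R : Set (Nm (Cn K))) (k : Pk K P),
      In N c → In N F → In N R → In N k → ∃ w ∈ Mod N G, ∀ z, z ∈ w ↔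
        ∃ ξ, In N ξ ∧ ξ ∈ Lam c ∧ ξ ∈ R ∧ z = ZFSet.pair (val N G (F ξ)) (img {i | k.Sel G j ξ i}
          fun i => cd (i.1, i.2.1, k.lo ξ i, k.hi ξ i, val N G (F (k.ix ξ i)))) := by
  let ι := Nm (Cn K) × (Nm (Cn K) → Nm (Cn K)) × Set (Nm (Cn K)) × Pk K P
  have h0 := Tm.img le_tp fo (ι := ι × Nm (Cn K)) (κ := ℕ × ℕ × ℕ × ℕ)
    (Θ := fun w i _ G => w.1.2.2.2.Sel G j w.2 i)
    (s := fun w i N G => cd (i.1, i.2.1, w.1.2.2.2.lo w.2 i, w.1.2.2.2.hi w.2 i,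
      val N G (w.1.2.1 (w.1.2.2.2.ix w.2 i))))
    ((Fc.ground _).and ((Fc.lw _ _).and (Fc.lw _ _)))
    (Tm.pair le_tp fo (Tm.nat le_tp fo _) (Tm.pair le_tp fo (Tm.nat le_tp fo _)
      (Tm.pair le_tp fo (Tm.nat le_tp fo _) (Tm.pair le_tp fo (Tm.nat le_tp fo _) (Tm.val _)))))
  obtain ⟨n, h⟩ := st_FAM (Cn K) Le fo ι (fun w => w.1) (fun w σ _ _ => σ ∈ w.2.2.1)
    (fun w σ N G => ZFSet.pair (val N G (w.2.1 σ)) (img {i | In N i ∧ w.2.2.2.Sel G j σ i}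
      fun i => cd (i.1, i.2.1, w.2.2.2.lo σ i, w.2.2.2.hi σ i, val N G (w.2.1 (w.2.2.2.ix σ i)))))
    (Fc.ground _) (Tm.pair le_tp fo (Tm.val _) h0)
  filter_upwards [h, club_pr, clo1 n, clo_ctbl (ℕ × ℕ × ℕ × ℕ)]
    with N h pr h1 h2 G hG c F R k a1 a2 a3 a4
  have := pr _ _ _ _ a1 (pr _ _ _ _ a2 (pr _ _ _ _ a3 a4))
  refine ⟨_, ⟨_, h1 _ this, rfl⟩, fun z => (h G hG _ this z).trans ?_⟩
  simp only [h2, true_and]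
  rfl

theorem club_pk : ∀ᶠ N in Club, ∀ G : Set (Cn K), GG N Le G →
    ∀ (D : Dat K P (Nm (Cn K))) (gd : ℕ → Set (P → Cn K)), In N D → In N gd →
      ∃ k : Pk K P, In N k ∧ k.D = D ∧ k.gd = gd ∧ (∀ n m, In N (k.Z n m)) ∧
        (∀ ξ i, In N ξ → In N (k.ix ξ i) ∧ ∀ ε, In N (k.c ξ i ε)) ∧
        (∀ n, (∃ q ∈ G, ∀ p, Le p q → ∃ r ∈ gd n, Le (D.e n r) p) →
          ∃ m, Hd G {p | k.Z n m ∈ gd n ∧ p = D.e n (k.Z n m)}) ∧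
        ∀ n m ξ l, In N ξ → (∃ q ∈ G, ∀ p, Le p q → ∃ t s, Le s p ∧ D.d n (k.Z n m) ξ l t ⊆ s) →
          ∃ t, Hd G {D.d n (k.Z n m) ξ l t} := by
  obtain ⟨Z, h⟩ := st_CC K ((Dat K P (Nm (Cn K)) × (ℕ → Set (P → Cn K))) × ℕ) (P → Cn K)
    (fun w r _ G => Hd G {p | r ∈ w.1.2 w.2 ∧ p = w.1.1.e w.2 r}) (Fc.hd _)
  filter_upwards [h, club_pr, clo2 fun D gd => Pk.mk D gd fun n m => Z ((D, gd), n) m,
    club_all fun n : ℕ => clo1 fun w : Dat K P (Nm (Cn K)) × (ℕ → Set (P → Cn K)) => (w, n),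
    club_all fun z : ℕ × ℕ => clo1 fun k : Pk K P => k.Z z.1 z.2,
    club_all fun i => clo2 fun (k : Pk K P) ξ => k.ix ξ i,
    club_all fun z : (ℕ × ℕ × ℕ × ℕ) × Bool => clo2 fun (k : Pk K P) ξ => k.c ξ z.1 z.2,
    club_all fun n : ℕ => club_wit2 fo fun (w : Dat K P (Nm (Cn K)) × (ℕ → Set (P → Cn K))) s r =>
      r ∈ w.2 n ∧ s = w.1.e n r,
    club_all fun z : ℕ × ℕ × ℕ => club_wit2 fo fun (w : Pk K P × Nm (Cn K)) s (t : ℕ) =>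
      Le s (w.1.D.d z.1 (w.1.Z z.1 z.2.1) w.2 z.2.2 t)]
    with N h pr h1 h2 h3 h4 h5 h6 h7 G hG D gd a1 a2
  have b1 := h1 D gd a1 a2
  have b2 := pr _ _ _ _ a1 a2
  refine ⟨_, b1, rfl, rfl, fun n m => h3 (n, m) _ b1, fun ξ i k => ⟨h4 i _ ξ b1 k, fun ε =>
    h5 (i, ε) _ ξ b1 k⟩, fun n ⟨q, c1, c2⟩ => ?_, fun n m ξ l k ⟨q, c1, c2⟩ => ?_⟩
  · obtain ⟨s, d1, r, d2, d3⟩ := h6 n G hG _ b2 ⟨q, c1, fun p k =>
      let ⟨r, e1, e2⟩ := c2 p k; ⟨_, r, e2, e1, rfl⟩⟩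
    exact h G hG _ (h2 n _ b2) ⟨r, d2, s, d1, d3⟩
  · obtain ⟨s, d1, t, -, d3⟩ := h7 (n, m, l) G hG _ (pr _ _ _ _ b1 k) ⟨q, c1, fun p k =>
      let ⟨t, s, e1, e2⟩ := c2 p k; ⟨s, t, e1, e2, e1.2⟩⟩
    exact ⟨t, _, hG.f.1 s d1 _ d3, rfl⟩

end Pool.Agent.Lib.MP_d63cb0_gt.H63
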