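import Pool.Agent.Lib.MP_d63cb0_gt.H63.Df
import Pool.Agent.Lib.MP_d63cb0_gt.H63.BlueF

/-! Real arithmetic and topology inside a model. -/

set_option linter.unusedSectionVars false

namespace Pool.Agent.Lib.MP_d63cb0_gt.H63

open Pool.Agent.Lib.MP_fecf72_lc Pool.Agent.Lib.MP_d63cb0_gt.H15 Set Topology Filter

universe u v w

/-- rational boxes on which `F` is above a rational -/
def Box (F : ℝ → ℝ → ℝ) : Set (ℚ × ℚ × ℚ × ℚ × ℚ) :=
  {z | ∀ x y : ℝ, z.1 < x → x < z.2.1 → z.2.2.1 < y → y < z.2.2.2.1 → z.2.2.2.2 < F x y}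

/-- models with the arithmetical facts that are used -/
class Good (M : Set V) : Prop extends Zf M where
  nat : cd (univ : Set ℕ) ∈ M
  rat : cd (univ : Set ℚ) ∈ M
  lt : cd {z : ℚ × ℚ | z.1 < z.2} ∈ M
  add : cd (Box fun x y => x + y) ∈ M
  mul : cd (Box fun x y => x * y) ∈ M
  cast : cd {z : ℕ × ℚ | (z.1 : ℚ) = z.2} ∈ M
  unp : cd {z : ℕ × ℕ × ℕ | z.1.unpair = z.2} ∈ M
  par : cd {z : ℕ × ℕ | z.1 % 2 = z.2} ∈ M
  sur : cd {z : ℕ × ℚ | Denumerable.ofNat ℚ z.1 = z.2} ∈ M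
  tuk : Tukey M

variable {M : Set V} [Good M] {α : Type u} [Cd α]

instance smNat : Sm M ℕ := ⟨Good.nat⟩
instance smRat : Sm M ℚ := ⟨Good.rat⟩

theorem Df.ltQ {f g : α → ℚ} (h : Dm M f) (k : Dm M g) : Df M fun a => f a < g a :=
  Df.mem (s := fun _ => {z : ℚ × ℚ | z.1 < z.2}) (h.prod k) (Dm.const Good.lt)

theorem Df.qlt {f : α → ℚ} {g : α → ℝ} (h : Dm M f) (k : Dm M g) :
    Df M fun a => (f a : ℝ) < g a := (Df.memV h.toV k.toV).congr fun _ _ => mem_realC.symm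

theorem Dm.ofLt {f : α → ℝ} (h : Df M fun z : α × ℚ => (z.2 : ℝ) < f z.1) : Dm M f :=
  Dm.ofV (Dm.set (P := fun a (q : ℚ) => (q : ℝ) < f a) h).toV

theorem Dm.unpair {f : α → ℕ} (h : Dm M f) : Dm M fun a => (f a).unpair :=
  Dm.capp (cd_graph Nat.unpair ▸ Good.unp) h

theorem Dm.par {f : α → ℕ} (h : Dm M f) : Dm M fun a => f a % 2 :=
  Dm.capp (f := fun n : ℕ => n % 2) (cd_graph (fun n : ℕ => n % 2) ▸ Good.par) h

theorem Dm.sur {f : α → ℕ} (h : Dm M f) : Dm M fun a => Denumerable.ofNat ℚ (f a) :=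
  Dm.capp (cd_graph (Denumerable.ofNat ℚ) ▸ Good.sur) h

theorem Dm.ratCast {f : α → ℚ} (h : Dm M f) : Dm M fun a => (f a : ℝ) :=
  Dm.ofLt ((Df.ltQ Dm.id.snd (h.comp Dm.id.fst)).congr fun _ _ => Rat.cast_lt)

theorem Dm.natCastQ {f : α → ℕ} (h : Dm M f) : Dm M fun a => (f a : ℚ) :=
  Dm.capp (f := fun n : ℕ => (n : ℚ)) (cd_graph (fun n : ℕ => (n : ℚ)) ▸ Good.cast) h

theorem Dm.natCast {f : α → ℕ} (h : Dm M f) : Dm M fun a => (f a : ℝ) :=
  h.natCastQ.ratCast.congr fun _ _ => (Rat.cast_natCast _).symm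

theorem rat_mem (q : ℚ) : cd (q : ℝ) ∈ M := Dm.id.ratCast.maps (sm_mem q)

theorem nat_mem (n : ℕ) : cd (n : ℝ) ∈ M := Dm.id.natCast.maps (sm_mem n)

theorem zero_mem : cd (0 : ℝ) ∈ M := by simpa using nat_mem (M := M) 0

theorem one_mem : cd (1 : ℝ) ∈ M := by simpa using nat_mem (M := M) 1

theorem two_mem : cd (2 : ℝ) ∈ M := by simpa using nat_mem (M := M) 2

section
variable {f g : α → ℝ}

theorem Df.lt (h : Dm M f) (k : Dm M g) : Df M fun a => f a < g a :=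
  (Df.ex (P := fun a (q : ℚ) => ¬ (q : ℝ) < f a ∧ (q : ℝ) < g a)
    ((Df.qlt Dm.id.snd (h.comp Dm.id.fst)).not.and (Df.qlt Dm.id.snd (k.comp Dm.id.fst)))).congr
    fun _ _ => ⟨fun e => let ⟨q, a, b⟩ := exists_rat_btwn e; ⟨q, a.not_gt, b⟩,
      fun ⟨_, a, b⟩ => (not_lt.1 a).trans_lt b⟩

theorem Df.le (h : Dm M f) (k : Dm M g) : Df M fun a => f a ≤ g a :=
  (Df.lt k h).not.congr fun _ _ => not_lt.symm

theorem Dm.cont2 {F : ℝ → ℝ → ℝ} (hF : Continuous fun z : ℝ × ℝ => F z.1 z.2)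
    (hB : cd (Box F) ∈ M) (h : Dm M f) (k : Dm M g) : Dm M fun a => F (f a) (g a) := by
  have h' := h.comp (Dm.id (α := (α × ℚ) × ℚ × ℚ × ℚ × ℚ)).fst.fst
  have k' := k.comp (Dm.id (α := (α × ℚ) × ℚ × ℚ × ℚ × ℚ)).fst.fst
  refine Dm.ofLt ((Df.ex (P := fun (z : α × ℚ) (b : ℚ × ℚ × ℚ × ℚ) => (b.1 : ℝ) < f z.1 ∧
    f z.1 < b.2.1 ∧ (b.2.2.1 : ℝ) < g z.1 ∧ g z.1 < b.2.2.2 ∧
      (b.1, b.2.1, b.2.2.1, b.2.2.2, z.2) ∈ Box F)
    ((Df.qlt Dm.id.snd.fst h').and ((Df.lt h' Dm.id.snd.snd.fst.ratCast).and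
      ((Df.qlt Dm.id.snd.snd.snd.fst k').and ((Df.lt k' Dm.id.snd.snd.snd.snd.ratCast).and
      (Df.mem (Dm.id.snd.fst.prod (Dm.id.snd.snd.fst.prod (Dm.id.snd.snd.snd.fst.prod
        (Dm.id.snd.snd.snd.snd.prod Dm.id.fst.snd)))) (Dm.const hB))))))).congr fun z _ =>
    ⟨fun e => ?_, fun ⟨_, a, b, c, d, e⟩ => e _ _ a b c d⟩)
  obtain ⟨s, t, hs, ht, a, b, c⟩ := isOpen_prod_iff.1 (isOpen_lt continuous_const hF) _ _ e
  obtain ⟨l, u, ⟨h1, h2⟩, h3⟩ := mem_nhds_iff_exists_Ioo_subset.1 (hs.mem_nhds a)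
  obtain ⟨l', u', ⟨h4, h5⟩, h6⟩ := mem_nhds_iff_exists_Ioo_subset.1 (ht.mem_nhds b)
  obtain ⟨p1, a1, a2⟩ := exists_rat_btwn h1
  obtain ⟨p2, a3, a4⟩ := exists_rat_btwn h2
  obtain ⟨p3, a5, a6⟩ := exists_rat_btwn h4
  obtain ⟨p4, a7, a8⟩ := exists_rat_btwn h5
  exact ⟨(p1, p2, p3, p4), a2, a3, a6, a7, fun x y b1 b2 b3 b4 => c (mk_mem_prod
    (h3 ⟨a1.trans b1, b2.trans a4⟩) (h6 ⟨a5.trans b3, b4.trans a8⟩))⟩

theorem Dm.add (h : Dm M f) (k : Dm M g) : Dm M fun a => f a + g a :=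
  Dm.cont2 continuous_add Good.add h k

theorem Dm.mul (h : Dm M f) (k : Dm M g) : Dm M fun a => f a * g a :=
  Dm.cont2 continuous_mul Good.mul h k

theorem Dm.neg (h : Dm M f) : Dm M fun a => -f a :=
  ((Dm.const (rat_mem (-1))).mul h).congr fun _ _ => by simp

theorem Dm.sub (h : Dm M f) (k : Dm M g) : Dm M fun a => f a - g a :=
  (h.add k.neg).congr fun _ _ => sub_eq_add_neg _ _

theorem Dm.max (h : Dm M f) (k : Dm M g) : Dm M fun a => max (f a) (g a) :=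
  Dm.ofLt (((Df.qlt Dm.id.snd (h.comp Dm.id.fst)).or (Df.qlt Dm.id.snd (k.comp Dm.id.fst))).congr
    fun _ _ => lt_max_iff)

theorem Dm.min (h : Dm M f) (k : Dm M g) : Dm M fun a => min (f a) (g a) :=
  Dm.ofLt (((Df.qlt Dm.id.snd (h.comp Dm.id.fst)).and (Df.qlt Dm.id.snd (k.comp Dm.id.fst))).congr
    fun _ _ => lt_min_iff)

theorem Dm.abs (h : Dm M f) : Dm M fun a => |f a| :=
  (h.max h.neg).congr fun _ _ => abs_eq_max_neg

theorem Dm.inv (h : Dm M f) : Dm M fun a => (f a)⁻¹ := by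
  have h' := h.comp (Dm.id (α := α × ℚ)).fst
  have q := (Dm.id (M := M) (α := α × ℚ)).snd.ratCast
  have z := Dm.const (M := M) (α := α × ℚ) zero_mem
  have o := Dm.const (M := M) (α := α × ℚ) one_mem
  refine Dm.ofLt ((((Df.lt z h').and (Df.lt (q.mul h') o)).or (((Df.eq h' z).and (Df.lt q z)).or
    ((Df.lt h' z).and (Df.lt o (q.mul h'))))).congr fun z _ => ?_)
  rcases lt_trichotomy (f z.1) 0 with e | e | e
  · simp [e, e.not_gt, e.ne, inv_eq_one_div, lt_div_iff_of_neg e, -one_div]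
  · simp [e]
  · simp [e, e.not_gt, e.ne', inv_eq_one_div, lt_div_iff₀ e, -one_div]

theorem Dm.div (h : Dm M f) (k : Dm M g) : Dm M fun a => f a / g a :=
  (h.mul k.inv).congr fun _ _ => div_eq_mul_inv _ _

end

theorem Df.leN {f g : α → ℕ} (h : Dm M f) (k : Dm M g) : Df M fun a => f a ≤ g a :=
  (Df.le h.natCast k.natCast).congr fun _ _ => Nat.cast_le.symm

instance sgReal : Sg M ℝ := by
  have : Rng M ℝ := Rng.of ((Df.exM (P := fun (y : V) (s : Set ℚ) => (cd s : V) = y ∧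
      (∃ q, q ∈ s) ∧ (∃ q, ∀ p ∈ s, p < q) ∧ ∀ q, q ∈ s ↔ ∃ p ∈ s, q < p)
      (by apply_rules (maxDepth := 400) (transparency := .reducible) [Df.and, Df.iff, Df.exS,
      Df.ex, Df.allS, Df.all, Df.eq, Df.mem, Df.ltQ, Df.lt, Dm.set, Dm.id, Dm.fst, Dm.snd, Dm.toV,
      Dm.ratCast, Dm.app, Dm.const])).congr fun y e => ⟨?_, ?_⟩)
  · exact Sg.of (Sg.h (ι := Set ℚ)) fun r h =>
      cd_mem_cd (s := {s : Set ℚ | cd s ∈ M}) (a := {q : ℚ | (q : ℝ) < r}).2 h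
  · rintro ⟨r, rfl⟩
    refine ⟨{q : ℚ | (q : ℝ) < r}, e, rfl, exists_rat_lt r, ?_, fun q => ⟨fun k => ?_,
      fun ⟨p, a, b⟩ => lt_trans (Rat.cast_lt.2 b : (q : ℝ) < p) a⟩⟩
    · obtain ⟨q, k⟩ := exists_rat_gt r
      exact ⟨q, fun p a => Rat.cast_lt.1 (lt_trans a k)⟩
    · obtain ⟨p, a, b⟩ := exists_rat_btwn (show (q : ℝ) < r from k)
      exact ⟨p, b, Rat.cast_lt.1 a⟩
  · rintro ⟨s, -, rfl, ⟨q, a⟩, ⟨u, b⟩, c⟩
    refine ⟨sSup ((↑) '' s : Set ℝ), congrArg (cd : Set ℚ → V) (Set.ext fun p => ?_)⟩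
    refine (lt_csSup_iff (s := ((↑) '' s : Set ℝ)) (a := p) ⟨u, by rintro _ ⟨p, k, rfl⟩; exact Rat.cast_le.2 (b p k).le⟩
      ⟨_, q, a, rfl⟩).trans (Iff.trans ?_ (c p).symm)
    simp

/-- a function with the common zeros of a sequence -/
noncomputable def sp {X : Type} (u : ℕ → X → ℝ) (x : X) : ℝ := ⨆ n, min |u n x| ((n : ℝ) + 1)⁻¹

/-- its finite approximations -/
noncomputable def pk {X : Type} (u : ℕ → X → ℝ) : ℕ → X → ℝ
  | 0 => fun _ => 0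
  | k + 1 => fun x => max (pk u k x) (min |u k x| ((k : ℝ) + 1)⁻¹)

section
variable {X : Type} {u : ℕ → X → ℝ} {x : X}

theorem inv_le_one' (n : ℕ) : ((n : ℝ) + 1)⁻¹ ≤ 1 :=
  inv_le_one_of_one_le₀ (by linarith [Nat.cast_nonneg (α := ℝ) n])

theorem sp_bdd : BddAbove (range fun n => min |u n x| ((n : ℝ) + 1)⁻¹) :=
  ⟨1, by rintro _ ⟨n, rfl⟩; exact (min_le_right _ _).trans (inv_le_one' n)⟩

theorem le_sp (n : ℕ) : min |u n x| ((n : ℝ) + 1)⁻¹ ≤ sp u x := le_ciSup sp_bdd n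

theorem sp_nonneg : 0 ≤ sp u x := (le_min (abs_nonneg _) (by positivity)).trans (le_sp 0)

theorem sp_zero : sp u x = 0 ↔ ∀ n, u n x = 0 :=
  ⟨fun h n => by
    have := (le_sp (u := u) (x := x) n).trans h.le
    rcases min_le_iff.1 this with k | k
    · exact abs_nonpos_iff.1 k
    · exact absurd k (not_le.2 (by positivity)),
  fun h => le_antisymm (ciSup_le fun n => by simp [h n]) sp_nonneg⟩

theorem sp_pk {ε : ℝ} (h : 0 < ε) : ∃ k, ∀ (u : ℕ → X → ℝ) x, |sp u x - pk u k x| < ε := by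
  obtain ⟨k, hk⟩ := exists_nat_one_div_lt h
  refine ⟨k, fun u x => ?_⟩
  have h1 : ∀ k, 0 ≤ pk u k x ∧ pk u k x ≤ sp u x ∧
      ∀ n < k, min |u n x| ((n : ℝ) + 1)⁻¹ ≤ pk u k x := by
    intro k
    induction k with
    | zero => exact ⟨le_rfl, sp_nonneg, by simp⟩
    | succ k ih =>
      refine ⟨ih.1.trans (le_max_left _ _), max_le ih.2.1 (le_sp k), fun n hn => ?_⟩
      rcases Nat.lt_succ_iff_lt_or_eq.1 hn with e | rfl
      exacts [(ih.2.2 n e).trans (le_max_left _ _), le_max_right _ _]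
  have h2 : sp u x ≤ pk u k x + ((k : ℝ) + 1)⁻¹ := ciSup_le fun n => by
    rcases lt_or_ge n k with e | e
    · exact ((h1 k).2.2 n e).trans (le_add_of_nonneg_right (by positivity))
    · refine (min_le_right _ _).trans (le_add_of_nonneg_of_le (h1 k).1 ?_)
      gcongr
  rw [one_div] at hk
  rw [abs_of_nonneg (sub_nonneg.2 (h1 k).2.1)]
  linarith

theorem sp_cont [TopologicalSpace X] (h : ∀ n, Continuous (u n)) : Continuous (sp u) := by
  have h1 : ∀ k, Continuous (pk u k) := fun k => by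
    induction k with
    | zero => exact continuous_const
    | succ k ih => exact ih.max ((h k).abs.min continuous_const)
  refine continuous_of_uniform_approx_of_continuous fun s hs => ?_
  obtain ⟨ε, a, b⟩ := Metric.mem_uniformity_dist.1 hs
  obtain ⟨k, c⟩ := sp_pk (X := X) a
  exact ⟨_, h1 k, fun x => b (c u x)⟩

end

theorem sp_mem {X : Type} [Cd X] [Sm M X] {u : ℕ → X → ℝ} (h : cd u ∈ M) : cd (sp u) ∈ M :=
  lam_mem (Dm.ofLt ((Df.ex (P := fun (z : X × ℚ) (n : ℕ) =>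
    (z.2 : ℝ) < min |u n z.1| ((n : ℝ) + 1)⁻¹) (Df.qlt Dm.id.fst.snd
      (((Dm.capp h Dm.id.snd).app Dm.id.fst.fst).abs.min
        (Dm.id.snd.natCast.add (Dm.const one_mem)).inv))).congr fun _ _ => lt_ciSup_iff sp_bdd))

/-- Tychonoff spaces of the model -/
structure TS (M : Set V) : Type 1 where
  sp : Sp
  ty : Tych M sp

/-- the points -/
def TS.X (S : TS M) : Type := S.sp.X

instance TS.cdX (S : TS M) : Cd S.X := ⟨S.sp.c, S.ty.inj⟩
instance TS.smX (S : TS M) : Sm M S.X := ⟨S.ty.mem⟩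
instance TS.top (S : TS M) : TopologicalSpace S.X := TopologicalSpace.generateFrom S.sp.T

/-- the open sets of the model -/
def TS.T (S : TS M) : Set (Set S.X) := S.sp.T

/-- the continuous functions of the model -/
def TS.C (S : TS M) : Set (S.X → ℝ) := {f | cd f ∈ M ∧ Continuous f}

variable {S : TS M}

theorem TS.T_mem : cd S.T ∈ M := S.ty.top

theorem TS.isOpen {W : Set S.X} (h : W ∈ S.T) : IsOpen W := TopologicalSpace.GenerateOpen.basic W h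

theorem TS.mem_T {W : Set S.X} (h : cd W ∈ M) (k : IsOpen W) : W ∈ S.T := by
  have b : TopologicalSpace.IsTopologicalBasis S.T :=
    ⟨fun s hs t ht x hx => ⟨_, S.ty.inter s hs t ht, hx, subset_rfl⟩,
      eq_univ_of_univ_subset (subset_sUnion_of_mem S.ty.all), rfl⟩
  have := S.ty.union {U ∈ S.T | ∀ x ∈ U, x ∈ W} (sep_subset _ _)
    (Df.sep (P := fun U : Set S.X => ∀ x ∈ U, x ∈ W) (by apply_rules (maxDepth := 400) (transparency := .reducible) [Df.and, Df.iff, Df.exS,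
      Df.ex, Df.allS, Df.all, Df.eq, Df.mem, Df.ltQ, Df.lt, Dm.set, Dm.id, Dm.fst, Dm.snd, Dm.toV,
      Dm.ratCast, Dm.app, Dm.const, TS.T_mem]) TS.T_mem)
  refine (Set.ext fun x => ⟨fun ⟨_, a, c⟩ => a.2 x c, fun a => ?_⟩ :
    sUnion {U ∈ S.T | ∀ x ∈ U, x ∈ W} = W) ▸ this
  obtain ⟨U, c, d, e⟩ := b.exists_subset_of_mem_open a k
  exact ⟨U, ⟨c, e⟩, d⟩

theorem TS.C_eq : S.sp.C M = S.C := by
  refine Set.ext fun f => and_congr_right fun (e : cd (α := S.X → ℝ) f ∈ M) => ⟨fun h => ?_,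
    fun h q => ⟨TS.mem_T ((Dm.set (P := fun (f : S.X → ℝ) a => f a < q)
      (Df.lt (Dm.id.fst.app Dm.id.snd) (Dm.const (rat_mem q)))).maps e)
      (isOpen_lt h continuous_const), TS.mem_T ((Dm.set (P := fun (f : S.X → ℝ) a => q < f a)
      (Df.lt (Dm.const (rat_mem q)) (Dm.id.fst.app Dm.id.snd))).maps e)
      (isOpen_lt continuous_const h)⟩⟩
  refine continuous_iff_lower_upperSemicontinuous.2 ⟨fun x y k => ?_, fun x y k => ?_⟩
  · obtain ⟨q, a, b⟩ := exists_rat_btwn k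
    exact mem_of_superset ((TS.isOpen (S := S) (h q).2).mem_nhds b) fun z c => a.trans c
  · obtain ⟨q, a, b⟩ := exists_rat_btwn k
    exact mem_of_superset ((TS.isOpen (S := S) (h q).1).mem_nhds a) fun z c => lt_trans c b

theorem TS.C_mem : cd S.C ∈ M :=
  (Set.ext fun f => by rw [← TS.C_eq]; rfl : {f ∈ {f : S.X → ℝ | cd f ∈ M} | ∀ q : ℚ,
    {a | f a < q} ∈ S.T ∧ {a | q < f a} ∈ S.T} = S.C) ▸ Df.sep (by
    apply_rules (maxDepth := 400) (transparency := .reducible) [Df.and, Df.iff, Df.exS,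
      Df.ex, Df.allS, Df.all, Df.eq, Df.mem, Df.ltQ, Df.lt, Dm.set, Dm.id, Dm.fst, Dm.snd, Dm.toV,
      Dm.ratCast, Dm.app, Dm.const, TS.T_mem]) Sg.h

theorem TS.sp_C {u : ℕ → S.X → ℝ} (h : cd u ∈ M) (k : ∀ n, u n ∈ S.C) : H63.sp u ∈ S.C :=
  ⟨sp_mem h, sp_cont fun n => (k n).2⟩

end Pool.Agent.Lib.MP_d63cb0_gt.H63
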