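import Pool.Agent.Lib.MP_d63cb0_gt.H63.Names

/-! The ultrapower step: the ideal, representatives, levels and independent switches. -/

set_option linter.unusedSectionVars false

namespace Pool.Agent.Lib.MP_d63cb0_gt.H63

open Pool.Agent.Lib.MP_fecf72_lc Pool.Agent.Lib.MP_d63cb0_gt.H15 Set Filter Cardinal

variable {K : Type 1} {P : Type 2}

/-- conditions that separate two values -/
def bS (g : Nm (Cn K) → P → ℚ → Set (Cn K)) (σ τ : Nm (Cn K)) (i : ℕ) (a : P) : Set (Cn K) :=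
  {p | (Denumerable.ofNat (ℚ × ℚ) i).1 < (Denumerable.ofNat (ℚ × ℚ) i).2 ∧
    p ∈ loS (g σ a) (Denumerable.ofNat (ℚ × ℚ) i).1 ∧ p ∈ hiS (g τ a) (Denumerable.ofNat (ℚ × ℚ) i).2}

/-- conditions that put a value on a level -/
def bL (g : Nm (Cn K) → P → ℚ → Set (Cn K)) (η : Nm (Cn K)) (n0 n : ℕ) (a : P) : Set (Cn K) :=
  {p | n0 ≤ n ∧ p ∈ hiS (g η a) n ∧ p ∈ loS (g η a) (n + 1)}

/-- conditions of the ultrapower that put a value on a level -/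
def gL (W : Ultrafilter P) (g : Nm (Cn K) → P → ℚ → Set (Cn K)) (r : P → Cn K) (η : Nm (Cn K))
    (n : ℕ) : Set (P → Cn K) := {q | Ex W r q ∧ Hi W g η n q ∧ Lo W g η (n + 1) q}

/-- the situation of the ultrapower step -/
structure Cx (N : Set Wd) (G : Set (Cn K)) (S : TS (Mod N G)) (f : Nm (Cn K) → S.X → ℝ)
    (Γ : P → Set ((S.X → ℝ) × ℝ)) (W : Ultrafilter P) (r : P → Cn K)
    (g : Nm (Cn K) → P → ℚ → Set (Cn K)) (I0 : Set (S.X → ℝ)) : Prop where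
  fG : IsF Le G
  kit : Kit N G W r
  id0 : Idl S I0
  hf : ∀ σ, In N σ → f σ ∈ S.C
  ty : ∀ u ∈ S.C, AE N G W r fun a => Typ S I0 {u} (Γ a)
  vl : ∀ σ, In N σ → AE N G W r fun a => ∃ t, (f σ, t) ∈ Γ a ∧
    (∀ x : ℚ, Hd G (loS (g σ a) x) ↔ t ≤ x) ∧ ∀ y : ℚ, Hd G (hiS (g σ a) y) ↔ y < t
  mem : cd {u ∈ S.C | AE N G W r fun a => (u, 0) ∈ Γ a} ∈ Mod N G
  seq : ∀ u : ℕ → S.X → ℝ, cd u ∈ Mod N G → ∃ b : ℕ → P → Set (Cn K), In N b ∧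
    ∀ i a, In N a → (Hd G (b i a) ↔ (u i, 0) ∉ Γ a)
  lo : ∀ σ (s : P → Cn K) x, In N σ → In N s → In N {a | s a ∈ loS (g σ a) x}
  hi : ∀ σ (s : P → Cn K) x, In N σ → In N s → In N {a | s a ∈ hiS (g σ a) x}
  bS : ∀ σ τ, In N σ → In N τ → In N (bS g σ τ)
  bL : ∀ η n0, In N η → In N (bL g η n0)

variable {N : Set Wd} {G : Set (Cn K)} [Good (Mod N G)] {S : TS (Mod N G)}
  {f : Nm (Cn K) → S.X → ℝ} {Γ : P → Set ((S.X → ℝ) × ℝ)} {W : Ultrafilter P} {r : P → Cn K}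
  {g : Nm (Cn K) → P → ℚ → Set (Cn K)} {I0 : Set (S.X → ℝ)} {σ τ η : Nm (Cn K)}

/-- the ideal of functions whose value is almost always zero -/
def Id (N : Set Wd) (G : Set (Cn K)) {S : TS (Mod N G)} (Γ : P → Set ((S.X → ℝ) × ℝ))
    (W : Ultrafilter P) (r : P → Cn K) : Set (S.X → ℝ) :=
  {u ∈ S.C | AE N G W r fun a => (u, 0) ∈ Γ a}

theorem Cx.sub (h : Cx N G S f Γ W r g I0) : I0 ⊆ Id N G Γ W r := fun u k =>
  ⟨h.id0.sub k, (h.ty u (h.id0.sub k)).mono fun _ _ a => by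
    obtain ⟨t, b⟩ := a.tot u rfl
    obtain ⟨x, c, d, -⟩ := a.two h.id0 k b b
    rwa [← c, d]⟩

theorem Cx.idl (h : Cx N G S f Γ W r g I0) : Idl S (Id N G Γ W r) := by
  refine ⟨h.mem, sep_subset _ _, h.sub h.id0.zero, fun u a b => ?_⟩
  obtain ⟨e, c, d⟩ := h.seq u a
  obtain ⟨i, k1, k2, k3⟩ := h.kit.ex (h.kit.and (h.ty _ (b 0).1) (h.kit.add e c fun n =>
    (b n).2.mono fun i j k l => (d n i j).1 l k))
  obtain ⟨x, -, k4⟩ := k2.con (fun _ _ => 0) (fun n => (u n, 0))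
    (lam_mem (Dm.const (h.id0.sub h.id0.zero).1))
    (lam_mem ((Dm.capp a Dm.id).prod (Dm.const zero_mem))) (fun _ => h.id0.zero)
    fun n => not_not.1 fun l => k3 n ((d n i k1).2 l)
  exact ⟨x, k4⟩

theorem Cx.half (h : Cx N G S f Γ W r g I0) (h1 : In N σ) (h2 : In N τ)
    (k : ∀ s, Ex W r s → ∀ x y : ℚ, x < y → ¬ (Lo W g σ x s ∧ Hi W g τ y s)) :
    AE N G W r fun a => ∀ x y : ℚ, x < y → Hd G (loS (g σ a) x) → ¬ Hd G (hiS (g τ a) y) := by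
  rcases h.kit.pos _ (h.bS σ τ h1 h2) with a | ⟨i, q, -, a, b⟩
  · refine a.mono fun a _ b x y c ⟨p, d1, d2⟩ ⟨q, e1, e2⟩ => ?_
    obtain ⟨s, k1, k2, k3⟩ := h.fG.2 p d1 q e1
    obtain ⟨i, l⟩ : ∃ i, Denumerable.ofNat (ℚ × ℚ) i = (x, y) := ⟨_, Denumerable.ofNat_encode _⟩
    refine b i ⟨s, k1, ?_⟩
    rw [H63.bS, l]
    exact ⟨c, loS_le d2 k2, hiS_le e2 k3⟩
  · exact (k q a _ _ (let ⟨_, _, c, _⟩ := b.exists; c.1) ⟨b.mono fun _ ⟨_, c, d⟩ => loS_le c.2.1 d,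
      b.mono fun _ ⟨_, c, d⟩ => hiS_le c.2.2 d⟩).elim

theorem Cx.rep (h : Cx N G S f Γ W r g I0) (h1 : In N σ) (h2 : In N τ)
    (k : Sim W (Lo W g) (Hi W g) r σ τ) : (fun x => f σ x - f τ x) ∈ Id N G Γ W r := by
  have e := C_rn.sub (h.hf σ h1) (h.hf τ h2)
  refine ⟨e, (h.kit.and (h.kit.and (h.ty _ e) (h.kit.and (h.vl σ h1) (h.vl τ h2))) (h.kit.and
    (h.half h1 h2 fun s a x y b => (k s a x y b).1) (h.half h2 h1 fun s a x y b =>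
      (k s a x y b).2))).mono ?_⟩
  rintro a - ⟨⟨b, ⟨t, c1, c2, c3⟩, t', d1, d2, d3⟩, e1, e2⟩
  obtain ⟨w, b1⟩ := b.tot _ rfl
  obtain ⟨x, -, b2⟩ := b.fin h.id0 finite_empty (empty_subset _) (toFinite {(_, w), (_, t), (_, t')})
    (insert_subset b1 (insert_subset c1 (singleton_subset_iff.2 d1))) (insert_nonempty _ _)
  have b3 : t = t' := le_antisymm (not_lt.1 fun l => by
    obtain ⟨x, l1, l2⟩ := exists_rat_btwn l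
    obtain ⟨y, l3, l4⟩ := exists_rat_btwn l2
    exact e2 x y (Rat.cast_lt.1 l3) ((d2 x).2 l1.le) ((c3 y).2 l4)) (not_lt.1 fun l => by
    obtain ⟨x, l1, l2⟩ := exists_rat_btwn l
    obtain ⟨y, l3, l4⟩ := exists_rat_btwn l2
    exact e1 x y (Rat.cast_lt.1 l3) ((c2 x).2 l1.le) ((d3 y).2 l4))
  have b4 : f σ x - f τ x = w := b2 _ (Or.inl rfl)
  have b5 : f σ x = t := b2 _ (Or.inr (Or.inl rfl))
  have b6 : f τ x = t' := b2 _ (Or.inr (Or.inr rfl))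
  rwa [← b4, b5, b6, b3, sub_self] at b1

theorem Cx.lev (h : Cx N G S f Γ W r g I0) (h1 : In N η)
    (k : ¬ ∃ m : ℕ, ∃ u ∈ Id N G Γ W r, ∀ x, u x = 0 → f η x ≤ m) (n0 : ℕ) :
    ∃ n ≥ n0, ∃ q ∈ gL W g r η n, Cs G W q := by
  rcases h.kit.pos _ (h.bL η n0 h1) with a | ⟨n, q, a, b, c⟩
  swap
  · exact ⟨n, (let ⟨_, _, d, _⟩ := c.exists; d.1), q, ⟨b, c.mono fun _ ⟨_, d, e⟩ => hiS_le d.2.1 e,
      c.mono fun _ ⟨_, d, e⟩ => loS_le d.2.2 e⟩, a⟩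
  have e := h.hf η h1
  have e' : (fun x => max (f η x - n0) 0) ∈ S.C :=
    ⟨lam_mem (((Dm.capp e.1 Dm.id).sub (Dm.const (nat_mem n0))).max (Dm.const zero_mem)),
      (e.2.sub continuous_const).max continuous_const⟩
  refine (k ⟨n0, _, ⟨e', (h.kit.and a (h.kit.and (h.ty _ e') (h.vl η h1))).mono ?_⟩,
    fun x b => sub_nonpos.1 ((le_max_left _ _).trans_eq b)⟩).elim
  rintro a - ⟨b, c, t, d1, d2, d3⟩
  obtain ⟨w, b1⟩ := c.tot _ rfl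
  obtain ⟨x, -, b2, b3⟩ := c.two h.id0 h.id0.zero b1 d1
  have b4 : t ≤ n0 := not_lt.1 fun l => by
    obtain ⟨n, l1⟩ := Nat.exists_eq_add_one_of_ne_zero (Nat.ceil_pos.2 (n0.cast_nonneg.trans_lt l)).ne'
    have l2 : t ≤ n + 1 := by exact_mod_cast l1 ▸ Nat.le_ceil t
    obtain ⟨p, p1, p2⟩ := (d3 n).2 (by exact_mod_cast Nat.lt_ceil.1 (n.lt_succ_self.trans_eq l1.symm))
    obtain ⟨q, q1, q2⟩ := (d2 (n + 1)).2 (by exact_mod_cast l2)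
    obtain ⟨s, k1, k2, k3⟩ := h.fG.2 p p1 q q1
    exact b n ⟨s, k1, Nat.lt_succ_iff.1 (by exact_mod_cast l.trans_le l2), hiS_le p2 k2,
      loS_le q2 k3⟩
  rwa [← b2, b3, max_eq_right (sub_nonpos.2 b4)] at b1

theorem hd_one {p : Cn K} : Hd G {p} ↔ p ∈ G := ⟨fun ⟨_, a, b⟩ => b ▸ a, fun a => ⟨p, a, rfl⟩⟩

theorem Cx.ind (h : Cx N G S f Γ W r g I0) (h1 : In N η) {Λ R : Set (Nm (Cn K))} {k : Pk K P}
    (h2 : Spec W Λ (Lo W g) (Hi W g) r R k.D) (h3 : k.gd = gL W g r η) (h4 : ∀ n m, In N (k.Z n m))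
    (h5 : ∀ ξ i, In N ξ → In N (k.ix ξ i) ∧ ∀ ε, In N (k.c ξ i ε))
    (h6 : ∀ n m ξ l, In N ξ → (∃ q ∈ G, ∀ p, Le p q → ∃ t s, Le s p ∧ k.D.d n (k.Z n m) ξ l t ⊆ s) →
      ∃ t, Hd G {k.D.d n (k.Z n m) ξ l t}) {j : ℕ} (h7 : ∀ n0, ∃ n ≥ n0, n % 2 = j ∧
        ∃ m, Hd G {p | k.Z n m ∈ k.gd n ∧ p = k.D.e n (k.Z n m)})
    (h8 : cd ((fun ξ => (f ξ, (fun i => (i.1, i.2.1, k.lo ξ i, k.hi ξ i, f (k.ix ξ i))) ''
      {i | k.Sel G j ξ i})) '' {ξ | In N ξ ∧ ξ ∈ R}) ∈ Mod N G) :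
    Ind S (f η) j {ξ | In N ξ ∧ ξ ∈ R} f fun ξ =>
      (fun i => (i.1, i.2.1, k.lo ξ i, k.hi ξ i, f (k.ix ξ i))) '' {i | k.Sel G j ξ i} := by
  classical
  have u1 : ∀ ξ i i', k.Sel G j ξ i → k.Sel G j ξ i' → i.1 = i'.1 → i.2.1 = i'.2.1 → i = i' := by
    rintro ξ ⟨n, l, m, t⟩ ⟨_, _, m', t'⟩ a b rfl rfl
    obtain rfl : m = m' := a.2.1.eq b.2.1
    obtain rfl : t = t' := a.2.2.eq b.2.2
    rfl
  refine ⟨h.hf η h1, h8, fun ξ a => h.hf ξ a.1, ?_, fun ξ a n => ?_, fun s v a n0 => ?_⟩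
  · rintro ξ a _ ⟨i, b, rfl⟩
    obtain ⟨_, -, c, -⟩ := b.2.1.1
    exact ⟨b.1.1, (h2.pair _ _ (h3 ▸ c).1 ξ a.2 _ _).2.1, h.hf _ (h5 ξ i a.1).1⟩
  · refine ((Set.Finite.of_finite_image (s := {i | k.Sel G j ξ i ∧ i.1 = n}) (f := fun i => i.2.1)
      ((finite_le_nat n).subset ?_) fun i b i' c => u1 ξ i i' b.1 c.1 (b.2.trans c.2.symm)).image
      fun i => (i.1, i.2.1, k.lo ξ i, k.hi ξ i, f (k.ix ξ i))).subset ?_
    · rintro _ ⟨i, b, rfl⟩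
      exact b.2 ▸ b.1.1.2
    · rintro _ ⟨⟨i, b, rfl⟩, c⟩
      exact ⟨i, ⟨b, c⟩, rfl⟩
  obtain ⟨n1, b1⟩ := h2.ind s fun ξ b => (a b).2
  obtain ⟨n, b2, b3, b4⟩ := h7 (max n0 n1)
  obtain ⟨m, b4⟩ := Lw.ex b4
  obtain ⟨_, b5, b6, rfl⟩ := b4.1
  rw [h3] at b6
  have b7 := h2.root n _ b6.1
  have : ∀ ξ l, ∃ t, ξ ∈ s → Lw (fun t => Hd G {k.D.d n (k.Z n m) ξ l t}) t := fun ξ l => by
    by_cases c : ξ ∈ s
    · exact (Lw.ex (h6 n m ξ l (a c).1 ⟨_, b5, fun p d =>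
        let ⟨t, p', e1, e2, e3⟩ := b7.2.2 ξ (a c).2 l p d.2 d.1; ⟨t, p', ⟨e2, e1⟩, e3⟩⟩)).imp
        fun _ d _ => d
    · exact ⟨0, fun d => (c d).elim⟩
  choose t ht using this
  have c1 : ∀ ξ ∈ s, ∀ l ≤ n, k.Sel G j ξ (n, l, m, t ξ l) := fun ξ c l d => ⟨⟨b3, d⟩, b4, ht ξ l c⟩
  have c2 := fun ξ (c : ξ ∈ s) l => h2.pair n _ b6.1 ξ (a c).2 l (t ξ l)
  have c3 := fun ξ (c : ξ ∈ s) l => h5 ξ (n, l, m, t ξ l) (a c).1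
  obtain ⟨i, -, ⟨⟨d1, w, d2, d3, d4⟩, ⟨d5, d6⟩, d7⟩, d8⟩ := h.kit.gl (h.kit.and (h.kit.and
    (h.ty _ (h.hf η h1)) (h.vl η h1)) (h.kit.and (h.kit.and (AE.of b6.2.1 (h.hi η _ _ h1 (h4 n m)))
    (AE.of b6.2.2 (h.lo η _ _ h1 (h4 n m)))) (h.kit.fin (s ×ˢ Finset.range (n + 1)) fun z c =>
      have c' := (Finset.mem_product.1 c).1
      h.kit.and (h.vl _ (c3 _ c' z.2).1) (h.kit.and
        (AE.of (c2 _ c' z.2).2.2.1 (h.lo _ _ _ (c3 _ c' z.2).1 ((c3 _ c' z.2).2 false)))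
        (AE.of (c2 _ c' z.2).2.2.2.1 (h.hi _ _ _ (c3 _ c' z.2).1 ((c3 _ c' z.2).2 true)))))))
    (insert (k.Z n m) ((s ×ˢ Finset.range (n + 1)).image fun z : Nm (Cn K) × ℕ =>
      k.c z.1 (n, z.2, m, t z.1 z.2) (z.2 = pat (v z.1) n))) (by
      refine (Finset.forall_mem_insert _ _ _).2 ⟨⟨h4 n m, _, b5, b7.2.1⟩,
        Finset.forall_mem_image.2 fun z c => ?_⟩
      have c' := (Finset.mem_product.1 c).1
      exact ⟨(c3 _ c' _).2 _, _, hd_one.1 (ht _ _ c').1, (c2 _ c' _).2.2.2.2 _⟩)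
    ((Eventually.and b6.1 (b1 n ((le_max_right _ _).trans b2) _ b6.1 t
      fun ξ l => l = pat (v ξ) n)).mono fun i ⟨c, p, d1, d2, d3⟩ => ⟨p, d1, c.1.trans d2,
        (Finset.forall_mem_insert _ _ _).2 ⟨d2, Finset.forall_mem_image.2 fun z e => by
          exact d3 _ (Finset.mem_product.1 e).1 _
            (Nat.lt_succ_iff.1 (Finset.mem_range.1 (Finset.mem_product.1 e).2))⟩⟩)
  have e1 := d8 _ (Finset.mem_insert_self _ _)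
  choose! w' e2 e3 e4 using fun z c => (d7 z c).1
  obtain ⟨x, -, e5⟩ := d1.fin h.id0 finite_empty (empty_subset _) (((s ×ˢ Finset.range (n + 1)).1
    |>.finite_toSet.image fun z => (f (k.ix z.1 (n, z.2, m, t z.1 z.2)), w' z)).insert (f η, w))
    (insert_subset d2 (by rintro _ ⟨z, c, rfl⟩; exact e2 z c)) (insert_nonempty _ _)
  have e6 : f η x = w := e5 _ (Or.inl rfl)
  have e7 : ∀ ξ ∈ s, ∀ l ≤ n, (ξ, l) ∈ s ×ˢ Finset.range (n + 1) := fun ξ c l d =>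
    Finset.mem_product.2 ⟨c, Finset.mem_range.2 (Nat.lt_succ_iff.2 d)⟩
  have e8 := fun ξ c l d => d8 _ (Finset.mem_insert_of_mem (Finset.mem_image_of_mem _ (e7 ξ c l d)))
  refine ⟨n, (le_max_left _ _).trans b2, b3, x, ?_, ?_, fun ξ c d => ⟨⟨_, ⟨_, c1 ξ c _ d, rfl⟩, rfl,
    rfl, ?_⟩, ?_⟩⟩
  · exact_mod_cast e6 ▸ ((d4 n).1 ⟨_, e1, d5⟩).le
  · exact_mod_cast e6 ▸ (d3 (n + 1)).1 ⟨_, e1, d6⟩
  · refine ((e4 _ (e7 ξ c _ d) _).1 ⟨_, ?_, (d7 _ (e7 ξ c _ d)).2.2⟩).le.trans_eq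
      (e5 _ (Or.inr ⟨_, e7 ξ c _ d, rfl⟩)).symm
    simpa [Pk.c] using e8 ξ c _ d
  · rintro _ ⟨⟨_, l, m', t'⟩, e, rfl⟩ rfl e'
    obtain ⟨-, -, rfl, rfl⟩ := by
      simpa only [Prod.mk.injEq] using u1 ξ _ _ (c1 ξ c l e.1.2) e rfl rfl
    refine (e5 _ (Or.inr ⟨_, e7 ξ c _ e.1.2, rfl⟩)).trans_le ((e3 _ (e7 ξ c _ e.1.2) _).1
      ⟨_, ?_, (d7 _ (e7 ξ c _ e.1.2)).2.1⟩)
    simpa [Pk.c, show l ≠ _ from e'] using e8 ξ c _ e.1.2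

end Pool.Agent.Lib.MP_d63cb0_gt.H63
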