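import Pool.Agent.Lib.MP_d63cb0_gt.H63.B_FC
import Pool.Agent.Lib.MP_d63cb0_gt.H63.B_LG

/-! The ideal of null sets of indices in the generic extension. -/

namespace Pool.Agent.Lib.MP_d63cb0_gt.H63

open Pool.Agent.Lib.MP_fecf72_lc Pool.Agent.Lib.MP_d63cb0_gt.H15 Set Filter Cardinal

theorem club_pr : ∀ᶠ N in Club, ∀ (A B : Type 2) (a : A) (b : B), In N a → In N b → In N (a, b) :=
  ⟨fun x y _ => ⟨x.1 × y.1, (x.2, y.2)⟩, fun _ _ _ h _ _ _ _ ha hb => h _ ha _ hb 0⟩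

variable {K : Type 1} {P J : Type 2} {N : Set Wd} {G : Set (Cn K)}

/-- conditions that force a value above `y` -/
def hiS (b : ℚ → Set (Cn K)) (y : ℚ) : Set (Cn K) := {p | ∃ y' ≥ y, ∃ t ∈ b y', Le p t}

/-- conditions that force a value at most `x` -/
def loS (b : ℚ → Set (Cn K)) (x : ℚ) : Set (Cn K) :=
  {p | ∀ y' ≥ x, ∀ q, Le q p → ∀ t ∈ b y', ¬ Le q t}

theorem hiS_le {b : ℚ → Set (Cn K)} {y : ℚ} {p q : Cn K} (h : p ∈ hiS b y) (k : Le q p) :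
    q ∈ hiS b y := let ⟨y', a, t, c, d⟩ := h; ⟨y', a, t, c, fo.tr k d⟩

theorem loS_le {b : ℚ → Set (Cn K)} {y : ℚ} {p q : Cn K} (h : p ∈ loS b y) (k : Le q p) :
    q ∈ loS b y := fun y' a s c => h y' a s (fo.tr c k)

theorem club_lo : ∀ᶠ N in Club, ∀ G : Set (Cn K), GG N Le G → ∀ (b : ℚ → Set (Cn K)) (t : ℝ),
    In N b → (∀ q, Hd G (b q) ↔ (q : ℝ) < t) →
      (∀ x : ℚ, Hd G (loS b x) ↔ t ≤ x) ∧ ∀ y : ℚ, Hd G (hiS b y) ↔ y < t := by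
  filter_upwards [club_all fun x : ℚ => clo1 fun b : ℚ → Set (Cn K) => loS b x ∪ hiS b x]
    with N h1 G hG b t hb h
  have k : ∀ y : ℚ, Hd G (hiS b y) ↔ y < t := fun y =>
    ⟨fun ⟨p, a, y', c, s, d, e⟩ => (Rat.cast_le.2 c).trans_lt ((h y').1 ⟨s, hG.f.1 p a s e, d⟩),
      fun a => let ⟨s, c, d⟩ := (h y).2 a; ⟨s, c, y, le_rfl, s, d, hG.f.self fo c⟩⟩
  refine ⟨fun x => ⟨fun ⟨p, a, c⟩ => not_lt.1 fun d => ?_, fun a => ?_⟩, k⟩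
  · obtain ⟨s, e, f⟩ := (h x).2 d
    obtain ⟨q, -, i, j⟩ := hG.f.2 p a s e
    exact c x le_rfl q i s f j
  · obtain ⟨d, c | c, e, -⟩ := hG.g _ (h1 x b hb) fun p hp => by
      by_cases c : p ∈ loS b x
      · exact ⟨p, Or.inl c, hp⟩
      · simp only [loS, mem_ofPred_eq, not_forall, not_not] at c
        obtain ⟨y', c1, q, c2, s, c3, c4⟩ := c
        exact ⟨q, Or.inr ⟨y', c1, s, c3, c4⟩, c2⟩
    · exact ⟨d, e, c⟩
    · exact absurd ((k x).1 ⟨d, e, c⟩) (not_lt.2 a)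

/-- the condition of the ultrapower forces a value at most `x` -/
def Lo (W : Ultrafilter P) (g : J → P → ℚ → Set (Cn K)) (σ : J) (x : ℚ) (s : P → Cn K) : Prop :=
  ∀ᶠ a in (W : Filter P), s a ∈ loS (g σ a) x

/-- the condition of the ultrapower forces a value above `y` -/
def Hi (W : Ultrafilter P) (g : J → P → ℚ → Set (Cn K)) (σ : J) (y : ℚ) (s : P → Cn K) : Prop :=
  ∀ᶠ a in (W : Filter P), s a ∈ hiS (g σ a) y

variable {W : Ultrafilter P} {g : J → P → ℚ → Set (Cn K)} {r s q : P → Cn K} {Q Q' : P → Prop}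

theorem Lo.ex {σ : J} {x : ℚ} (h : Lo W g σ x r) (k : Ex W r s) : Lo W g σ x s :=
  (Eventually.and h k).mono fun _ a => loS_le a.1 a.2

theorem Hi.ex {σ : J} {x : ℚ} (h : Hi W g σ x r) (k : Ex W r s) : Hi W g σ x s :=
  (Eventually.and h k).mono fun _ a => hiS_le a.1 a.2

theorem Ex.trans (h : Ex W r s) (k : Ex W s q) : Ex W r q :=
  (Eventually.and h k).mono fun _ a => ⟨a.1.1.trans a.2.1, a.2.2⟩

/-- almost all indices of the hull whose condition is in the filter -/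
def AE (N : Set Wd) (G : Set (Cn K)) (W : Ultrafilter P) (r : P → Cn K) (Q : P → Prop) : Prop :=
  ∃ B ∈ W, In N B ∧ ∀ a ∈ B, In N a → r a ∈ G → Q a

theorem AE.mono (h : AE N G W r Q) (k : ∀ a, In N a → Q a → Q' a) : AE N G W r Q' :=
  let ⟨B, a, b, c⟩ := h; ⟨B, a, b, fun x d e f => k x e (c x d e f)⟩

theorem AE.of {B : Set P} (h : B ∈ W) (k : In N B) : AE N G W r (· ∈ B) :=
  ⟨B, h, k, fun _ a _ _ => a⟩

/-- the ground part is below the filter -/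
def Cs (G : Set (Cn K)) (W : Ultrafilter P) (q : P → Cn K) : Prop := ∃ p ∈ G, cst W q ⊆ p

/-- what is used about the ideal of null sets -/
structure Kit (N : Set Wd) (G : Set (Cn K)) (W : Ultrafilter P) (r : P → Cn K) : Prop where
  hW : In N W
  hr : In N r
  cif : CountableInterFilter (W : Filter P)
  top : AE N G W r fun _ => True
  ex : ∀ {Q}, AE N G W r Q → ∃ a, In N a ∧ Q a
  and : ∀ {Q Q'}, AE N G W r Q → AE N G W r Q' → AE N G W r fun a => Q a ∧ Q' a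
  add : ∀ b : ℕ → P → Set (Cn K), In N b → (∀ i, AE N G W r fun a => ¬ Hd G (b i a)) →
    AE N G W r fun a => ∀ i, ¬ Hd G (b i a)
  pos : ∀ b : ℕ → P → Set (Cn K), In N b → (AE N G W r fun a => ∀ i, ¬ Hd G (b i a)) ∨
    ∃ i q, Cs G W q ∧ Ex W r q ∧ ∀ᶠ a in (W : Filter P), ∃ t ∈ b i a, Le (q a) t
  gl : ∀ {Q}, AE N G W r Q → ∀ T : Finset (P → Cn K), (∀ q ∈ T, In N q ∧ Cs G W q) →
    (∀ᶠ a in (W : Filter P), ∃ p, Cons p ∧ r a ⊆ p ∧ ∀ q ∈ T, q a ⊆ p) →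
      ∃ a, In N a ∧ Q a ∧ ∀ q ∈ T, q a ∈ G

theorem Kit.fin (h : Kit N G W r) {ι : Type*} (s : Finset ι) {Q : ι → P → Prop}
    (k : ∀ i ∈ s, AE N G W r (Q i)) : AE N G W r fun a => ∀ i ∈ s, Q i a := by
  classical
  induction s using Finset.induction_on with
  | empty => exact h.top.mono (by simp)
  | insert i s _ ih =>
    exact (h.and (k i (Finset.mem_insert_self _ _)) (ih fun j a =>
      k j (Finset.mem_insert_of_mem a))).mono fun a _ b => by simpa using b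

/-- common extensions -/
def gd (p : Cn K) (b : Set (Cn K)) : Set (Cn K) := {s | Le s p ∧ ∃ t ∈ b, Le s t}

theorem hd_gd (hG : IsF Le G) {p : Cn K} {b : Set (Cn K)} : Hd G (gd p b) ↔ p ∈ G ∧ Hd G b :=
  ⟨fun ⟨s, a, c, t, d, e⟩ => ⟨hG.1 s a p c, t, hG.1 s a t e, d⟩,
    fun ⟨a, t, c, d⟩ => let ⟨s, e, f, i⟩ := hG.2 p a t c; ⟨s, e, f, t, d, i⟩⟩

theorem club_kit (P : Type 2) : ∀ᶠ N in Club, ∀ G : Set (Cn K), GG N Le G →
    ∀ (W : Ultrafilter P) (r : P → Cn K), In N W → In N r → CountableInterFilter (W : Filter P) →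
      (∀ᶠ a in (W : Filter P), Cons (r a)) → Cs G W r → Kit N G W r := by
  classical
  filter_upwards [st_ADD K P, st_GL K P, st_TL K P, clo0 (univ : Set P),
    clo2 fun B B' : Set P => B ∩ B',
    clo2 fun (r : P → Cn K) (b : ℕ → P → Set (Cn K)) i a => gd (r a) (b i a),
    clo1n fun (b : ℕ → P → Set (Cn K)) i => b i] with N h1 h2 h3 h4 h5 h6 h7 G hG W r a1 a2 a3 a4 a5
  have add : ∀ b : ℕ → P → Set (Cn K), In N b → (∀ i, AE N G W r fun a => ¬ Hd G (b i a)) →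
      AE N G W r fun a => ∀ i, ¬ Hd G (b i a) := fun b hb k => by
    obtain ⟨B, b1, b2, b3⟩ := h1 G hG W _ a1 (h6 r b a2 hb) a3 fun i =>
      let ⟨B, c1, c2, c3⟩ := k i
      ⟨B, c1, c2, fun a d e f => c3 a d e ((hd_gd hG.f).1 f).1 ((hd_gd hG.f).1 f).2⟩
    exact ⟨B, b1, b2, fun a c d e i f => b3 i a c d ((hd_gd hG.f).2 ⟨e, f⟩)⟩
  have gl : ∀ {Q}, AE N G W r Q → ∀ T : Finset (P → Cn K), (∀ q ∈ T, In N q ∧ Cs G W q) →
      (∀ᶠ a in (W : Filter P), ∃ p, Cons p ∧ r a ⊆ p ∧ ∀ q ∈ T, q a ⊆ p) →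
      ∃ a, In N a ∧ Q a ∧ ∀ q ∈ T, q a ∈ G := fun ⟨B, b1, b2, b3⟩ T c d => by
    obtain ⟨a, e1, e2, e3⟩ := h2 G hG W (insert r T) B a1
      (Finset.forall_mem_insert _ _ _ |>.2 ⟨a2, fun q k => (c q k).1⟩) b2 a3 b1
      (d.mono fun a ⟨p, k1, k2⟩ => ⟨p, k1, Finset.forall_mem_insert _ _ _ |>.2 k2⟩)
      (Finset.forall_mem_insert _ _ _ |>.2 ⟨a5, fun q k => (c q k).2⟩)
    exact ⟨a, e2, b3 a e1 e2 (e3 r (Finset.mem_insert_self _ _)),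
      fun q k => e3 q (Finset.mem_insert_of_mem k)⟩
  refine ⟨a1, a2, a3, ⟨univ, univ_mem, h4, fun _ _ _ _ => trivial⟩, fun k => ?_,
    fun ⟨B, b1, b2, b3⟩ ⟨B', c1, c2, c3⟩ => ⟨B ∩ B', inter_mem b1 c1, h5 _ _ b2 c2,
      fun a d e f => ⟨b3 a d.1 e f, c3 a d.2 e f⟩⟩, add, fun b hb => ?_, gl⟩
  · obtain ⟨a, b, c, -⟩ := gl k ∅ (by simp) (a4.mono fun a e => ⟨_, e, subset_rfl, by simp⟩)
    exact ⟨a, b, c⟩
  by_cases k : ∀ i, AE N G W r fun a => ¬ Hd G (b i a)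
  · exact Or.inl (add b hb k)
  obtain ⟨i, k⟩ := not_forall.1 k
  obtain ⟨q, -, c1, c2⟩ := h3 G hG W _ a1 (h7 _ (h6 r b a2 hb) i) a3 fun B c d => by
    by_contra e
    exact k ⟨B, c, d, fun a e1 e2 e3 e4 => e ⟨a, e1, e2, (hd_gd hG.f).2 ⟨e3, e4⟩⟩⟩
  exact Or.inr ⟨i, q, c1, c2.mono fun a ⟨_, d, e⟩ => fo.tr e d.1,
    c2.mono fun a ⟨_, ⟨_, t, d, d'⟩, e⟩ => ⟨t, d, fo.tr e d'⟩⟩

theorem club_lg (J : Type 2) (P : Type 2) (h1 : Infinite K) (h2 : #K ^ ℵ₀ = #K) :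
    ∀ᶠ N in Club, ∀ G : Set (Cn K), GG N Le G → ∀ (W : Ultrafilter P) (Λ : Set J)
      (g : J → P → ℚ → Set (Cn K)), In N W → In N Λ → In N g →
      CountableInterFilter (W : Filter P) → ∃ (r : P → Cn K) (R : Set J) (D : Dat K P J),
        In N r ∧ In N R ∧ In N D ∧ (∀ᶠ a in (W : Filter P), Cons (r a)) ∧ Cs G W r ∧ R ⊆ Λ ∧
        (∀ σ ∈ Λ, In N σ → ∃ τ ∈ R, In N τ ∧ Sim W (Lo W g) (Hi W g) r σ τ) ∧
        (Nonempty (R ↪ K) ∨ Spec W Λ (Lo W g) (Hi W g) r R D) := by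
  filter_upwards [club_pr, club_ne, clo_pair (P → Cn K) (Set J × Dat K P J),
    clo_pair (Set J) (Dat K P J),
    club_wit2 fo fun (z : Ultrafilter P × Set J × (J → P → ℚ → Set (Cn K))) (s : Cn K)
      (x : (P → Cn K) × Set J × Dat K P J) => cst z.1 x.1 ⊆ s ∧
      (∀ᶠ a in (z.1 : Filter P), Cons (x.1 a)) ∧ x.2.1 ⊆ z.2.1 ∧ (∀ σ ∈ z.2.1, ∃ τ ∈ x.2.1,
        Sim z.1 (Lo z.1 z.2.2) (Hi z.1 z.2.2) x.1 σ τ) ∧ (Nonempty (x.2.1 ↪ K) ∨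
          Spec z.1 z.2.1 (Lo z.1 z.2.2) (Hi z.1 z.2.2) x.1 x.2.1 x.2.2),
    sk2 fun (z : Ultrafilter P × (J → P → ℚ → Set (Cn K)) × (P → Cn K) × Set J) σ τ =>
      τ ∈ z.2.2.2 ∧ Sim z.1 (Lo z.1 z.2.1) (Hi z.1 z.2.1) z.2.2.1 σ τ]
    with N pr ne p1 p2 w sk G hG W Λ g a1 a2 a3 a4
  obtain ⟨q0, hq⟩ := ne G hG
  obtain ⟨s, b1, ⟨r, R, D⟩, b2, b3, b4, b5, b6, b7⟩ := w G hG (W, Λ, g)
    (pr _ _ _ _ a1 (pr _ _ _ _ a2 a3)) ⟨q0, hq, fun p hp => by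
      obtain ⟨r, c1, R, c2, c3, c4⟩ := st_LG K P J W Λ (Lo W g) (Hi W g) a4 h1 h2
        (fun _ _ _ _ a b => b.ex a) (fun _ _ _ _ a b => b.ex a) (fun σ x y s a b c => by
          obtain ⟨i, d, y', e, t, f, j⟩ := (Eventually.and b c).exists
          exact d y' (a.le.trans e) _ (fo.l j) t f j) p hp.2
      have c5 := c1.mono fun _ a => a.2
      obtain ⟨s, d1, d2⟩ := (st_CST K P W r a4 c5).1
      obtain ⟨D, d3⟩ : ∃ D, Nonempty (R ↪ K) ∨ Spec W Λ (Lo W g) (Hi W g) r R D :=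
        c4.elim (fun a => ⟨⟨fun _ _ => ∅, fun _ _ _ _ _ => ∅, fun _ _ _ _ _ _ _ => ∅,
          fun _ _ ξ _ _ => ξ, fun _ _ _ _ _ => 0, fun _ _ _ _ _ => 0⟩, Or.inl a⟩)
          fun ⟨D, a⟩ => ⟨D, Or.inr a⟩
      exact ⟨s, (r, R, D), ⟨fun z a => Finset.mem_coe.1 (d2 ▸ c1.mono fun _ b => b.1 a), d1⟩,
        d2.ge, c5, c2, c3, d3⟩⟩
  have e1 := (p1 _ _).1 b2
  have e2 := (p2 _ _).1 e1.2
  exact ⟨r, R, D, e1.1, e2.1, e2.2, b4, ⟨s, b1, b3⟩, b5, fun σ c d =>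
    let ⟨τ, i, j, k⟩ := sk (W, g, r, R) σ (pr _ _ _ _ a1 (pr _ _ _ _ a3 (pr _ _ _ _ e1.1 e2.1))) d
      (b6 σ c); ⟨τ, j, i, k⟩, b7⟩

end Pool.Agent.Lib.MP_d63cb0_gt.H63
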